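import Pool.Agent.H34.ND.Cell

/-! # Independent events, and the density `1 / log n` -/

set_option autoImplicit false

namespace Pool.Agent.H34.ND

open MeasureTheory Filter Topology Finset ProbabilityTheory

lemma tendsto_zero_of_density {p : ℕ → ℝ}
    (hp : Tendsto (fun n : ℕ => p n * Real.log n) atTop (𝓝 1)) : Tendsto p atTop (𝓝 0) := by
  have h1 : Tendsto (fun n : ℕ => (p n * Real.log n) * (Real.log n)⁻¹) atTop (𝓝 (1 * 0)) :=
    hp.mul tendsto_log_nat.inv_tendsto_atTop
  rw [mul_zero] at h1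
  apply h1.congr'
  filter_upwards [tendsto_log_nat.eventually_gt_atTop 0] with n hn
  field_simp

lemma dens_of_density {p : ℕ → ℝ} (h0 : ∀ n, 0 ≤ p n) (h1 : ∀ n, p n ≤ 1)
    (hp : Tendsto (fun n : ℕ => p n * Real.log n) atTop (𝓝 1)) : Dens p :=
  ⟨h0, h1, tendsto_zero_of_density hp, spread_of_density hp⟩

lemma indConst_one {p : ℕ → ℝ} (h0 : ∀ n, 0 ≤ p n) (h1 : ∀ n, p n ≤ 1)
    (hp : Tendsto (fun n : ℕ => p n * Real.log n) atTop (𝓝 1)) : indConst p = 1 := by
  have hd := dens_of_density h0 h1 hp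
  rw [indConst_eq hd.p0 hd.p1 hd.lim hd.spread]
  refine le_antisymm ?_ ?_
  · apply critical_le_one hp (fun lam n => (Real.exp_pos _).le) (fun n => phi_zero 1 n)
    intro lam n
    rw [one_mul]
    rfl
  · apply le_critical (phi_bdd hd.p0 hd.spread le_rfl)
    intro lam hl0 hl1 hsum
    apply not_summable_exp (le_refl (1:ℝ))
    refine summable_of_ev (fun n => (Real.exp_pos _).le) hsum ?_
    have hκ : 1 < 1 / lam := by
      rw [lt_div_iff₀ hl0]
      linarith
    filter_upwards [mass_upper hp hκ hl0.le] with n hn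
    apply Real.exp_le_exp.2
    have h2 := hn n le_rfl
    have h3 : wmass p lam n ≤ 1 / lam * lam * Real.log n := h2
    have h4 : 1 / lam * lam = 1 := by field_simp
    rw [h4] at h3
    linarith

section
variable {Ω : Type*} [MeasurableSpace Ω] {P : Measure Ω} [IsProbabilityMeasure P] {E : ℕ → Set Ω}

lemma indep_compl (hm : ∀ n, MeasurableSet (E n)) (h : iIndepSet E P) (S : Finset ℕ) :
    P.real (⋂ n ∈ S, (E n)ᶜ) = ∏ n ∈ S, (1 - P.real (E n)) := by
  have h1 : P (⋂ n ∈ S, (E n)ᶜ) = ∏ n ∈ S, P ((E n)ᶜ) := by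
    have h2 : iIndep (fun n => MeasurableSpace.generateFrom {E n}) P := h
    apply h2.meas_biInter
    intro n _
    exact (MeasurableSpace.measurableSet_generateFrom (Set.mem_singleton _)).compl
  rw [measureReal_def, h1, ENNReal.toReal_prod]
  refine Finset.prod_congr rfl fun n _ => ?_
  exact probReal_compl_eq_one_sub (hm n)

lemma free_biInter (a b : ℕ) : Free E a b = ⋂ n ∈ Ioc a b, (E n)ᶜ := by
  ext ω
  simp [Free]

lemma indep_free (hm : ∀ n, MeasurableSet (E n)) (h : iIndepSet E P) (a b : ℕ) :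
    P.real (Free E a b) = ∏ n ∈ Ioc a b, (1 - P.real (E n)) := by
  rw [free_biInter, indep_compl hm h]

lemma indep_negDep (hm : ∀ n, MeasurableSet (E n)) (h : iIndepSet E P) : NegDep P E where
  meas := hm
  neg := by
    intro a b c d hab hbc hcd
    have h1 : Free E a b ∩ Free E c d = ⋂ n ∈ Ioc a b ∪ Ioc c d, (E n)ᶜ := by
      rw [free_biInter, free_biInter]
      ext ω
      simp only [Set.mem_inter_iff, Set.mem_iInter, Finset.mem_union]
      constructor
      · rintro ⟨h2, h3⟩ n (h4 | h4)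
        · exact h2 n h4
        · exact h3 n h4
      · intro h2
        exact ⟨fun n h3 => h2 n (Or.inl h3), fun n h3 => h2 n (Or.inr h3)⟩
    have hdisj : Disjoint (Ioc a b) (Ioc c d) := by
      rw [Finset.disjoint_left]
      intro n h2 h3
      rw [Finset.mem_Ioc] at h2 h3
      omega
    rw [h1, indep_compl hm h, indep_free hm h, indep_free hm h, Finset.prod_union hdisj]

lemma indep_cramer (hm : ∀ n, MeasurableSet (E n)) (h : iIndepSet E P)
    (hs : Spread fun n => P.real (E n)) : ∀ᵐ ω ∂P, {n | ω ∈ E n}.Infinite ∧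
      cramerConst {n | ω ∈ E n} = ((indConst fun n => P.real (E n) : ℝ) : EReal) := by
  have h1 := (indep_negDep hm h).cramer hs
  have h2 : critical (emp P E) = indConst fun n => P.real (E n) := by
    unfold indConst
    congr 1
    funext lam n
    exact indep_free hm h _ _
  rwa [h2] at h1

end

end Pool.Agent.H34.ND
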