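import Mathlib

/-! # Linear algebra: principal minors, Fischer's inequality -/

set_option autoImplicit false

namespace Pool.Agent.H34.ND

open Matrix Finset
open scoped ComplexOrder MatrixOrder

section
variable {n : Type*} [Fintype n] [DecidableEq n]

lemma det_one_sub {R : Type*} [CommRing R] (M : Matrix n n R) :
    (1 - M).det = ∑ s : Finset n, (-1) ^ s.card *
      (M.submatrix (Subtype.val : s → n) (Subtype.val : s → n)).det := by
  have h0 : (1 - M) = (fun i => (-M).row i + (1 : Matrix n n R).row i) := by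
    funext i j
    simp [Matrix.row]
    ring
  have h1 : (1 - M).det = detRowAlternating (fun i => (-M).row i + (1 : Matrix n n R).row i) := by
    rw [h0]
    rfl
  rw [h1]
  have h2 := (detRowAlternating (n := n) (R := R)).map_add_univ (fun i => (-M).row i)
    (fun i => (1 : Matrix n n R).row i)
  have h3 : (fun i => (-M).row i + (1 : Matrix n n R).row i) =
      (fun i => (-M).row i) + (fun i => (1 : Matrix n n R).row i) := rfl
  rw [h3, h2]
  refine Finset.sum_congr rfl fun s _ => ?_
  have h4 := Matrix.det_piecewise_one_eq_submatrix_det (-M) s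
  have h5 : detRowAlternating (s.piecewise (fun i => (-M).row i)
      (fun i => (1 : Matrix n n R).row i)) =
      det (Matrix.of <| s.piecewise (-M).row (1 : Matrix n n R).row) := rfl
  have h6 : (-M).submatrix (Subtype.val : s → n) (Subtype.val : s → n) =
      -(M.submatrix (Subtype.val : s → n) (Subtype.val : s → n)) := rfl
  rw [h5, h4, h6, Matrix.det_neg]
  simp

lemma det_one_add_smul (A : Matrix n n ℂ) (x : ℂ) :
    (1 + x • A).det = ∑ s : Finset n, x ^ s.card *
      (A.submatrix (Subtype.val : s → n) (Subtype.val : s → n)).det := by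
  have h := det_one_sub (-(x • A))
  rw [sub_neg_eq_add] at h
  rw [h]
  refine Finset.sum_congr rfl fun s _ => ?_
  have h6 : (-(x • A)).submatrix (Subtype.val : s → n) (Subtype.val : s → n) =
      (-x) • (A.submatrix (Subtype.val : s → n) (Subtype.val : s → n)) := by
    ext i j
    simp
  rw [h6, Matrix.det_smul, ← mul_assoc]
  simp only [Fintype.card_coe]
  rw [← mul_pow]
  norm_num

/-- a Hermitian matrix with nonnegative principal minors is positive semidefinite -/
lemma psd_of_minors {A : Matrix n n ℂ} (hA : A.IsHermitian)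
    (h : ∀ s : Finset n, 0 ≤ (A.submatrix (Subtype.val : s → n) (Subtype.val : s → n)).det) :
    A.PosSemidef := by
  rw [hA.posSemidef_iff_eigenvalues_nonneg]
  intro i
  by_contra hcon
  rw [not_le] at hcon
  simp only [Pi.zero_apply] at hcon
  set x : ℝ := -(hA.eigenvalues i)⁻¹ with hx
  have hx0 : 0 < x := by
    rw [hx, neg_pos, inv_lt_zero]
    exact hcon
  have h1 : (1 : ℂ) ≤ (1 + (x : ℂ) • A).det := by
    rw [det_one_add_smul]
    have h2 : ∀ s : Finset n, 0 ≤ (x : ℂ) ^ s.card *
        (A.submatrix (Subtype.val : s → n) (Subtype.val : s → n)).det := fun s =>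
      mul_nonneg (pow_nonneg (by exact_mod_cast hx0.le) _) (h s)
    have h3 := Finset.single_le_sum (fun s _ => h2 s) (Finset.mem_univ (∅ : Finset n))
    simpa using h3
  have h2 : (1 + (x : ℂ) • A).det = 0 := by
    rw [← Matrix.exists_mulVec_eq_zero_iff]
    refine ⟨⇑(hA.eigenvectorBasis i), ?_, ?_⟩
    · have := hA.eigenvectorBasis.orthonormal.ne_zero i
      simpa using this
    · rw [Matrix.add_mulVec, Matrix.one_mulVec, Matrix.smul_mulVec, hA.mulVec_eigenvectorBasis]
      funext j
      simp only [Pi.add_apply, Pi.smul_apply, Pi.zero_apply, Complex.real_smul, smul_eq_mul]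
      rw [hx]
      push_cast
      have : (hA.eigenvalues i : ℂ) ≠ 0 := by exact_mod_cast hcon.ne
      field_simp
      ring
  rw [h2] at h1
  exact absurd h1 (by norm_num)

lemma psd_det_eq {N : Matrix n n ℂ} (hN : N.PosSemidef) :
    N.det = ((∏ i, hN.1.eigenvalues i : ℝ) : ℂ) := by
  rw [hN.1.det_eq_prod_eigenvalues]
  push_cast
  rfl

lemma det_le_one_of_trace {N : Matrix n n ℂ} (hN : N.PosSemidef)
    (ht : N.trace = (Fintype.card n : ℂ)) : N.det ≤ 1 := by
  rw [psd_det_eq hN]
  have h1 : ∑ i, hN.1.eigenvalues i = Fintype.card n := by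
    have h2 := hN.1.trace_eq_sum_eigenvalues
    rw [ht] at h2
    have h3 : ((Fintype.card n : ℝ) : ℂ) = ((∑ i, hN.1.eigenvalues i : ℝ) : ℂ) := by
      push_cast
      exact h2
    exact (Complex.ofReal_injective h3).symm
  have h2 : ∏ i, hN.1.eigenvalues i ≤ 1 := by
    calc ∏ i, hN.1.eigenvalues i ≤ ∏ i, Real.exp (hN.1.eigenvalues i - 1) :=
          Finset.prod_le_prod (fun i _ => hN.eigenvalues_nonneg i) fun i _ => by
            have := Real.add_one_le_exp (hN.1.eigenvalues i - 1)
            linarith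
      _ = Real.exp (∑ i, (hN.1.eigenvalues i - 1)) := (Real.exp_sum _ _).symm
      _ = 1 := by
        rw [Finset.sum_sub_distrib, h1]
        simp
  exact_mod_cast h2

end

section
variable {α β : Type*} [Fintype α] [DecidableEq α] [Fintype β] [DecidableEq β]

/-- **Fischer's inequality.** -/
theorem fischer {M : Matrix (α ⊕ β) (α ⊕ β) ℂ} (hM : M.PosSemidef) :
    M.det ≤ M.toBlocks₁₁.det * M.toBlocks₂₂.det := by
  have hA : M.toBlocks₁₁.PosSemidef := hM.submatrix Sum.inl
  have hD : M.toBlocks₂₂.PosSemidef := hM.submatrix Sum.inr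
  by_cases h0 : M.det = 0
  · rw [h0]
    exact mul_nonneg hA.det_nonneg hD.det_nonneg
  have hMpd : M.PosDef := hM.posDef_iff_det_ne_zero.2 h0
  have hApd : M.toBlocks₁₁.PosDef := hMpd.submatrix Sum.inl_injective
  have hDpd : M.toBlocks₂₂.PosDef := hMpd.submatrix Sum.inr_injective
  obtain ⟨B, hB⟩ := CStarAlgebra.nonneg_iff_eq_star_mul_self.mp hA.nonneg
  obtain ⟨C, hC⟩ := CStarAlgebra.nonneg_iff_eq_star_mul_self.mp hD.nonneg
  rw [star_eq_conjTranspose] at hB hC
  have hBd : B.det ≠ 0 := by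
    intro h
    have h1 := hApd.det_pos
    rw [hB, Matrix.det_mul, h] at h1
    simp at h1
  have hCd : C.det ≠ 0 := by
    intro h
    have h1 := hDpd.det_pos
    rw [hC, Matrix.det_mul, h] at h1
    simp at h1
  have hBu : IsUnit B.det := isUnit_iff_ne_zero.2 hBd
  have hCu : IsUnit C.det := isUnit_iff_ne_zero.2 hCd
  set G : Matrix (α ⊕ β) (α ⊕ β) ℂ := Matrix.fromBlocks B⁻¹ 0 0 C⁻¹ with hG
  set N := Gᴴ * M * G with hN
  have hNpsd : N.PosSemidef := hM.conjTranspose_mul_mul_same G
  have hB1 : (B⁻¹)ᴴ * (Bᴴ * B) * B⁻¹ = 1 := by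
    rw [← Matrix.mul_assoc, ← Matrix.conjTranspose_mul, Matrix.mul_nonsing_inv _ hBu,
      Matrix.conjTranspose_one, Matrix.one_mul, Matrix.mul_nonsing_inv _ hBu]
  have hC1 : (C⁻¹)ᴴ * (Cᴴ * C) * C⁻¹ = 1 := by
    rw [← Matrix.mul_assoc, ← Matrix.conjTranspose_mul, Matrix.mul_nonsing_inv _ hCu,
      Matrix.conjTranspose_one, Matrix.one_mul, Matrix.mul_nonsing_inv _ hCu]
  have hNt : N.trace = (Fintype.card (α ⊕ β) : ℂ) := by
    have h1 : N = Matrix.fromBlocks 1 ((B⁻¹)ᴴ * M.toBlocks₁₂ * C⁻¹)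
        ((C⁻¹)ᴴ * M.toBlocks₂₁ * B⁻¹) 1 := by
      rw [hN, hG, ← Matrix.fromBlocks_toBlocks M, Matrix.fromBlocks_conjTranspose,
        Matrix.fromBlocks_multiply, Matrix.fromBlocks_multiply]
      simp only [Matrix.toBlocks_fromBlocks₁₁, Matrix.toBlocks_fromBlocks₁₂,
        Matrix.toBlocks_fromBlocks₂₁, Matrix.toBlocks_fromBlocks₂₂,
        Matrix.conjTranspose_zero, Matrix.mul_zero, Matrix.zero_mul, add_zero, zero_add]
      rw [hB, hC, hB1, hC1]
    rw [h1, Fintype.card_sum]
    simp [Matrix.trace, Fintype.sum_sum_type]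
  have hNd := det_le_one_of_trace hNpsd hNt
  have hGd : G.det = (B.det)⁻¹ * (C.det)⁻¹ := by
    rw [hG, Matrix.det_fromBlocks_zero₂₁, Matrix.det_nonsing_inv, Matrix.det_nonsing_inv]
    simp [Ring.inverse_eq_inv']
  have hNdet : N.det = star G.det * M.det * G.det := by
    rw [hN, Matrix.det_mul, Matrix.det_mul, Matrix.det_conjTranspose]
  have hAD : M.toBlocks₁₁.det * M.toBlocks₂₂.det = star B.det * B.det * (star C.det * C.det) := by
    rw [hB, hC, Matrix.det_mul, Matrix.det_mul, Matrix.det_conjTranspose, Matrix.det_conjTranspose]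
  have hkey : M.det = N.det * (M.toBlocks₁₁.det * M.toBlocks₂₂.det) := by
    rw [hNdet, hGd, hAD]
    have h1 : star B.det ≠ 0 := star_ne_zero.2 hBd
    have h2 : star C.det ≠ 0 := star_ne_zero.2 hCd
    have h3 : star ((B.det)⁻¹ * (C.det)⁻¹) = (star B.det)⁻¹ * (star C.det)⁻¹ := by
      rw [star_mul, star_inv₀, star_inv₀, mul_comm]
    rw [h3]
    field_simp
  calc M.det = N.det * (M.toBlocks₁₁.det * M.toBlocks₂₂.det) := hkey
    _ ≤ 1 * (M.toBlocks₁₁.det * M.toBlocks₂₂.det) :=
      mul_le_mul_of_nonneg_right hNd (mul_nonneg hA.det_nonneg hD.det_nonneg)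
    _ = _ := one_mul _

end

end Pool.Agent.H34.ND
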