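import Pool.Agent.H34.ND.Defs

/-! # Negatively dependent random sets of integers: empty intervals -/

set_option autoImplicit false

namespace Pool.Agent.H34.ND

open MeasureTheory Filter Topology Finset

variable {Ω : Type*} [MeasurableSpace Ω] {P : Measure Ω} {E : ℕ → Set Ω}

lemma free_meas (h : ∀ n, MeasurableSet (E n)) (a b : ℕ) : MeasurableSet (Free E a b) := by
  have e : Free E a b = ⋂ n ∈ Finset.Ioc a b, (E n)ᶜ := by
    ext ω
    simp [Free]
  rw [e]
  exact Finset.measurableSet_biInter _ fun n _ => (h n).compl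

lemma free_split {a b c : ℕ} (hab : a ≤ b) (hbc : b ≤ c) : Free E a c = Free E a b ∩ Free E b c := by
  ext ω
  constructor
  · intro h
    exact ⟨fun n h1 h2 => h n h1 (h2.trans hbc), fun n h1 h2 => h n (lt_of_le_of_lt hab h1) h2⟩
  · rintro ⟨h1, h2⟩ n h3 h4
    rcases le_or_gt n b with h5 | h5
    · exact h1 n h3 h5
    · exact h2 n h5 h4

lemma free_mono {a b a' b' : ℕ} (h1 : a ≤ a') (h2 : b' ≤ b) : Free E a b ⊆ Free E a' b' :=
  fun _ h n h3 h4 => h n (lt_of_le_of_lt h1 h3) (h4.trans h2)

variable [IsProbabilityMeasure P]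

lemma NegDep.split (h : NegDep P E) {a b c : ℕ} (hab : a ≤ b) (hbc : b ≤ c) :
    P.real (Free E a c) ≤ P.real (Free E a b) * P.real (Free E b c) := by
  rw [free_split hab hbc]
  exact h.neg a b b c hab le_rfl hbc

lemma free_single (h : ∀ n, MeasurableSet (E n)) (b : ℕ) :
    P.real (Free E b (b + 1)) = 1 - P.real (E (b + 1)) := by
  have e : Free E b (b + 1) = (E (b + 1))ᶜ := by
    ext ω
    constructor
    · intro h1
      exact h1 (b + 1) (by omega) le_rfl
    · intro h1 n h2 h3
      have : n = b + 1 := by omega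
      rw [this]
      exact h1
  rw [e, probReal_compl_eq_one_sub (h _)]

lemma NegDep.le_prod (h : NegDep P E) {a b : ℕ} (hab : a ≤ b) :
    P.real (Free E a b) ≤ ∏ n ∈ Finset.Ioc a b, (1 - P.real (E n)) := by
  induction b, hab using Nat.le_induction with
  | base => simp
  | succ b hab ih =>
    have h1 := h.split hab (Nat.le_succ b)
    rw [Nat.succ_eq_add_one, free_single h.meas] at h1
    rw [Finset.prod_Ioc_succ_top hab]
    refine h1.trans (mul_le_mul_of_nonneg_right ih ?_)
    have : P.real (E (b + 1)) ≤ 1 := measureReal_le_one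
    linarith

lemma NegDep.le_exp (h : NegDep P E) {a b : ℕ} (hab : a ≤ b) :
    P.real (Free E a b) ≤ Real.exp (-∑ n ∈ Finset.Ioc a b, P.real (E n)) := by
  refine (h.le_prod hab).trans ?_
  rw [← Finset.sum_neg_distrib, Real.exp_sum]
  refine Finset.prod_le_prod (fun n _ => ?_) fun n _ => ?_
  · have : P.real (E n) ≤ 1 := measureReal_le_one
    linarith
  · have := Real.add_one_le_exp (-P.real (E n))
    linarith

end Pool.Agent.H34.ND
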