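import Pool.Agent.H34.ND.Dens

/-! # The critical exponents of `exp (-(θ * mass))` -/

set_option autoImplicit false

namespace Pool.Agent.H34.ND

open MeasureTheory Filter Topology Finset

/-- the mass of the window -/
noncomputable def wmass (p : ℕ → ℝ) (lam : ℝ) (n : ℕ) : ℝ := ∑ m ∈ Ioc n (win lam n), p m

/-- the critical exponent of `exp (-(θ * mass))` -/
noncomputable def phi (p : ℕ → ℝ) (θ : ℝ) : ℝ :=
  critical fun lam n => Real.exp (-(θ * wmass p lam n))

variable {p : ℕ → ℝ}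

lemma wmass_nonneg (hp : ∀ n, 0 ≤ p n) (lam : ℝ) (n : ℕ) : 0 ≤ wmass p lam n :=
  Finset.sum_nonneg fun m _ => hp m

lemma wmass_mono (hp : ∀ n, 0 ≤ p n) {a b : ℝ} (hab : a ≤ b) (n : ℕ) :
    wmass p a n ≤ wmass p b n :=
  Finset.sum_le_sum_of_subset_of_nonneg (Finset.Ioc_subset_Ioc_right (win_mono hab n))
    fun m _ _ => hp m

lemma wmass_zero (n : ℕ) : wmass p 0 n = 0 := by
  unfold wmass win
  simp

lemma phi_zero (θ : ℝ) (n : ℕ) : Real.exp (-(θ * wmass p 0 n)) = 1 := by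
  rw [wmass_zero]
  simp

lemma phi_bdd (hp : ∀ n, 0 ≤ p n) (hs : Spread p) {θ : ℝ} (hθ : 1 ≤ θ) :
    BddAbove {lam : ℝ | 0 ≤ lam ∧ ¬ Summable fun n => Real.exp (-(θ * wmass p lam n))} := by
  refine bdd_of_spread hp hs (e := fun lam n => Real.exp (-(θ * wmass p lam n)))
    (fun lam n => (Real.exp_pos _).le) (fun lam n => Real.exp_le_exp.2 ?_)
  have h1 := wmass_nonneg hp lam n
  have h2 : wmass p lam n ≤ θ * wmass p lam n := by nlinarith
  unfold wmass at h2
  unfold wmass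
  linarith

lemma critical_mono {e f : ℝ → ℕ → ℝ} (he0 : ∀ lam n, 0 ≤ e lam n) (h0 : ∀ n, e 0 n = 1)
    (hb : BddAbove {lam : ℝ | 0 ≤ lam ∧ ¬ Summable (f lam)})
    (hef : ∀ lam, 0 ≤ lam → Summable (f lam) → Summable (e lam)) : critical e ≤ critical f :=
  csSup_le_csSup hb ⟨0, zero_mem h0⟩ fun lam hlam => ⟨hlam.1, fun h => hlam.2 (hef lam hlam.1 h)⟩

lemma phi_anti (hp : ∀ n, 0 ≤ p n) (hs : Spread p) {θ θ' : ℝ} (hθ : 1 ≤ θ) (h : θ ≤ θ') :
    phi p θ' ≤ phi p θ := by
  apply critical_mono (fun lam n => (Real.exp_pos _).le) (fun n => phi_zero θ' n)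
    (phi_bdd hp hs hθ)
  intro lam _ hsum
  refine summable_of_ev (fun n => (Real.exp_pos _).le) hsum (Eventually.of_forall fun n => ?_)
  apply Real.exp_le_exp.2
  have := wmass_nonneg hp lam n
  nlinarith

/-- the mass of a longer window -/
lemma wmass_add (hp : ∀ n, 0 ≤ p n) {η δ : ℝ} (hη : 0 < η)
    (hev : ∀ᶠ n : ℕ in atTop, ∀ a : ℕ, n ≤ a → a ≤ 2 * n →
      δ * Real.log n ≤ ∑ m ∈ Ioc a (a + ⌊η * Real.log n ^ 2⌋₊), p m) {lam : ℝ} (hlam : 0 ≤ lam) :
    ∀ᶠ n : ℕ in atTop, wmass p lam n + δ * Real.log n ≤ wmass p (lam + η) n := by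
  filter_upwards [hev, ev_floor_le lam] with n hn hfl
  have h1 := hn (win lam n) (le_win _ _) (by unfold win; omega)
  have h2 : win lam n + ⌊η * Real.log n ^ 2⌋₊ ≤ win (lam + η) n := by
    unfold win
    have h3 : ⌊lam * Real.log n ^ 2⌋₊ + ⌊η * Real.log n ^ 2⌋₊ ≤
        ⌊(lam + η) * Real.log n ^ 2⌋₊ := by
      apply Nat.le_floor
      push_cast
      have h4 := Nat.floor_le (show 0 ≤ lam * Real.log n ^ 2 by positivity)
      have h5 := Nat.floor_le (show 0 ≤ η * Real.log n ^ 2 by positivity)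
      nlinarith
    omega
  have h3 : wmass p lam n + ∑ m ∈ Ioc (win lam n) (win lam n + ⌊η * Real.log n ^ 2⌋₊), p m =
      ∑ m ∈ Ioc n (win lam n + ⌊η * Real.log n ^ 2⌋₊), p m :=
    Finset.sum_Ioc_consecutive (fun m => p m) (le_win _ _) (Nat.le_add_right _ _)
  have h4 : ∑ m ∈ Ioc n (win lam n + ⌊η * Real.log n ^ 2⌋₊), p m ≤ wmass p (lam + η) n :=
    Finset.sum_le_sum_of_subset_of_nonneg (Finset.Ioc_subset_Ioc_right h2) fun m _ _ => hp m
  linarith

lemma phi_step (hp : ∀ n, 0 ≤ p n) (hs : Spread p) {η δ : ℝ} (hη : 0 < η) (hδ : 0 < δ)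
    (hev : ∀ᶠ n : ℕ in atTop, ∀ a : ℕ, n ≤ a → a ≤ 2 * n →
      δ * Real.log n ≤ ∑ m ∈ Ioc a (a + ⌊η * Real.log n ^ 2⌋₊), p m)
    {θ θ' : ℝ} (hθ : 1 ≤ θ) (hθθ' : θ ≤ θ') (hclose : (θ' - θ) * 2 ≤ δ) :
    phi p θ - η ≤ phi p θ' := by
  by_contra hcon
  rw [not_le] at hcon
  have hθ' : 1 ≤ θ' := hθ.trans hθθ'
  have h0 : 0 ≤ phi p θ' := critical_nonneg
  obtain ⟨mu, ⟨hmu0, hmuns⟩, hmu⟩ := exists_lt_of_lt_csSup ⟨0, zero_mem fun n => phi_zero θ n⟩
    (show phi p θ' + η < phi p θ by linarith)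
  set lam : ℝ := mu - η with hlam
  have hlam0 : 0 ≤ lam := by linarith
  have hsum : Summable fun n => Real.exp (-(θ' * wmass p lam n)) :=
    summable_of_critical_lt (e := fun lam n => Real.exp (-(θ' * wmass p lam n)))
      (phi_bdd hp hs hθ') (by
        show phi p θ' < lam
        linarith)
  apply hmuns
  have h2 : Summable fun n : ℕ => Real.exp (-((2:ℝ) * Real.log n)) +
      Real.exp (-(θ' * wmass p lam n)) := (summable_exp (by norm_num)).add hsum
  refine summable_of_ev (fun n => (Real.exp_pos _).le) h2 ?_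
  have hmueq : lam + η = mu := by rw [hlam]; ring
  filter_upwards [wmass_add hp hη hev hlam0, tendsto_log_nat.eventually_ge_atTop 0] with n hn hL
  rw [hmueq] at hn
  rcases le_or_gt (2 * Real.log n) (θ * wmass p mu n) with h | h
  · have h3 := Real.exp_pos (-(θ' * wmass p lam n))
    have h4 : Real.exp (-(θ * wmass p mu n)) ≤ Real.exp (-((2:ℝ) * Real.log n)) :=
      Real.exp_le_exp.2 (by linarith)
    linarith
  · have h3 := Real.exp_pos (-((2:ℝ) * Real.log n))
    have h4 : Real.exp (-(θ * wmass p mu n)) ≤ Real.exp (-(θ' * wmass p lam n)) := by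
      apply Real.exp_le_exp.2
      have h5 := wmass_nonneg hp mu n
      have h6 : wmass p mu n ≤ 2 * Real.log n := by nlinarith
      have h7 : (θ' - θ) * wmass p mu n ≤ (θ' - θ) * (2 * Real.log n) :=
        mul_le_mul_of_nonneg_left h6 (by linarith)
      have h8 : (θ' - θ) * (2 * Real.log n) ≤ δ * Real.log n := by nlinarith
      have h9 : θ' * (wmass p lam n + δ * Real.log n) ≤ θ' * wmass p mu n :=
        mul_le_mul_of_nonneg_left hn (by linarith)
      have h10 : δ * Real.log n ≤ θ' * (δ * Real.log n) := by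
        have : 0 ≤ δ * Real.log n := by positivity
        nlinarith
      nlinarith
    linarith

lemma phi_cont (hp : ∀ n, 0 ≤ p n) (hs : Spread p) : ContinuousOn (phi p) (Set.Ici 1) := by
  intro θ₀ hθ₀
  rw [Set.mem_Ici] at hθ₀
  rw [Metric.continuousWithinAt_iff]
  intro ε hε
  obtain ⟨δ, hδ, hev⟩ := hs (ε / 2) (by linarith)
  refine ⟨δ / 2, by linarith, fun θ hθ hd => ?_⟩
  rw [Set.mem_Ici] at hθ
  rw [Real.dist_eq, abs_lt] at hd
  rw [Real.dist_eq, abs_lt]
  rcases le_total θ θ₀ with h | h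
  · have h1 := phi_anti hp hs hθ h
    have h2 := phi_step hp hs (by linarith) hδ hev hθ h (by linarith)
    constructor <;> linarith
  · have h1 := phi_anti hp hs hθ₀ h
    have h2 := phi_step hp hs (by linarith) hδ hev hθ₀ h (by linarith)
    constructor <;> linarith

/-- `phi p θ` is small for large `θ` -/
lemma phi_small (hp : ∀ n, 0 ≤ p n) (hs : Spread p) {ε : ℝ} (hε : 0 < ε) :
    ∃ θ : ℝ, 1 ≤ θ ∧ phi p θ ≤ ε := by
  obtain ⟨δ, hδ, hev⟩ := hs ε hε
  refine ⟨max 1 (2 / δ), le_max_left _ _, ?_⟩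
  set θ := max 1 (2 / δ) with hθ
  have hθδ : 2 ≤ θ * δ := by
    have : 2 / δ ≤ θ := le_max_right _ _
    rwa [div_le_iff₀ hδ] at this
  apply csSup_le ⟨0, zero_mem fun n => phi_zero θ n⟩
  rintro lam ⟨hlam, hns⟩
  by_contra hcon
  rw [not_le] at hcon
  apply hns
  refine summable_of_ev (fun n => (Real.exp_pos _).le) (summable_exp (c := 2) (by norm_num)) ?_
  filter_upwards [hev, tendsto_log_nat.eventually_ge_atTop 0] with n hn hL
  apply Real.exp_le_exp.2
  have h1 := hn n le_rfl (by omega)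
  have h2 : δ * Real.log n ≤ wmass p ε n := h1
  have h3 := wmass_mono hp hcon.le n
  have h4 : 0 < θ := lt_of_lt_of_le one_pos (le_max_left _ _)
  have h5 : θ * (δ * Real.log n) ≤ θ * wmass p lam n :=
    mul_le_mul_of_nonneg_left (h2.trans h3) h4.le
  nlinarith

lemma log_one_sub_ge {x κ : ℝ} (hκ : 1 < κ) (h0 : 0 ≤ x) (hx : x ≤ 1 - 1 / κ) :
    Real.exp (-(κ * x)) ≤ 1 - x := by
  have hκ0 : 0 < κ := by linarith
  have h1 : 0 < 1 / κ := by positivity
  have h2 : 0 < 1 - x := by linarith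
  have h3 := Real.one_sub_inv_le_log_of_pos h2
  have h4 : 1 - (1 - x)⁻¹ = -(x / (1 - x)) := by
    field_simp
    ring
  have h5 : x / (1 - x) ≤ κ * x := by
    rw [div_le_iff₀ h2]
    have h6 : 1 ≤ κ * (1 - x) := by
      have : 1 / κ ≤ 1 - x := by linarith
      rw [div_le_iff₀ hκ0] at this
      linarith
    nlinarith
  calc Real.exp (-(κ * x)) ≤ Real.exp (Real.log (1 - x)) := Real.exp_le_exp.2 (by linarith)
    _ = 1 - x := Real.exp_log h2

/-- the critical exponent of the independent model -/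
lemma indConst_eq (hp : ∀ n, 0 ≤ p n) (hp1 : ∀ n, p n ≤ 1) (hlim : Tendsto p atTop (𝓝 0))
    (hs : Spread p) : indConst p = phi p 1 := by
  have hone : ∀ x : ℝ, 1 - x ≤ Real.exp (-x) := fun x => by
    have := Real.add_one_le_exp (-x)
    linarith
  have hbdd : BddAbove {lam : ℝ | 0 ≤ lam ∧
      ¬ Summable fun n : ℕ => ∏ m ∈ Ioc n (win lam n), (1 - p m)} := by
    refine bdd_of_spread hp hs (e := fun lam n => ∏ m ∈ Ioc n (win lam n), (1 - p m))
      (fun lam n => Finset.prod_nonneg fun m _ => by linarith [hp1 m]) (fun lam n => ?_)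
    rw [← Finset.sum_neg_distrib, Real.exp_sum]
    exact Finset.prod_le_prod (fun n _ => by linarith [hp1 n]) fun n _ => hone _
  refine le_antisymm ?_ ?_
  · apply critical_mono (fun lam n => Finset.prod_nonneg fun m _ => by linarith [hp1 m])
      (fun n => by simp [win]) (phi_bdd hp hs le_rfl)
    intro lam _ hsum
    refine summable_of_ev (fun n => Finset.prod_nonneg fun m _ => by linarith [hp1 m]) hsum
      (Eventually.of_forall fun n => ?_)
    rw [one_mul, wmass, ← Finset.sum_neg_distrib, Real.exp_sum]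
    exact Finset.prod_le_prod (fun n _ => by linarith [hp1 n]) fun n _ => hone _
  · -- `phi p κ ≤ indConst p` for every `κ > 1`
    have key : ∀ κ : ℝ, 1 < κ → phi p κ ≤ indConst p := by
      intro κ hκ
      apply critical_mono (fun lam n => (Real.exp_pos _).le) (fun n => phi_zero κ n) hbdd
      intro lam _ hsum
      refine summable_of_ev (fun n => (Real.exp_pos _).le) hsum ?_
      have hpos : 0 < 1 - 1 / κ := by
        rw [sub_pos, div_lt_one (by linarith)]
        exact hκ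
      obtain ⟨N, hN⟩ := eventually_atTop.1 (hlim.eventually_lt_const hpos)
      filter_upwards [eventually_ge_atTop N] with n hn
      rw [wmass, Finset.mul_sum, ← Finset.sum_neg_distrib, Real.exp_sum]
      refine Finset.prod_le_prod (fun m _ => (Real.exp_pos _).le) fun m hm => ?_
      rw [Finset.mem_Ioc] at hm
      exact log_one_sub_ge hκ (hp m) (hN m (by omega)).le
    have hc := phi_cont hp hs 1 (Set.mem_Ici.2 le_rfl)
    have h1 : Tendsto (phi p) (𝓝[>] 1) (𝓝 (phi p 1)) :=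
      hc.tendsto.mono_left (nhdsWithin_mono _ Set.Ioi_subset_Ici_self)
    refine le_of_tendsto h1 ?_
    filter_upwards [self_mem_nhdsWithin] with κ hκ
    exact key κ hκ

end Pool.Agent.H34.ND
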