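import Pool.Agent.H34.ND.Model
import Pool.Agent.H34.ND.Phi

/-! # Cell models with arbitrary intensities -/

set_option autoImplicit false

namespace Pool.Agent.H34.ND

open MeasureTheory Filter Topology Finset

/-- the conditions on the intensities -/
structure Dens (p : ℕ → ℝ) : Prop where
  p0 : ∀ n, 0 ≤ p n
  p1 : ∀ n, p n ≤ 1
  lim : Tendsto p atTop (𝓝 0)
  spread : Spread p

section
variable {p : ℕ → ℝ}

lemma Dens.small (hp : Dens p) {δ : ℝ} (hδ : 0 < δ) : ∀ᶠ n : ℕ in atTop, p n ≤ δ :=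
  (hp.lim.eventually_lt_const hδ).mono fun _ h => h.le

/-- partial sums -/
noncomputable def cF (p : ℕ → ℝ) (n : ℕ) : ℝ := ∑ i ∈ range n, p i

lemma cF_succ (n : ℕ) : cF p (n + 1) = cF p n + p n := by
  unfold cF
  rw [Finset.sum_range_succ]

lemma cF_mono (hp : Dens p) : Monotone (cF p) := monotone_nat_of_le_succ fun n => by
  rw [cF_succ]
  linarith [hp.p0 n]

lemma cF_nonneg (hp : Dens p) (n : ℕ) : 0 ≤ cF p n := Finset.sum_nonneg fun i _ => hp.p0 i

lemma cF_sum {a b : ℕ} (hab : a ≤ b) : ∑ n ∈ Ioc a b, p n = cF p (b + 1) - cF p (a + 1) := by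
  induction b, hab using Nat.le_induction with
  | base => simp
  | succ b hab ih =>
    rw [Finset.sum_Ioc_succ_top hab, ih, cF_succ (b + 1)]
    ring

lemma cF_tendsto (hp : Dens p) : Tendsto (cF p) atTop atTop := by
  apply tendsto_atTop_atTop_of_monotone (cF_mono hp)
  intro B
  obtain ⟨δ, hδ, hev⟩ := hp.spread 1 one_pos
  obtain ⟨n, h1, h2⟩ := (hev.and (tendsto_log_nat.eventually_ge_atTop (B / δ))).exists
  refine ⟨n + ⌊(1:ℝ) * Real.log n ^ 2⌋₊ + 1, ?_⟩
  have h3 := h1 n le_rfl (by omega)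
  rw [cF_sum (Nat.le_add_right _ _)] at h3
  have h4 := cF_nonneg hp (n + 1)
  rw [div_le_iff₀ hδ] at h2
  linarith

variable {c : ℝ}

/-- the number of the cell in which the interval of `n` starts -/
noncomputable def kk (p : ℕ → ℝ) (c : ℝ) (n : ℕ) : ℕ := ⌊cF p n / c⌋₊

/-- the label of `n` -/
noncomputable def clab (p : ℕ → ℝ) (c : ℝ) (n : ℕ) : ℕ :=
  if cF p (n + 1) ≤ (kk p c n + 1) * c then 2 * kk p c n else 2 * n + 1

/-- the offset of `n` -/
noncomputable def coff (p : ℕ → ℝ) (c : ℝ) (n : ℕ) : ℝ :=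
  if cF p (n + 1) ≤ (kk p c n + 1) * c then cF p n - kk p c n * c else 0

lemma kk_le (hp : Dens p) (hc : 0 < c) (n : ℕ) : kk p c n * c ≤ cF p n := by
  have h1 := Nat.floor_le (show 0 ≤ cF p n / c from div_nonneg (cF_nonneg hp n) hc.le)
  rwa [le_div_iff₀ hc] at h1

lemma coff_add (n : ℕ) (h : cF p (n + 1) ≤ (kk p c n + 1) * c) : coff p c n + p n ≤ c := by
  rw [coff, if_pos h]
  rw [cF_succ] at h
  linarith

lemma coff_sep (hp : Dens p) {m n : ℕ} (hmn : m < n) (hl : clab p c m = clab p c n) :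
    coff p c m + p m ≤ coff p c n := by
  unfold clab at hl
  unfold coff
  split_ifs at hl with h1 h2 h2
  · rw [if_pos h1, if_pos h2]
    have h3 : kk p c m = kk p c n := by omega
    rw [h3]
    have h4 : cF p (m + 1) ≤ cF p n := cF_mono hp hmn
    rw [cF_succ] at h4
    linarith
  · omega
  · omega
  · omega

lemma cells_coff (hp : Dens p) (hc : 0 < c) (hc1 : c ≤ 1) : Cells p (coff p c) (clab p c) where
  p0 := hp.p0
  s0 := by
    intro n
    unfold coff
    split_ifs
    · linarith [kk_le hp hc n]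
    · exact le_rfl
  s1 := by
    intro n
    by_cases h : cF p (n + 1) ≤ (kk p c n + 1) * c
    · exact (coff_add n h).trans hc1
    · rw [coff, if_neg h, zero_add]
      exact hp.p1 n
  disj := by
    have key : ∀ m n, m < n → clab p c m = clab p c n →
        Disjoint (ivl p (coff p c) m) (ivl p (coff p c) n) := by
      intro m n hmn hl
      rw [Set.disjoint_left]
      intro x hx hy
      have h1 := coff_sep hp hmn hl
      have h2 : x < coff p c m + p m := hx.2
      have h3 : coff p c n ≤ x := hy.1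
      linarith
    intro m n hmn hl
    rcases lt_or_gt_of_ne hmn with h | h
    · exact key m n h hl
    · exact (key n m h hl.symm).symm

/-- the beginning of cell `k` -/
lemma exists_start (hp : Dens p) (c : ℝ) (k : ℕ) : ∃ a : ℕ, k * c ≤ cF p (a + 1) :=
  ((tendsto_add_atTop_iff_nat 1).2 (cF_tendsto hp)).eventually_ge_atTop (k * c) |>.exists

/-- the beginning of cell `k` -/
noncomputable def start (hp : Dens p) (c : ℝ) (k : ℕ) : ℕ := by
  classical exact Nat.find (exists_start hp c k)

lemma start_spec (hp : Dens p) (c : ℝ) (k : ℕ) : k * c ≤ cF p (start hp c k + 1) := by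
  classical exact Nat.find_spec (exists_start hp c k)

lemma start_min (hp : Dens p) {k a : ℕ} (h : a < start hp c k) : cF p (a + 1) < k * c := by
  classical
  have := Nat.find_min (exists_start hp c k) (m := a) (by unfold start at h; convert h)
  rwa [not_le] at this

lemma start_le (hp : Dens p) {k a : ℕ} (h : k * c ≤ cF p (a + 1)) : start hp c k ≤ a := by
  by_contra hcon
  rw [not_le] at hcon
  linarith [start_min hp hcon]

lemma lt_start (hp : Dens p) {k a : ℕ} (h : cF p (a + 1) < k * c) : a < start hp c k := by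
  by_contra hcon
  rw [not_lt] at hcon
  have h1 : cF p (start hp c k + 1) ≤ cF p (a + 1) := cF_mono hp (by omega)
  linarith [start_spec hp c k]

/-- the probability that a whole cell is empty -/
lemma cell_empty (hp : Dens p) (hc : 0 < c) (hc1 : c ≤ 1) {δ : ℝ} (hδc : δ < c) {N k : ℕ}
    (hN : 1 ≤ N) (hδ : ∀ n, N ≤ n → p n ≤ δ) (hk : N ≤ start hp c k) :
    start hp c k < start hp c (k + 1) ∧
    cellP.real (Free (cellE p (coff p c) (clab p c)) (start hp c k) (start hp c (k + 1))) ≤
      1 - c + 2 * δ := by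
  set a := start hp c k with ha
  set b := start hp c (k + 1) with hb
  have h1 : cF p a < k * c := by
    have := start_min hp (c := c) (k := k) (a := a - 1) (by omega)
    rwa [Nat.sub_add_cancel (by omega)] at this
  have h2 : k * c ≤ cF p (a + 1) := start_spec hp c k
  have h3 : ((k:ℝ) + 1) * c ≤ cF p (b + 1) := by
    have := start_spec hp c (k + 1)
    push_cast at this
    exact this
  have hpa : p a ≤ δ := hδ a hk
  have hab : a < b := by
    apply lt_start hp
    rw [cF_succ]
    push_cast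
    linarith
  refine ⟨hab, ?_⟩
  have hpb : p b ≤ δ := hδ b (by omega)
  have hcell := cells_coff hp hc hc1
  have hlab : ∀ n ∈ Ioc a (b - 1), clab p c n = 2 * k := by
    intro n hn
    rw [Finset.mem_Ioc] at hn
    have h4 : cF p (n + 1) < ((k + 1 : ℕ) : ℝ) * c := start_min hp (by omega)
    have h5 : cF p (a + 1) ≤ cF p n := cF_mono hp (by omega)
    have h6 : cF p n ≤ cF p (n + 1) := cF_mono hp (by omega)
    push_cast at h4
    have h7 : kk p c n = k := by
      unfold kk
      rw [Nat.floor_eq_iff (div_nonneg (cF_nonneg hp n) hc.le)]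
      constructor
      · rw [le_div_iff₀ hc]
        linarith
      · rw [div_lt_iff₀ hc]
        linarith
    unfold clab
    rw [h7, if_pos h4.le]
  have h4 := hcell.free_upper hlab
  rw [cF_sum (by omega), Nat.sub_add_cancel (by omega)] at h4
  have h5 : cellP.real (Free (cellE p (coff p c) (clab p c)) a b) ≤
      cellP.real (Free (cellE p (coff p c) (clab p c)) a (b - 1)) :=
    measureReal_mono (free_mono le_rfl (by omega))
  rw [cF_succ] at h3
  rw [cF_succ] at h4
  linarith

lemma cell_iter (hp : Dens p) (hc : 0 < c) (hc1 : c ≤ 1) {δ : ℝ} (hδc : δ < c) {N k : ℕ}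
    (hN : 1 ≤ N) (hδ : ∀ n, N ≤ n → p n ≤ δ) (hk : N ≤ start hp c k) (hδ0 : 0 ≤ 1 - c + 2 * δ)
    (j : ℕ) :
    start hp c k ≤ start hp c (k + j) ∧
    cellP.real (Free (cellE p (coff p c) (clab p c)) (start hp c k) (start hp c (k + j))) ≤
      (1 - c + 2 * δ) ^ j := by
  induction j with
  | zero =>
    refine ⟨le_rfl, ?_⟩
    simp only [add_zero, pow_zero]
    exact measureReal_le_one
  | succ j ih =>
    have h1 := cell_empty hp hc hc1 hδc hN hδ (k := k + j) (hk.trans ih.1)
    refine ⟨ih.1.trans h1.1.le, ?_⟩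
    have h2 := (cells_coff hp hc hc1).determinantal.negDep.split ih.1 h1.1.le
    rw [pow_succ, ← add_assoc]
    refine h2.trans ?_
    exact mul_le_mul ih.2 h1.2 measureReal_nonneg (pow_nonneg hδ0 _)

/-- upper bound for the probability of an empty window -/
lemma window_upper (hp : Dens p) (hc : 0 < c) (hc1 : c ≤ 1) {δ : ℝ} (hδ0 : 0 < δ)
    (hδc : 2 * δ ≤ c) :
    ∀ᶠ n : ℕ in atTop, ∀ b : ℕ, n ≤ b →
      cellP.real (Free (cellE p (coff p c) (clab p c)) n b) ≤
        Real.exp (Real.log (1 - c + 2 * δ) * ((∑ m ∈ Ioc n b, p m) / c - 2)) := by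
  obtain ⟨N, hN⟩ := eventually_atTop.1 (hp.small hδ0)
  filter_upwards [eventually_ge_atTop (max N 1)] with n hn b hnb
  have hρ0 : 0 < 1 - c + 2 * δ := by linarith
  have hρ1 : 1 - c + 2 * δ ≤ 1 := by linarith
  set ρ := 1 - c + 2 * δ with hρ
  have hlog : Real.log ρ ≤ 0 := Real.log_nonpos hρ0.le hρ1
  set k₀ := ⌊cF p (n + 1) / c⌋₊ + 1 with hk₀
  set k₁ := ⌊cF p (b + 1) / c⌋₊ with hk₁
  have h1 : cF p (n + 1) < k₀ * c := by
    have := Nat.lt_floor_add_one (cF p (n + 1) / c)
    rw [div_lt_iff₀ hc] at this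
    rw [hk₀]
    push_cast
    exact this
  have h2 : k₁ * c ≤ cF p (b + 1) := by
    have := Nat.floor_le (show 0 ≤ cF p (b + 1) / c from div_nonneg (cF_nonneg hp _) hc.le)
    rwa [le_div_iff₀ hc] at this
  have h3 : (∑ m ∈ Ioc n b, p m) / c - 2 < (k₁ : ℝ) - k₀ := by
    rw [cF_sum hnb, sub_div]
    have h4 := Nat.lt_floor_add_one (cF p (b + 1) / c)
    have h5 := Nat.floor_le (show 0 ≤ cF p (n + 1) / c from div_nonneg (cF_nonneg hp _) hc.le)
    rw [hk₀, hk₁]
    push_cast
    linarith
  rcases le_or_gt k₀ k₁ with h | h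
  · obtain ⟨j, hj⟩ := Nat.exists_eq_add_of_le h
    have h4 := cell_iter hp hc hc1 (N := N + 1) (k := k₀) (show δ < c by linarith) (by omega)
      (fun m hm => hN m (by omega)) (by
        have := lt_start hp h1
        have := le_max_left N 1
        omega) hρ0.le j
    have h5 : cellP.real (Free (cellE p (coff p c) (clab p c)) n b) ≤
        cellP.real (Free (cellE p (coff p c) (clab p c)) (start hp c k₀)
          (start hp c (k₀ + j))) := by
      refine measureReal_mono (free_mono (lt_start hp h1).le ?_)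
      rw [← hj]
      exact start_le hp h2
    refine h5.trans (h4.2.trans ?_)
    rw [← Real.exp_log (pow_pos hρ0 j), Real.log_pow]
    apply Real.exp_le_exp.2
    rw [mul_comm]
    apply mul_le_mul_of_nonpos_left _ hlog
    have h6 : (k₁ : ℝ) = k₀ + j := by
      rw [hj]
      push_cast
      ring
    rw [h6] at h3
    linarith
  · refine measureReal_le_one.trans ?_
    apply Real.one_le_exp
    apply mul_nonneg_of_nonpos_of_nonpos hlog
    have h4 : (k₁ : ℝ) < k₀ := by exact_mod_cast h
    linarith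

/-- the window exponents of the cell models: upper bound -/
lemma emp_upper (hp : Dens p) (hc : 0 < c) (hc1 : c ≤ 1) {θ : ℝ}
    (hθ1 : 1 - c < Real.exp (-(θ * c))) (hθ0 : 0 < θ) :
    ∃ C : ℝ, ∀ᶠ n : ℕ in atTop, ∀ lam : ℝ, emp cellP (cellE p (coff p c) (clab p c)) lam n ≤
      C * Real.exp (-(θ * wmass p lam n)) := by
  set u := Real.exp (-(θ * c)) with hu
  have hu1 : u < 1 := by
    rw [hu, Real.exp_lt_one_iff]
    have : 0 < θ * c := by positivity
    linarith
  set δ : ℝ := min ((u - (1 - c)) / 4) (c / 2) with hδ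
  have hδ0 : 0 < δ := lt_min (by linarith) (by linarith)
  have hδ1 : δ ≤ (u - (1 - c)) / 4 := min_le_left _ _
  have hδ2 : δ ≤ c / 2 := min_le_right _ _
  set ρ := 1 - c + 2 * δ with hρ
  have hρ0 : 0 < ρ := by linarith
  have hρu : ρ < u := by linarith
  have hlog : Real.log ρ < -(θ * c) := by
    rw [Real.log_lt_iff_lt_exp hρ0]
    exact hρu
  refine ⟨Real.exp (-2 * Real.log ρ), ?_⟩
  filter_upwards [window_upper hp hc hc1 hδ0 (by linarith)] with n hn lam
  refine (hn (win lam n) (le_win _ _)).trans ?_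
  rw [← Real.exp_add]
  apply Real.exp_le_exp.2
  have h1 : 0 ≤ wmass p lam n := wmass_nonneg hp.p0 lam n
  have h2 : Real.log ρ * ((∑ m ∈ Ioc n (win lam n), p m) / c - 2) =
      -2 * Real.log ρ + Real.log ρ * (wmass p lam n / c) := by
    unfold wmass
    ring
  rw [h2]
  have h3 : Real.log ρ * (wmass p lam n / c) ≤ -(θ * c) * (wmass p lam n / c) :=
    mul_le_mul_of_nonneg_right hlog.le (by positivity)
  have h4 : -(θ * c) * (wmass p lam n / c) = -(θ * wmass p lam n) := by
    field_simp
  linarith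

lemma critical_cell_le (hp : Dens p) (hc : 0 < c) (hc1 : c ≤ 1) {θ : ℝ}
    (hθ1 : 1 - c < Real.exp (-(θ * c))) (hθ : 1 ≤ θ) :
    critical (emp cellP (cellE p (coff p c) (clab p c))) ≤ phi p θ := by
  obtain ⟨C, hC⟩ := emp_upper hp hc hc1 hθ1 (by linarith)
  apply critical_mono (fun lam n => emp_nonneg lam n) (fun n => emp_zero n)
    (phi_bdd hp.p0 hp.spread hθ)
  intro lam _ hsum
  refine summable_of_ev (fun n => emp_nonneg lam n) (hsum.mul_left C) ?_
  filter_upwards [hC] with n hn
  exact hn lam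

end

section
variable {p s : ℕ → ℝ} {lab : ℕ → ℕ}

lemma Cells.real_eq (h : Cells p s lab) (n : ℕ) : cellP.real (cellE p s lab n) = p n := by
  have h2 := h.determinantal.diag n
  rw [cellK, if_pos rfl, Real.mul_self_sqrt (h.p0 n)] at h2
  exact_mod_cast h2

lemma Cells.bdd (h : Cells p s lab) (hp : Dens p) :
    BddAbove {lam : ℝ | 0 ≤ lam ∧ ¬ Summable (emp cellP (cellE p s lab) lam)} := by
  apply bdd_of_spread hp.p0 hp.spread (fun lam n => emp_nonneg lam n)
  intro lam n
  have h2 := h.determinantal.negDep.emp_le_exp lam n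
  simp_rw [h.real_eq] at h2
  exact h2

lemma Cells.phi_le (h : Cells p s lab) (hp : Dens p) {c : ℝ} (hc0 : 0 < c) (hc1 : c < 1)
    (hs : ∀ᶠ n : ℕ in atTop, s n + p n ≤ c) :
    phi p (-Real.log (1 - c) / c) ≤ critical (emp cellP (cellE p s lab)) := by
  apply critical_mono (fun lam n => (Real.exp_pos _).le) (fun n => phi_zero _ n) (h.bdd hp)
  intro lam _ hsum
  refine summable_of_ev (fun n => (Real.exp_pos _).le) hsum ?_
  obtain ⟨N, hN⟩ := eventually_atTop.1 hs
  filter_upwards [eventually_ge_atTop N] with n hn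
  have h1 := h.free_lower hc0 hc1 (a := n) (b := win lam n) fun m hm => hN m (by
    rw [Finset.mem_Ioc] at hm
    omega)
  refine le_trans (le_of_eq ?_) h1
  unfold wmass
  congr 1
  ring

end

lemma coff_ev {p : ℕ → ℝ} (hp : Dens p) {c : ℝ} (hc : 0 < c) :
    ∀ᶠ n : ℕ in atTop, coff p c n + p n ≤ c := by
  filter_upwards [hp.small hc] with n hn
  by_cases h : cF p (n + 1) ≤ (kk p c n + 1) * c
  · exact coff_add n h
  · rw [coff, if_neg h, zero_add]
    exact hn

lemma cells_id {p : ℕ → ℝ} (hp : Dens p) : Cells p (fun _ => 0) id where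
  p0 := hp.p0
  s0 := fun _ => le_rfl
  s1 := fun n => by
    rw [zero_add]
    exact hp.p1 n
  disj := fun m n hmn hl => absurd hl hmn

/-- the parameter of the cells: `-log (1 - c) = θ c` -/
lemma exists_param {θ : ℝ} (h1 : 1 < θ) :
    ∃ c : ℝ, 0 < c ∧ c < 1 ∧ -Real.log (1 - c) / c = θ := by
  have h0 : 0 < θ := by linarith
  set c₁ : ℝ := (1 - 1 / θ) / 2 with hc₁
  set c₂ : ℝ := 1 - Real.exp (-(2 * θ)) with hc₂
  have hθi : 1 / θ < 1 := by rw [div_lt_one h0]; exact h1
  have hθ0 : 0 < 1 / θ := by positivity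
  have hexp : Real.exp (-(2 * θ)) ≤ 1 / 3 := by
    have h3 : Real.exp (-(2 * θ)) ≤ Real.exp (-2) := Real.exp_le_exp.2 (by linarith)
    have h4 : Real.exp (-2) ≤ 1 / 3 := by
      rw [Real.exp_neg, inv_eq_one_div]
      apply one_div_le_one_div_of_le (by norm_num)
      have := Real.add_one_le_exp (2:ℝ)
      linarith
    linarith
  have h12 : c₁ ≤ c₂ := by linarith
  have hpos := Real.exp_pos (-(2 * θ))
  have hcont : ContinuousOn (fun c : ℝ => -Real.log (1 - c) - θ * c) (Set.Icc c₁ c₂) := by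
    apply ContinuousOn.sub _ (continuousOn_const.mul continuousOn_id)
    apply ContinuousOn.neg
    apply ContinuousOn.log (continuousOn_const.sub continuousOn_id)
    intro x hx
    have : x ≤ c₂ := hx.2
    have : 0 < 1 - x := by linarith
    exact this.ne'
  have hA : -Real.log (1 - c₁) - θ * c₁ ≤ 0 := by
    have h2 : 0 < 1 - c₁ := by rw [hc₁]; linarith
    have h3 := Real.one_sub_inv_le_log_of_pos h2
    have h4 : -Real.log (1 - c₁) ≤ c₁ / (1 - c₁) := by
      have : (1 - c₁)⁻¹ - 1 = c₁ / (1 - c₁) := by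
        field_simp
        ring
      linarith
    have h5 : c₁ / (1 - c₁) ≤ θ * c₁ := by
      rw [div_le_iff₀ h2]
      have h6 : 1 / θ ≤ 1 - c₁ := by rw [hc₁]; linarith
      have h7 : 1 ≤ θ * (1 - c₁) := by
        rw [div_le_iff₀ h0] at h6
        linarith
      have hc10 : 0 ≤ c₁ := by rw [hc₁]; linarith
      nlinarith
    linarith
  have hB : 0 ≤ -Real.log (1 - c₂) - θ * c₂ := by
    have h2 : 1 - c₂ = Real.exp (-(2 * θ)) := by rw [hc₂]; ring
    rw [h2, Real.log_exp, neg_neg]
    have : θ * c₂ ≤ θ * 1 := mul_le_mul_of_nonneg_left (by linarith) h0.le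
    linarith
  obtain ⟨c, hc, hc'⟩ := intermediate_value_Icc h12 hcont ⟨hA, hB⟩
  have hcpos : 0 < c := by
    have : c₁ ≤ c := hc.1
    have : 0 < c₁ := by rw [hc₁]; linarith
    linarith
  refine ⟨c, hcpos, ?_, ?_⟩
  · have : c ≤ c₂ := hc.2
    linarith
  · simp only at hc'
    rw [div_eq_iff hcpos.ne']
    linarith

/-- the critical exponent of the cell model with cells of mass `c` -/
lemma critical_cell {p : ℕ → ℝ} (hp : Dens p) {c : ℝ} (hc0 : 0 < c)
    (hc1 : c < 1) {θ : ℝ} (hθ : 1 < θ) (hcθ : -Real.log (1 - c) / c = θ) :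
    critical (emp cellP (cellE p (coff p c) (clab p c))) = phi p θ := by
  refine le_antisymm ?_ ?_
  · -- upper bound, by continuity
    have hc := phi_cont hp.p0 hp.spread θ (Set.mem_Ici.2 hθ.le)
    have hat : ContinuousAt (phi p) θ := hc.continuousAt (Ici_mem_nhds hθ)
    have h1 : Tendsto (phi p) (𝓝[<] θ) (𝓝 (phi p θ)) := hat.tendsto.mono_left nhdsWithin_le_nhds
    refine ge_of_tendsto h1 ?_
    have hmem : ∀ᶠ x in 𝓝[<] θ, 1 < x := nhdsWithin_le_nhds (lt_mem_nhds hθ)
    filter_upwards [self_mem_nhdsWithin, hmem] with x hx hx1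
    have hx' : x < θ := hx
    apply critical_cell_le hp hc0 hc1.le _ hx1.le
    have h2 : x * c < -Real.log (1 - c) := by
      rw [div_eq_iff hc0.ne'] at hcθ
      rw [hcθ]
      exact mul_lt_mul_of_pos_right hx' hc0
    calc 1 - c = Real.exp (Real.log (1 - c)) := (Real.exp_log (by linarith)).symm
      _ < Real.exp (-(x * c)) := Real.exp_lt_exp.2 (by linarith)
  · rw [← hcθ]
    exact (cells_coff hp hc0 hc1.le).phi_le hp hc0 hc1 (coff_ev hp hc0)

/-- **All values up to the constant of the independent model.** -/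
theorem exists_cells {p : ℕ → ℝ} (hp : Dens p) {l : ℝ} (h0 : 0 ≤ l) (h1 : l ≤ indConst p) :
    ∃ (s : ℕ → ℝ) (lab : ℕ → ℕ), Cells p s lab ∧
      critical (emp cellP (cellE p s lab)) = l := by
  have hind := indConst_eq hp.p0 hp.p1 hp.lim hp.spread
  rcases h1.eq_or_lt with rfl | h1
  · -- the independent model
    refine ⟨fun _ => 0, id, cells_id hp, ?_⟩
    unfold indConst
    congr 1
    funext lam n
    unfold emp
    rw [(cells_id hp).free]
    rw [Finset.image_id]
    simp only [id_eq]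
    refine Finset.prod_congr rfl fun m hm => ?_
    have h2 : (Ioc n (win lam n)).filter (fun k => k = m) = {m} := by
      ext k
      rw [Finset.mem_filter, Finset.mem_singleton]
      exact ⟨fun h => h.2, fun h => by rw [h]; exact ⟨hm, rfl⟩⟩
    rw [h2, Finset.sum_singleton]
  · rcases h0.eq_or_lt with rfl | h0
    · -- cells of mass one
      refine ⟨coff p 1, clab p 1, cells_coff hp one_pos le_rfl, le_antisymm ?_ critical_nonneg⟩
      apply le_of_forall_pos_le_add
      intro ε hε
      obtain ⟨θ, hθ, hθε⟩ := phi_small hp.p0 hp.spread hε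
      have h2 := critical_cell_le hp one_pos le_rfl (θ := θ) (by
        rw [sub_self]
        exact Real.exp_pos _) hθ
      linarith
    · rw [hind] at h1
      obtain ⟨B, hB1, hB⟩ := phi_small hp.p0 hp.spread h0
      obtain ⟨θ, hθ, hθl⟩ := intermediate_value_Icc' hB1
        ((phi_cont hp.p0 hp.spread).mono Set.Icc_subset_Ici_self) ⟨hB, h1.le⟩
      have hθ1 : 1 < θ := by
        rcases hθ.1.eq_or_lt with h | h
        · rw [← h] at hθl
          linarith
        · exact h
      obtain ⟨c, hc0, hc1, hcθ⟩ := exists_param hθ1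
      refine ⟨coff p c, clab p c, cells_coff hp hc0 hc1.le, ?_⟩
      rw [critical_cell hp hc0 hc1 hθ1 hcθ]
      exact hθl

end Pool.Agent.H34.ND
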