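import Mathlib

/-! # Negatively dependent and determinantal random sets of natural numbers: definitions -/

set_option autoImplicit false

namespace Pool.Agent.H34.ND

open MeasureTheory Filter Topology Finset

/-- the event that the random set `{n | ω ∈ E n}` has no element in `(a, b]` -/
def Free {Ω : Type*} (E : ℕ → Set Ω) (a b : ℕ) : Set Ω := {ω | ∀ n, a < n → n ≤ b → ω ∉ E n}

/-- The random set `{n | ω ∈ E n}` is negatively dependent: for two disjoint intervals `(a, b]` and
`(c, d]` the probability that both contain no element is at most the product of the probabilities.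
(This holds for all negatively associated families of events.) -/
structure NegDep {Ω : Type*} [MeasurableSpace Ω] (P : Measure Ω) (E : ℕ → Set Ω) : Prop where
  meas : ∀ n, MeasurableSet (E n)
  neg : ∀ a b c d : ℕ, a ≤ b → b ≤ c → c ≤ d →
    P.real (Free E a b ∩ Free E c d) ≤ P.real (Free E a b) * P.real (Free E c d)

/-- The random set `{n | ω ∈ E n}` is determinantal with the Hermitian correlation kernel `K`: for
every finite set `S` the probability that all elements of `S` belong to the random set is
`det (K i j)_{i, j ∈ S}`. -/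
structure Determinantal {Ω : Type*} [MeasurableSpace Ω] (P : Measure Ω) (E : ℕ → Set Ω)
    (K : ℕ → ℕ → ℂ) : Prop where
  meas : ∀ n, MeasurableSet (E n)
  herm : ∀ i j, K j i = star (K i j)
  corr : ∀ S : Finset ℕ, ((P.real (⋂ n ∈ S, E n) : ℝ) : ℂ) =
    (Matrix.of fun i j : S => K i j).det

/-- Cramér's constant of a set `A`: the upper limit of `(a' - a) / (log a) ^ 2` over the consecutive
elements `a < a'` of `A` -/
noncomputable def cramerConst (A : Set ℕ) : EReal :=
  limsup (fun k : ℕ => ((((Nat.nth (· ∈ A) (k + 1) : ℝ) - Nat.nth (· ∈ A) k) /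
    Real.log (Nat.nth (· ∈ A) k) ^ 2 : ℝ) : EReal)) atTop

/-- the end `n + ⌊lam * (log n) ^ 2⌋` of the window `(n, n + lam * (log n) ^ 2]` -/
noncomputable def win (lam : ℝ) (n : ℕ) : ℕ := n + ⌊lam * Real.log n ^ 2⌋₊

/-- the probability that the window `(n, n + lam * (log n) ^ 2]` contains no element -/
noncomputable def emp {Ω : Type*} [MeasurableSpace Ω] (P : Measure Ω) (E : ℕ → Set Ω) (lam : ℝ)
    (n : ℕ) : ℝ := P.real (Free E n (win lam n))

/-- the critical exponent: the supremum of the `lam ≥ 0` for which `∑ₙ e lam n` diverges -/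
noncomputable def critical (e : ℝ → ℕ → ℝ) : ℝ := sSup {lam : ℝ | 0 ≤ lam ∧ ¬ Summable (e lam)}

/-- the critical exponent for independent events with the probabilities `p`: the window
`(n, n + lam * (log n) ^ 2]` is empty with probability `∏ (1 - p m)` -/
noncomputable def indConst (p : ℕ → ℝ) : ℝ :=
  critical fun lam n => ∏ m ∈ Ioc n (win lam n), (1 - p m)

/-- The probabilities `p` are spread out: for every `η > 0` there is `δ > 0` such that for all large
`n` every interval `(a, a + η * (log n) ^ 2]` which starts in `[n, 2 * n]` has mass at least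
`δ * log n`. -/
def Spread (p : ℕ → ℝ) : Prop := ∀ η : ℝ, 0 < η → ∃ δ : ℝ, 0 < δ ∧ ∀ᶠ n : ℕ in atTop, ∀ a : ℕ,
  n ≤ a → a ≤ 2 * n → δ * Real.log n ≤ ∑ m ∈ Ioc a (a + ⌊η * Real.log n ^ 2⌋₊), p m

/-- the least element of `A` which follows a run of at least `g` consecutive integers outside `A`
between two consecutive elements of `A` -/
noncomputable def firstAfter (A : Set ℕ) (g : ℕ) : ℕ :=
  sInf {a | ∃ k : ℕ, a = Nat.nth (· ∈ A) (k + 1) ∧
    Nat.nth (· ∈ A) k + g < Nat.nth (· ∈ A) (k + 1)}

/-- the squared Hilbert–Schmidt norm of the kernel on the window `(n, n + (log n) ^ 2]` -/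
noncomputable def hs (K : ℕ → ℕ → ℂ) (n : ℕ) : ℝ :=
  ∑ i ∈ Ioc n (win 1 n), ∑ j ∈ Ioc n (win 1 n), ‖K i j‖ ^ 2

end Pool.Agent.H34.ND
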