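import Pool.Agent.H34.ND.Main

/-! # Probabilities asymptotic to `1 / log n` -/

set_option autoImplicit false

namespace Pool.Agent.H34.ND

open MeasureTheory Filter Topology Finset

lemma ev_log_mul (c : ℝ) {κ : ℝ} (hκ : 1 < κ) :
    ∀ᶠ n : ℕ in atTop, Real.log n + c ≤ κ * Real.log n := by
  filter_upwards [tendsto_log_nat.eventually_ge_atTop (c / (κ - 1))] with n hn
  rw [div_le_iff₀ (by linarith)] at hn
  linarith

/-- lower bound for the mass of windows -/
lemma mass_lower {p : ℕ → ℝ} (hp : Tendsto (fun n : ℕ => p n * Real.log n) atTop (𝓝 1))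
    {κ η : ℝ} (hκ : κ < 1) (hη : 0 < η) : ∀ᶠ n : ℕ in atTop, ∀ a : ℕ, n ≤ a → a ≤ 2 * n →
      κ * η * Real.log n ≤ ∑ m ∈ Ioc a (a + ⌊η * Real.log n ^ 2⌋₊), p m := by
  set κ₀ : ℝ := max κ (1 / 2) with hκ₀
  have h01 : κ₀ < 1 := max_lt hκ (by norm_num)
  have h02 : 1 / 2 ≤ κ₀ := le_max_right _ _
  set κ₁ : ℝ := (κ₀ + 1) / 2 with hκ₁
  have h11 : κ₁ < 1 := by linarith
  have h12 : κ₀ < κ₁ := by linarith
  set ρ : ℝ := κ₁ / κ₀ with hρ
  have hρ1 : 1 < ρ := by rw [hρ, lt_div_iff₀ (by linarith)]; linarith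
  set σ : ℝ := Real.sqrt ρ with hσ
  have hσ1 : 1 < σ := by
    rw [hσ, Real.lt_sqrt (by norm_num)]
    linarith
  have hσσ : σ * σ = ρ := Real.mul_self_sqrt (by linarith)
  obtain ⟨n₁, hn₁⟩ := eventually_atTop.1 ((hp.eventually_const_lt h11).and (eventually_ge_atTop 2))
  have hpow : Tendsto (fun n : ℕ => η * Real.log n ^ 2) atTop atTop :=
    ((tendsto_pow_atTop (two_ne_zero)).comp tendsto_log_nat).const_mul_atTop hη
  filter_upwards [eventually_ge_atTop n₁, ev_floor_le η, ev_log_mul (Real.log 3) hσ1,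
    hpow.eventually_ge_atTop (1 / (1 - 1 / σ)), eventually_ge_atTop 2] with n hn hfl hlog hbig hn2
  intro a ha1 ha2
  have hL : 0 < Real.log n := Real.log_pos (by exact_mod_cast hn2)
  have hcount : η * Real.log n ^ 2 / σ ≤ (⌊η * Real.log n ^ 2⌋₊ : ℝ) := by
    have h1 := Nat.lt_floor_add_one (η * Real.log n ^ 2)
    have h2 : 0 < 1 - 1 / σ := by
      rw [sub_pos, div_lt_one (by linarith)]
      exact hσ1
    rw [div_le_iff₀ h2] at hbig
    have h3 : η * Real.log n ^ 2 / σ = η * Real.log n ^ 2 * (1 / σ) := by ring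
    rw [h3]
    nlinarith
  have hterm : ∀ m ∈ Ioc a (a + ⌊η * Real.log n ^ 2⌋₊), κ₁ / (σ * Real.log n) ≤ p m := by
    intro m hm
    rw [Finset.mem_Ioc] at hm
    have h1 := (hn₁ m (by omega)).1
    have hm0 : (1:ℝ) < m := by
      have : 1 < m := by omega
      exact_mod_cast this
    have h2 : 0 < Real.log m := Real.log_pos hm0
    have h3 : Real.log m ≤ σ * Real.log n := by
      refine le_trans ?_ hlog
      rw [← Real.log_mul (by positivity) (by norm_num)]
      apply Real.log_le_log (by linarith)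
      have : m ≤ n * 3 := by omega
      exact_mod_cast this
    have h4 : κ₁ / Real.log m ≤ p m := by
      rw [div_le_iff₀ h2]
      exact h1.le
    refine le_trans ?_ h4
    exact div_le_div_of_nonneg_left (by linarith) h2 h3
  have hsum := Finset.card_nsmul_le_sum _ _ _ hterm
  rw [Nat.card_Ioc, nsmul_eq_mul] at hsum
  have hcard : a + ⌊η * Real.log n ^ 2⌋₊ - a = ⌊η * Real.log n ^ 2⌋₊ := by omega
  rw [hcard] at hsum
  refine le_trans ?_ hsum
  calc κ * η * Real.log n ≤ κ₀ * η * Real.log n := by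
        have : κ ≤ κ₀ := le_max_left _ _
        gcongr
    _ = η * Real.log n ^ 2 / σ * (κ₁ / (σ * Real.log n)) := by
        have : κ₁ = κ₀ * (σ * σ) := by
          rw [hσσ, hρ]
          field_simp
        rw [this]
        field_simp
    _ ≤ (⌊η * Real.log n ^ 2⌋₊ : ℝ) * (κ₁ / (σ * Real.log n)) := by
        apply mul_le_mul_of_nonneg_right hcount
        have : 0 < κ₁ := by linarith
        positivity

/-- upper bound for the mass of windows -/
lemma mass_upper {p : ℕ → ℝ} (hp : Tendsto (fun n : ℕ => p n * Real.log n) atTop (𝓝 1))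
    {κ η : ℝ} (hκ : 1 < κ) (hη : 0 ≤ η) : ∀ᶠ n : ℕ in atTop, ∀ a : ℕ, n ≤ a →
      ∑ m ∈ Ioc a (a + ⌊η * Real.log n ^ 2⌋₊), p m ≤ κ * η * Real.log n := by
  obtain ⟨n₁, hn₁⟩ := eventually_atTop.1 ((hp.eventually_lt_const hκ).and (eventually_ge_atTop 2))
  filter_upwards [eventually_ge_atTop n₁, eventually_ge_atTop 2] with n hn hn2
  intro a ha1
  have hL : 0 < Real.log n := Real.log_pos (by exact_mod_cast hn2)
  have hterm : ∀ m ∈ Ioc a (a + ⌊η * Real.log n ^ 2⌋₊), p m ≤ κ / Real.log n := by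
    intro m hm
    rw [Finset.mem_Ioc] at hm
    have h1 := (hn₁ m (by omega)).1
    have hm0 : (1:ℝ) < m := by
      have : 1 < m := by omega
      exact_mod_cast this
    have h2 : 0 < Real.log m := Real.log_pos hm0
    have h3 : Real.log n ≤ Real.log m := by
      apply Real.log_le_log
      · have : 0 < n := by omega
        exact_mod_cast this
      · have : n ≤ m := by omega
        exact_mod_cast this
    have h4 : p m ≤ κ / Real.log m := by
      rw [le_div_iff₀ h2]
      exact h1.le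
    refine h4.trans ?_
    exact div_le_div_of_nonneg_left (by linarith) hL h3
  have hsum := Finset.sum_le_card_nsmul _ _ _ hterm
  rw [Nat.card_Ioc, nsmul_eq_mul] at hsum
  have hcard : a + ⌊η * Real.log n ^ 2⌋₊ - a = ⌊η * Real.log n ^ 2⌋₊ := by omega
  rw [hcard] at hsum
  refine hsum.trans ?_
  have h1 := Nat.floor_le (show 0 ≤ η * Real.log n ^ 2 by positivity)
  calc (⌊η * Real.log n ^ 2⌋₊ : ℝ) * (κ / Real.log n) ≤ η * Real.log n ^ 2 * (κ / Real.log n) := by
        gcongr
    _ = κ * η * Real.log n := by field_simp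

lemma spread_of_density {p : ℕ → ℝ}
    (hp : Tendsto (fun n : ℕ => p n * Real.log n) atTop (𝓝 1)) : Spread p := by
  intro η hη
  refine ⟨1 / 2 * η, by positivity, ?_⟩
  exact mass_lower hp (by norm_num) hη

/-- if the windows have mass `~ lam * log n`, then the critical exponent is at most `1` -/
lemma critical_le_one {p : ℕ → ℝ}
    (hp : Tendsto (fun n : ℕ => p n * Real.log n) atTop (𝓝 1)) {e : ℝ → ℕ → ℝ}
    (he0 : ∀ lam n, 0 ≤ e lam n) (h0 : ∀ n, e 0 n = 1)
    (he : ∀ lam n, e lam n ≤ Real.exp (-∑ m ∈ Ioc n (win lam n), p m)) : critical e ≤ 1 := by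
  apply csSup_le ⟨0, zero_mem h0⟩
  rintro lam ⟨hl, hns⟩
  by_contra hcon
  rw [not_le] at hcon
  apply hns
  set κ : ℝ := (1 / lam + 1) / 2 with hκ
  have h1 : 1 / lam < 1 := by rw [div_lt_one (by linarith)]; exact hcon
  have hκ1 : κ < 1 := by linarith
  have hκl : 1 < κ * lam := by
    have h2 : 1 / lam < κ := by linarith
    rwa [div_lt_iff₀ (by linarith)] at h2
  apply summable_of_ev (he0 lam) (summable_exp hκl)
  filter_upwards [mass_lower hp hκ1 (show 0 < lam by linarith)] with n hn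
  refine (he lam n).trans (Real.exp_le_exp.2 ?_)
  have := hn n le_rfl (by omega)
  unfold win
  linarith

/-- if `∑ e lam n` diverges for `lam < ℓ`, then the critical exponent is at least `ℓ` -/
lemma le_critical {e : ℝ → ℕ → ℝ}
    (hb : BddAbove {lam : ℝ | 0 ≤ lam ∧ ¬ Summable (e lam)}) {l : ℝ}
    (h : ∀ lam, 0 < lam → lam < l → ¬ Summable (e lam)) : l ≤ critical e := by
  by_contra hcon
  rw [not_le] at hcon
  have h0 : 0 ≤ critical e := critical_nonneg
  have h1 : (critical e + l) / 2 ≤ critical e :=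
    le_csSup hb ⟨by linarith, h _ (by linarith) (by linarith)⟩
  linarith

lemma not_summable_exp {c : ℝ} (hc : c ≤ 1) :
    ¬ Summable fun n : ℕ => Real.exp (-(c * Real.log n)) := by
  intro h
  have h1 : Summable fun n : ℕ => ((n:ℝ) ^ c)⁻¹ := by
    refine (summable_of_ev (fun n => by positivity) h ?_)
    filter_upwards [eventually_gt_atTop 0] with n hn
    rw [exp_log_eq hn]
  have := Real.summable_nat_rpow_inv.1 h1
  linarith

section
variable {Ω : Type*} [MeasurableSpace Ω] {P : Measure Ω} [IsProbabilityMeasure P] {E : ℕ → Set Ω}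

/-- **Cramér's constant is at most one in negatively dependent models.** -/
theorem NegDep.cramer_le_one (h : NegDep P E)
    (hp : Tendsto (fun n : ℕ => P.real (E n) * Real.log n) atTop (𝓝 1)) :
    critical (emp P E) ≤ 1 :=
  critical_le_one hp (fun lam n => emp_nonneg lam n) (fun n => emp_zero n)
    (fun lam n => h.emp_le_exp lam n)

end

end Pool.Agent.H34.ND
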