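import Pool.Agent.H34.ND.Lin
import Pool.Agent.H34.ND.Basic

/-! # Determinantal random sets are negatively dependent -/

set_option autoImplicit false

namespace Pool.Agent.H34.ND

open MeasureTheory Filter Topology Finset
open scoped ComplexOrder MatrixOrder

variable {Ω : Type*} [MeasurableSpace Ω] {P : Measure Ω} {E : ℕ → Set Ω} {K : ℕ → ℕ → ℂ}

section
variable {ι : Type*} [Fintype ι] [DecidableEq ι]

/-- the kernel on a finite family of places -/
def kmat (K : ℕ → ℕ → ℂ) (f : ι → ℕ) : Matrix ι ι ℂ := Matrix.of fun i j => K (f i) (f j)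

lemma Determinantal.fam (h : Determinantal P E K) {f : ι → ℕ} (hf : Function.Injective f) :
    ((P.real (⋂ i, E (f i)) : ℝ) : ℂ) = (kmat K f).det := by
  have h1 := h.corr (univ.image f)
  have h2 : (⋂ n ∈ univ.image f, E n) = ⋂ i, E (f i) := by
    ext ω
    simp
  rw [h2] at h1
  rw [h1]
  let e : ι ≃ (univ.image f : Finset ℕ) := Equiv.ofBijective
    (fun i => ⟨f i, Finset.mem_image_of_mem f (Finset.mem_univ i)⟩) ⟨fun i j hij => hf (by
      simpa using hij), fun ⟨n, hn⟩ => by
      obtain ⟨i, _, hi⟩ := Finset.mem_image.1 hn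
      exact ⟨i, by simpa using hi⟩⟩
  rw [← Matrix.det_submatrix_equiv_self e]
  rfl

variable [IsProbabilityMeasure P]

lemma incl_excl {A : ι → Set Ω} (hA : ∀ i, MeasurableSet (A i)) :
    P.real (⋂ i, (A i)ᶜ) = ∑ s : Finset ι, (-1) ^ s.card * P.real (⋂ i ∈ s, A i) := by
  have hm : ∀ s : Finset ι, MeasurableSet (⋂ i ∈ s, A i) := fun s =>
    Finset.measurableSet_biInter _ fun i _ => hA i
  have h1 : ∀ ω, (⋂ i, (A i)ᶜ).indicator (1 : Ω → ℝ) ω =
      ∑ s : Finset ι, (-1) ^ s.card * (⋂ i ∈ s, A i).indicator (1 : Ω → ℝ) ω := by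
    intro ω
    have h2 : (⋂ i, (A i)ᶜ).indicator (1 : Ω → ℝ) ω =
        ∏ i, (1 + -((A i).indicator (1 : Ω → ℝ) ω)) := by
      by_cases hω : ω ∈ ⋂ i, (A i)ᶜ
      · rw [Set.indicator_of_mem hω]
        rw [Set.mem_iInter] at hω
        symm
        refine Finset.prod_eq_one fun i _ => ?_
        rw [Set.indicator_of_notMem (hω i)]
        simp
      · rw [Set.indicator_of_notMem hω]
        rw [Set.mem_iInter] at hω
        push Not at hω
        obtain ⟨i, hi⟩ := hω
        rw [Set.mem_compl_iff, not_not] at hi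
        symm
        refine Finset.prod_eq_zero (Finset.mem_univ i) ?_
        rw [Set.indicator_of_mem hi]
        simp
    rw [h2, Finset.prod_one_add, Finset.powerset_univ]
    refine Finset.sum_congr rfl fun s _ => ?_
    rw [Finset.prod_neg]
    congr 1
    by_cases hω : ω ∈ ⋂ i ∈ s, A i
    · rw [Set.indicator_of_mem hω]
      rw [Set.mem_iInter₂] at hω
      refine Finset.prod_eq_one fun i hi => ?_
      rw [Set.indicator_of_mem (hω i hi)]
      rfl
    · rw [Set.indicator_of_notMem hω]
      rw [Set.mem_iInter₂] at hω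
      push Not at hω
      obtain ⟨i, hi, hi2⟩ := hω
      exact Finset.prod_eq_zero hi (Set.indicator_of_notMem hi2 _)
  have h2 : P.real (⋂ i, (A i)ᶜ) = ∫ ω, (⋂ i, (A i)ᶜ).indicator (1 : Ω → ℝ) ω ∂P :=
    (integral_indicator_one (MeasurableSet.iInter fun i => (hA i).compl)).symm
  have hint : ∀ s : Finset ι, Integrable
      (fun ω => (-1 : ℝ) ^ s.card * (⋂ i ∈ s, A i).indicator (1 : Ω → ℝ) ω) P := fun s =>
    ((integrable_const (1:ℝ)).indicator (hm s)).const_mul _
  rw [h2]
  simp_rw [h1]
  rw [integral_finset_sum _ fun s _ => hint s]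
  refine Finset.sum_congr rfl fun s _ => ?_
  rw [integral_const_mul, integral_indicator_one (hm s)]

lemma Determinantal.fam_sub (h : Determinantal P E K) {f : ι → ℕ} (hf : Function.Injective f)
    (s : Finset ι) : ((P.real (⋂ i ∈ s, E (f i)) : ℝ) : ℂ) =
      ((kmat K f).submatrix (Subtype.val : s → ι) (Subtype.val : s → ι)).det := by
  have h1 := h.fam (f := fun i : s => f i) (fun i j hij => Subtype.ext (hf hij))
  have h2 : (⋂ i ∈ s, E (f i)) = ⋂ i : s, E (f i) := by
    ext ω
    simp
  rw [h2, h1]
  rfl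

/-- the probability that a family of places is empty -/
lemma Determinantal.empty (h : Determinantal P E K) {f : ι → ℕ} (hf : Function.Injective f) :
    ((P.real (⋂ i, (E (f i))ᶜ) : ℝ) : ℂ) = (1 - kmat K f).det := by
  rw [incl_excl fun i => h.meas (f i), det_one_sub]
  push_cast
  refine Finset.sum_congr rfl fun s _ => ?_
  rw [h.fam_sub hf s]

lemma Determinantal.kherm (h : Determinantal P E K) (f : ι → ℕ) : (kmat K f).IsHermitian := by
  ext i j
  simp only [kmat, Matrix.conjTranspose_apply, Matrix.of_apply]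
  rw [h.herm (f j) (f i)]

lemma Determinantal.one_sub_herm (h : Determinantal P E K) (f : ι → ℕ) :
    (1 - kmat K f).IsHermitian := Matrix.isHermitian_one.sub (h.kherm f)

lemma Determinantal.psd (h : Determinantal P E K) {f : ι → ℕ} (hf : Function.Injective f) :
    (kmat K f).PosSemidef := by
  apply psd_of_minors (h.kherm f)
  intro s
  rw [← h.fam_sub hf s]
  exact_mod_cast measureReal_nonneg

lemma Determinantal.one_sub_psd (h : Determinantal P E K) {f : ι → ℕ}
    (hf : Function.Injective f) : (1 - kmat K f).PosSemidef := by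
  apply psd_of_minors (h.one_sub_herm f)
  intro s
  have h1 : (1 - kmat K f).submatrix (Subtype.val : s → ι) (Subtype.val : s → ι) =
      1 - kmat K (fun i : s => f i) := by
    ext i j
    simp only [kmat, Matrix.submatrix_apply, Matrix.sub_apply, Matrix.one_apply, Matrix.of_apply,
      Subtype.ext_iff]
  rw [h1, ← h.empty (f := fun i : s => f i) (fun i j hij => Subtype.ext (hf hij))]
  exact_mod_cast measureReal_nonneg

end

variable [IsProbabilityMeasure P]

/-- the kernel on the interval `(a, b]` -/
def kint (K : ℕ → ℕ → ℂ) (a b : ℕ) : Matrix (Ioc a b) (Ioc a b) ℂ := kmat K (fun i => (i : ℕ))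

lemma free_eq (a b : ℕ) : Free E a b = ⋂ i : Ioc a b, (E i)ᶜ := by
  ext ω
  simp [Free]

lemma Determinantal.free (h : Determinantal P E K) (a b : ℕ) :
    ((P.real (Free E a b) : ℝ) : ℂ) = (1 - kint K a b).det := by
  rw [free_eq]
  exact h.empty (f := fun i : Ioc a b => (i : ℕ)) Subtype.val_injective

/-- **Determinantal random sets are negatively dependent.** -/
theorem Determinantal.negDep (h : Determinantal P E K) : NegDep P E where
  meas := h.meas
  neg := by
    intro a b c d hab hbc hcd
    set f : Ioc a b ⊕ Ioc c d → ℕ := Sum.elim (fun i => (i : ℕ)) (fun i => (i : ℕ)) with hf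
    have hinj : Function.Injective f := by
      rintro (i | i) (j | j) hij
      · simp only [hf, Sum.elim_inl] at hij
        rw [Subtype.ext hij]
      · simp only [hf, Sum.elim_inl, Sum.elim_inr] at hij
        have h1 := Finset.mem_Ioc.1 i.2
        have h2 := Finset.mem_Ioc.1 j.2
        omega
      · simp only [hf, Sum.elim_inl, Sum.elim_inr] at hij
        have h1 := Finset.mem_Ioc.1 i.2
        have h2 := Finset.mem_Ioc.1 j.2
        omega
      · simp only [hf, Sum.elim_inr] at hij
        rw [Subtype.ext hij]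
    have h1 : Free E a b ∩ Free E c d = ⋂ i, (E (f i))ᶜ := by
      rw [free_eq, free_eq]
      ext ω
      simp [hf]
    have h2 : (1 - kmat K f).toBlocks₁₁ = 1 - kint K a b := by
      ext i j
      simp [kint, kmat, Matrix.toBlocks₁₁, Matrix.one_apply, hf]
    have h3 : (1 - kmat K f).toBlocks₂₂ = 1 - kint K c d := by
      ext i j
      simp [kint, kmat, Matrix.toBlocks₂₂, Matrix.one_apply, hf]
    have h4 := fischer (h.one_sub_psd hinj)
    rw [h2, h3, ← h.empty hinj, ← h.free, ← h.free, ← h1] at h4
    exact_mod_cast h4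

/-- the diagonal of the kernel is the intensity -/
lemma Determinantal.diag (h : Determinantal P E K) (n : ℕ) :
    ((P.real (E n) : ℝ) : ℂ) = K n n := by
  have h1 := h.fam (f := fun _ : Unit => n) (fun _ _ _ => rfl)
  have h2 : (⋂ _i : Unit, E n) = E n := by
    ext ω
    simp
  rw [h2] at h1
  rw [h1]
  simp [kmat]

end Pool.Agent.H34.ND
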