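import Pool.Agent.H34.ND.Spec
import Pool.Agent.H34.ND.Det
import Pool.Agent.H34.ND.Dens

/-! # The dichotomy for determinantal models of density `1 / log n` -/

set_option autoImplicit false

namespace Pool.Agent.H34.ND

open MeasureTheory Filter Topology Finset
open scoped ComplexOrder MatrixOrder

variable {Ω : Type*} [MeasurableSpace Ω] {P : Measure Ω} [IsProbabilityMeasure P]
  {E : ℕ → Set Ω} {K : ℕ → ℕ → ℂ}

lemma Determinantal.diag_re (h : Determinantal P E K) (n : ℕ) : (K n n).re = P.real (E n) := by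
  rw [← h.diag n]
  simp

lemma kint_trace (h : Determinantal P E K) (a b : ℕ) :
    ∑ i, (kint K a b i i).re = ∑ m ∈ Ioc a b, P.real (E m) := by
  rw [← Finset.sum_coe_sort (Ioc a b) (fun m => P.real (E m))]
  refine Finset.sum_congr rfl fun i _ => ?_
  rw [← h.diag_re]
  rfl

lemma kint_hs (K : ℕ → ℕ → ℂ) (a b : ℕ) :
    ∑ i, ∑ j, ‖kint K a b i j‖ ^ 2 = ∑ i ∈ Ioc a b, ∑ j ∈ Ioc a b, ‖K i j‖ ^ 2 := by
  rw [← Finset.sum_coe_sort (Ioc a b) (fun i => ∑ j ∈ Ioc a b, ‖K i j‖ ^ 2)]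
  refine Finset.sum_congr rfl fun i _ => ?_
  rw [← Finset.sum_coe_sort (Ioc a b) (fun j => ‖K i j‖ ^ 2)]
  rfl

lemma Determinantal.kint_psd (h : Determinantal P E K) (a b : ℕ) : (kint K a b).PosSemidef :=
  h.psd (f := fun i : Ioc a b => (i : ℕ)) Subtype.val_injective

lemma Determinantal.kint_one_sub_psd (h : Determinantal P E K) (a b : ℕ) :
    (1 - kint K a b).PosSemidef :=
  h.one_sub_psd (f := fun i : Ioc a b => (i : ℕ)) Subtype.val_injective

lemma Determinantal.row (h : Determinantal P E K) {a b i : ℕ} (hi : i ∈ Ioc a b) :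
    ∑ j ∈ Ioc a b, ‖K i j‖ ^ 2 ≤ P.real (E i) := by
  have h1 := row_le (h.kint_psd a b) (h.kint_one_sub_psd a b) ⟨i, hi⟩
  rw [← h.diag_re i]
  rw [← Finset.sum_coe_sort (Ioc a b) (fun j => ‖K i j‖ ^ 2)]
  exact h1

lemma hs_split (q : ℕ → ℕ → ℝ) (hq : ∀ i j, 0 ≤ q i j) (hs : ∀ i j, q i j = q j i)
    {V W : Finset ℕ} (hVW : V ⊆ W) :
    ∑ i ∈ W, ∑ j ∈ W, q i j ≤ ∑ i ∈ V, ∑ j ∈ V, q i j + 2 * ∑ i ∈ W \ V, ∑ j ∈ W, q i j := by
  have h1 : ∑ i ∈ W, ∑ j ∈ W, q i j =
      ∑ i ∈ W \ V, ∑ j ∈ W, q i j + ∑ i ∈ V, ∑ j ∈ W, q i j := (Finset.sum_sdiff hVW).symm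
  have h2 : ∑ i ∈ V, ∑ j ∈ W, q i j = ∑ i ∈ V, ∑ j ∈ W \ V, q i j + ∑ i ∈ V, ∑ j ∈ V, q i j := by
    rw [← Finset.sum_add_distrib]
    refine Finset.sum_congr rfl fun i _ => (Finset.sum_sdiff hVW).symm
  have h3 : ∑ i ∈ V, ∑ j ∈ W \ V, q i j ≤ ∑ i ∈ W \ V, ∑ j ∈ W, q i j := by
    rw [Finset.sum_comm]
    refine Finset.sum_le_sum fun j _ => ?_
    calc ∑ i ∈ V, q i j ≤ ∑ i ∈ W, q i j :=
          Finset.sum_le_sum_of_subset_of_nonneg hVW fun i _ _ => hq i j
      _ = ∑ i ∈ W, q j i := Finset.sum_congr rfl fun i _ => hs i j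
  linarith

lemma Determinantal.norm_symm (h : Determinantal P E K) (i j : ℕ) : ‖K i j‖ ^ 2 = ‖K j i‖ ^ 2 := by
  rw [h.herm i j, norm_star]

lemma gap_mono {c lam : ℝ} (hl1 : lam ≤ 1) {n : ℕ}
    (hg : (((1 - c : ℝ) : ℂ) • (1 : Matrix (Ioc n (win 1 n))
      (Ioc n (win 1 n)) ℂ) - Matrix.of fun i j : Ioc n (win 1 n) => K i j).PosSemidef) :
    (((1 - c : ℝ) : ℂ) • (1 : Matrix (Ioc n (win lam n)) (Ioc n (win lam n)) ℂ) -
      kint K n (win lam n)).PosSemidef := by
  have hsub : Ioc n (win lam n) ⊆ Ioc n (win 1 n) :=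
    Finset.Ioc_subset_Ioc_right (win_mono hl1 n)
  have h1 := hg.submatrix (fun i : Ioc n (win lam n) => (⟨i, hsub i.2⟩ : Ioc n (win 1 n)))
  convert h1 using 1
  ext i j
  simp only [Matrix.sub_apply, Matrix.smul_apply, Matrix.one_apply, Matrix.submatrix_apply,
    Matrix.of_apply, kint, kmat, Subtype.mk.injEq, Subtype.ext_iff]

/-- lower bound for the probability of an empty window -/
lemma Determinantal.emp_lower (h : Determinantal P E K)
    (hp : Tendsto (fun n : ℕ => P.real (E n) * Real.log n) atTop (𝓝 1)) {c : ℝ} (hc : 0 < c)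
    (hgap : ∀ᶠ n : ℕ in atTop, (((1 - c : ℝ) : ℂ) • (1 : Matrix (Ioc n (win 1 n))
      (Ioc n (win 1 n)) ℂ) - Matrix.of fun i j : Ioc n (win 1 n) => K i j).PosSemidef)
    {lam κ : ℝ} (hl0 : 0 ≤ lam) (hl1 : lam ≤ 1)
    (hκ : 1 < κ) : ∀ᶠ n : ℕ in atTop, ∀ ε : ℝ, hs K n ≤ ε * Real.log n →
      Real.exp (-((κ * lam + ε / c) * Real.log n)) ≤ emp P E lam n := by
  filter_upwards [mass_upper hp hκ hl0, hgap] with n hn1 hng ε hn2
  have h1 := det_lower (h.kint_psd n (win lam n)) hc (gap_mono hl1 hng) (h.free n _)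
  refine le_trans (Real.exp_le_exp.2 ?_) h1
  rw [neg_le_neg_iff, kint_trace h, kint_hs]
  have h2 := hn1 n le_rfl
  have h4 : ∑ i ∈ Ioc n (win lam n), ∑ j ∈ Ioc n (win lam n), ‖K i j‖ ^ 2 ≤ hs K n := by
    have hsub : Ioc n (win lam n) ⊆ Ioc n (win 1 n) :=
      Finset.Ioc_subset_Ioc_right (win_mono hl1 n)
    unfold hs
    refine (Finset.sum_le_sum fun i _ => Finset.sum_le_sum_of_subset_of_nonneg hsub
      fun j _ _ => by positivity).trans ?_
    exact Finset.sum_le_sum_of_subset_of_nonneg hsub fun i _ _ =>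
      Finset.sum_nonneg fun j _ => by positivity
  have h5 : (∑ i ∈ Ioc n (win lam n), ∑ j ∈ Ioc n (win lam n), ‖K i j‖ ^ 2) / c ≤
      ε / c * Real.log n := by
    rw [div_mul_eq_mul_div]
    exact div_le_div_of_nonneg_right (h4.trans hn2) hc.le
  have h6 : ∑ m ∈ Ioc n (win lam n), P.real (E m) ≤ κ * lam * Real.log n := h2
  linarith

/-- upper bound for the probability of an empty window -/
lemma Determinantal.emp_upper (h : Determinantal P E K)
    (hp : Tendsto (fun n : ℕ => P.real (E n) * Real.log n) atTop (𝓝 1)) {β lam : ℝ}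
    (hl0 : 0 ≤ lam) (hl1 : lam ≤ 1) (hg0 : 0 < 2 * lam + β / 2 - 2) :
    ∀ᶠ n : ℕ in atTop, β * Real.log n ≤ hs K n →
      emp P E lam n ≤ Real.exp (-((1 + (2 * lam + β / 2 - 2) / 2) * Real.log n)) := by
  set g : ℝ := 2 * lam + β / 2 - 2 with hgdef
  have hκ : 1 - g / 8 < 1 := by linarith
  have hκ' : 1 < 1 + g / 8 := by linarith
  have hlow : ∀ᶠ n : ℕ in atTop, (1 - g / 8) * lam * Real.log n ≤
      ∑ m ∈ Ioc n (win lam n), P.real (E m) := by
    rcases hl0.eq_or_lt with h0 | h0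
    · refine Eventually.of_forall fun n => ?_
      rw [← h0]
      simp only [mul_zero, zero_mul]
      exact Finset.sum_nonneg fun m _ => measureReal_nonneg
    · filter_upwards [mass_lower hp hκ h0] with n hn
      exact hn n le_rfl (by omega)
  filter_upwards [hlow, mass_upper hp hκ' zero_le_one, tendsto_log_nat.eventually_gt_atTop 0]
    with n hn1 hn2 hL hn3
  have h1 := det_upper (h.kint_psd n (win lam n)) (h.kint_one_sub_psd n (win lam n)) (h.free n _)
  refine le_trans h1 (Real.exp_le_exp.2 ?_)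
  rw [neg_le_neg_iff, kint_trace h, kint_hs]
  have hsub : Ioc n (win lam n) ⊆ Ioc n (win 1 n) :=
    Finset.Ioc_subset_Ioc_right (win_mono hl1 n)
  have h2 := hs_split (fun i j => ‖K i j‖ ^ 2) (fun i j => by positivity)
    (fun i j => h.norm_symm i j) hsub
  have h3 : ∑ i ∈ Ioc n (win 1 n) \ Ioc n (win lam n), ∑ j ∈ Ioc n (win 1 n), ‖K i j‖ ^ 2 ≤
      ∑ i ∈ Ioc n (win 1 n) \ Ioc n (win lam n), P.real (E i) :=
    Finset.sum_le_sum fun i hi => h.row (Finset.mem_sdiff.1 hi).1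
  have h4 := Finset.sum_sdiff (f := fun m => P.real (E m)) hsub
  have h5 := hn2 n le_rfl
  have h6 : ∑ m ∈ Ioc n (win 1 n), P.real (E m) ≤ (1 + g / 8) * 1 * Real.log n := h5
  have h7 : hs K n = ∑ i ∈ Ioc n (win 1 n), ∑ j ∈ Ioc n (win 1 n), ‖K i j‖ ^ 2 := rfl
  have h8 : (1 + g / 2) * Real.log n ≤
      2 * ((1 - g / 8) * lam * Real.log n) + β / 2 * Real.log n - (1 + g / 8) * Real.log n := by
    have h9 : 1 + g / 2 ≤ 2 * ((1 - g / 8) * lam) + β / 2 - (1 + g / 8) := by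
      have h10 : g / 8 * lam ≤ g / 8 := by nlinarith
      have h11 : 2 * ((1 - g / 8) * lam) = 2 * lam - 2 * (g / 8 * lam) := by ring
      rw [h11]
      linarith
    have := mul_le_mul_of_nonneg_right h9 hL.le
    linarith
  linarith

/-- **Large Hilbert–Schmidt norm: Cramér's constant is smaller than `1`.** -/
theorem Determinantal.critical_lt_one (h : Determinantal P E K)
    (hp : Tendsto (fun n : ℕ => P.real (E n) * Real.log n) atTop (𝓝 1)) {β : ℝ} (hβ : 0 < β)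
    (hhs : ∀ᶠ n : ℕ in atTop, β * Real.log n ≤ hs K n) :
    critical (emp P E) ≤ 1 - β / 4 := by
  apply csSup_le ⟨0, zero_mem fun n => emp_zero n⟩
  rintro lam ⟨hl, hns⟩
  by_contra hcon
  rw [not_le] at hcon
  apply hns
  set l₁ : ℝ := min lam 1 with hl₁
  have hl10 : 0 ≤ l₁ := le_min hl zero_le_one
  have hl11 : l₁ ≤ 1 := min_le_right _ _
  have hlam : l₁ ≤ lam := min_le_left _ _
  have hg : 1 - β / 4 < l₁ := lt_min hcon (by linarith)
  have hg0 : 0 < 2 * l₁ + β / 2 - 2 := by linarith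
  refine summable_of_ev (fun n => emp_nonneg lam n)
    (summable_exp (c := 1 + (2 * l₁ + β / 2 - 2) / 2) (by linarith)) ?_
  filter_upwards [h.emp_upper hp hl10 hl11 hg0, hhs] with n hn hn3
  exact (emp_anti hlam n).trans (hn hn3)

/-- the weight of the places with a small Hilbert–Schmidt norm -/
noncomputable def smallHS (K : ℕ → ℕ → ℂ) (ε : ℝ) (n : ℕ) : ℝ :=
  if hs K n ≤ ε * Real.log n then (n : ℝ) ^ (ε - 1) else 0

lemma smallHS_nonneg (K : ℕ → ℕ → ℂ) (ε : ℝ) (n : ℕ) : 0 ≤ smallHS K ε n := by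
  unfold smallHS
  split_ifs
  · positivity
  · exact le_rfl

lemma rpow_eq_exp {n : ℕ} (hn : 0 < n) (x : ℝ) : (n : ℝ) ^ x = Real.exp (x * Real.log n) := by
  rw [Real.rpow_def_of_pos (by exact_mod_cast hn), mul_comm]

/-- necessity -/
theorem Determinantal.necessary (h : Determinantal P E K)
    (hp : Tendsto (fun n : ℕ => P.real (E n) * Real.log n) atTop (𝓝 1))
    (h1 : critical (emp P E) = 1) {ε : ℝ} (hε : 0 < ε) : ¬ Summable (smallHS K ε) := by
  intro hsum
  -- a number `lam < 1` with a summable series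
  set lam : ℝ := max (1 - ε / 8) (1 / 2) with hlam
  have hl0 : 0 < lam := lt_of_lt_of_le (by norm_num) (le_max_right _ _)
  have hl1 : lam < 1 := max_lt (by linarith) (by norm_num)
  have hl2 : 1 - ε / 8 ≤ lam := le_max_left _ _
  have hg0 : 0 < 2 * lam + ε / 2 - 2 := by linarith
  obtain ⟨μ, hμ1, hμ2⟩ := exists_of_lt_critical (e := emp P E) (fun n => emp_zero n)
    (lam := lam) (by rw [h1]; exact hl1)
  apply hμ2
  have hs2 := hsum.add (summable_exp (c := 1 + (2 * lam + ε / 2 - 2) / 2) (by linarith))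
  refine summable_of_ev (fun n => emp_nonneg μ n) hs2 ?_
  -- the mass
  set κ : ℝ := max ((1 - ε) / lam) (1 / 2) with hκ
  have hκ1 : κ < 1 := by
    apply max_lt _ (by norm_num)
    rw [div_lt_one hl0]
    linarith
  have hκl : 1 - ε ≤ κ * lam := by
    have : (1 - ε) / lam ≤ κ := le_max_left _ _
    rwa [div_le_iff₀ hl0] at this
  filter_upwards [h.emp_upper hp hl0.le hl1.le hg0, mass_lower hp hκ1 hl0,
    eventually_gt_atTop 0, tendsto_log_nat.eventually_gt_atTop 0] with n hn hn2 hn0 hL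
  refine (emp_anti hμ1.le n).trans ?_
  rcases le_or_gt (hs K n) (ε * Real.log n) with h2 | h2
  · have h3 : emp P E lam n ≤ smallHS K ε n := by
      rw [smallHS, if_pos h2, rpow_eq_exp hn0]
      refine (h.negDep.emp_le_exp lam n).trans (Real.exp_le_exp.2 ?_)
      have h4 := hn2 n le_rfl (by omega)
      have h5 : κ * lam * Real.log n ≤ ∑ m ∈ Ioc n (win lam n), P.real (E m) := h4
      have h6 : (1 - ε) * Real.log n ≤ κ * lam * Real.log n :=
        mul_le_mul_of_nonneg_right hκl hL.le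
      linarith
    have := Real.exp_pos (-((1 + (2 * lam + ε / 2 - 2) / 2) * Real.log n))
    linarith
  · have h3 := hn h2.le
    have := smallHS_nonneg K ε n
    linarith

/-- sufficiency -/
theorem Determinantal.sufficient (h : Determinantal P E K)
    (hp : Tendsto (fun n : ℕ => P.real (E n) * Real.log n) atTop (𝓝 1)) {c : ℝ} (hc : 0 < c)
    (hgap : ∀ᶠ n : ℕ in atTop, (((1 - c : ℝ) : ℂ) • (1 : Matrix (Ioc n (win 1 n))
      (Ioc n (win 1 n)) ℂ) - Matrix.of fun i j : Ioc n (win 1 n) => K i j).PosSemidef)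
    (hhs : ∀ ε : ℝ, 0 < ε → ¬ Summable (smallHS K ε)) : critical (emp P E) = 1 := by
  have hnd := h.negDep
  refine le_antisymm (hnd.cramer_le_one hp) ?_
  apply le_critical (bdd_of_spread (fun n => measureReal_nonneg) (spread_of_density hp)
    (fun lam n => emp_nonneg lam n) (fun lam n => hnd.emp_le_exp lam n))
  intro lam hl0 hl1 hs'
  have hκ : 1 < (1 + lam) / (2 * lam) := by
    rw [lt_div_iff₀ (by linarith)]
    linarith
  have hκl : (1 + lam) / (2 * lam) * lam = (1 + lam) / 2 := by field_simp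
  set ε : ℝ := (1 - lam) / 2 / (1 + 1 / c) with hε
  have hden : 0 < 1 + 1 / c := by positivity
  have hε0 : 0 < ε := by
    rw [hε]
    have : 0 < (1 - lam) / 2 := by linarith
    positivity
  have hε1 : ε + ε / c = (1 - lam) / 2 := by
    rw [hε]
    field_simp
  apply hhs ε hε0
  refine summable_of_ev (fun n => smallHS_nonneg K ε n) hs' ?_
  filter_upwards [h.emp_lower hp hc hgap hl0.le hl1.le hκ, eventually_gt_atTop 0] with n hn hn0
  unfold smallHS
  split_ifs with h2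
  · refine le_trans (le_of_eq ?_) (hn ε h2)
    rw [rpow_eq_exp hn0, hκl]
    congr 1
    have : (1 + lam) / 2 + ε / c = 1 - ε := by linarith
    rw [this]
    ring
  · exact emp_nonneg lam n

end Pool.Agent.H34.ND
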