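import Pool.Agent.H34.ND.Basic

/-! # The Cramér constant of a set of natural numbers, and Borel–Cantelli lemmas -/

set_option autoImplicit false

namespace Pool.Agent.H34.ND

open MeasureTheory Filter Topology Finset

lemma inf_of_upper {A : Set ℕ} {lam : ℝ}
    (h : ∀ᶠ x : ℕ in atTop, ∃ n : ℕ, x < n ∧ (n:ℝ) ≤ x + lam * Real.log x ^ 2 ∧ n ∈ A) :
    A.Infinite := by
  obtain ⟨x₀, hx₀⟩ := eventually_atTop.1 h
  rw [Set.infinite_iff_exists_gt]
  intro a
  obtain ⟨n, hn, _, hnA⟩ := hx₀ (max x₀ a) (le_max_left _ _)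
  exact ⟨n, hnA, lt_of_le_of_lt (le_max_right _ _) hn⟩

lemma cramer_le {A : Set ℕ} {lam : ℝ}
    (h : ∀ᶠ x : ℕ in atTop, ∃ n : ℕ, x < n ∧ (n:ℝ) ≤ x + lam * Real.log x ^ 2 ∧ n ∈ A) :
    cramerConst A ≤ (lam : EReal) := by
  have hinf := inf_of_upper h
  have hmono : StrictMono (Nat.nth (· ∈ A)) := Nat.nth_strictMono hinf
  obtain ⟨x₀, hx₀⟩ := eventually_atTop.1 h
  apply limsup_le_of_le (by isBoundedDefault)
  filter_upwards [eventually_ge_atTop (max x₀ 2)] with k hk
  have hk1 : x₀ ≤ Nat.nth (· ∈ A) k := ((le_max_left _ _).trans hk).trans (hmono.id_le k)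
  have hk2 : 2 ≤ Nat.nth (· ∈ A) k := ((le_max_right _ _).trans hk).trans (hmono.id_le k)
  obtain ⟨n, hn1, hn2, hnA⟩ := hx₀ _ hk1
  have h1 : Nat.nth (· ∈ A) (k + 1) ≤ n := by
    classical
    have h2 : Nat.nth (· ∈ A) (Nat.count (· ∈ A) n) = n := Nat.nth_count (p := (· ∈ A)) hnA
    rw [← h2] at hn1 ⊢
    exact hmono.monotone (hmono.lt_iff_lt.1 hn1)
  have h2 : (Nat.nth (· ∈ A) (k + 1) : ℝ) ≤ n := by exact_mod_cast h1
  have hlog : 0 < Real.log (Nat.nth (· ∈ A) k) := Real.log_pos (by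
    have : (2:ℝ) ≤ (Nat.nth (· ∈ A) k : ℝ) := by exact_mod_cast hk2
    linarith)
  rw [EReal.coe_le_coe_iff, div_le_iff₀ (by positivity)]
  linarith

lemma le_cramer {A : Set ℕ} (hinf : A.Infinite) {lam : ℝ} (hlam : 0 ≤ lam)
    (h : ∃ᶠ x : ℕ in atTop, ∀ n : ℕ, x < n → (n:ℝ) ≤ x + lam * Real.log x ^ 2 → n ∉ A) :
    (lam : EReal) ≤ cramerConst A := by
  classical
  have hmono : StrictMono (Nat.nth (· ∈ A)) := Nat.nth_strictMono hinf
  have hmem : ∀ k, Nat.nth (· ∈ A) k ∈ A := fun k => Nat.nth_mem_of_infinite hinf k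
  apply le_limsup_of_frequently_le _ (by isBoundedDefault)
  rw [frequently_atTop]
  intro k₀
  set k₁ : ℕ := max k₀ 2 with hk₁
  obtain ⟨x, hax, hx2⟩ := (frequently_atTop.1 h) (Nat.nth (· ∈ A) k₁)
  have hcount : k₁ + 1 ≤ Nat.count (· ∈ A) (x + 1) := by
    have h1 : Nat.count (· ∈ A) (Nat.nth (· ∈ A) k₁ + 1) = k₁ + 1 :=
      Nat.count_nth_succ_of_infinite hinf k₁
    rw [← h1]
    exact Nat.count_monotone _ (by omega)
  obtain ⟨k, hk⟩ : ∃ k, Nat.count (· ∈ A) (x + 1) = k + 1 :=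
    ⟨Nat.count (· ∈ A) (x + 1) - 1, by omega⟩
  have hak : Nat.nth (· ∈ A) k < x + 1 := Nat.nth_lt_of_lt_count (by omega)
  have hak1 : x + 1 ≤ Nat.nth (· ∈ A) (k + 1) := by
    rw [← hk]
    exact Nat.le_nth_count hinf (x + 1)
  have hgap : (x:ℝ) + lam * Real.log x ^ 2 < (Nat.nth (· ∈ A) (k + 1) : ℝ) := by
    by_contra hcon
    rw [not_lt] at hcon
    exact hx2 _ (by omega) hcon (hmem (k + 1))
  refine ⟨k, by omega, ?_⟩
  have hk2 : 2 ≤ Nat.nth (· ∈ A) k := (show 2 ≤ k by omega).trans (hmono.id_le k)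
  have hk2r : (2:ℝ) ≤ (Nat.nth (· ∈ A) k : ℝ) := by exact_mod_cast hk2
  have hakx : (Nat.nth (· ∈ A) k : ℝ) ≤ x := by exact_mod_cast Nat.lt_succ_iff.1 hak
  have hlog : 0 < Real.log (Nat.nth (· ∈ A) k) := Real.log_pos (by linarith)
  have hlog2 : Real.log (Nat.nth (· ∈ A) k) ≤ Real.log x := Real.log_le_log (by linarith) hakx
  rw [EReal.coe_le_coe_iff, le_div_iff₀ (by positivity)]
  have h3 : lam * Real.log (Nat.nth (· ∈ A) k) ^ 2 ≤ lam * Real.log x ^ 2 := by gcongr
  linarith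

/-! ### Borel–Cantelli lemmas -/

variable {Ω : Type*} [MeasurableSpace Ω] {P : Measure Ω} [IsProbabilityMeasure P]

lemma bc_upper {F : ℕ → Set Ω} (hs : Summable fun n => P.real (F n)) :
    ∀ᵐ ω ∂P, ∀ᶠ n in atTop, ω ∉ F n := by
  apply ae_eventually_notMem
  have h1 : ∀ n, P (F n) = ENNReal.ofReal (P.real (F n)) := fun n => by
    rw [measureReal_def, ENNReal.ofReal_toReal (measure_ne_top P _)]
  simp_rw [h1]
  exact hs.tsum_ofReal_ne_top

lemma bc_fin {F : ℕ → Set Ω} (hF : ∀ n, MeasurableSet (F n)) {w : ℕ → ℝ} (hw : ∀ n, 0 ≤ w n)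
    (near : ℕ → ℕ → Prop) [DecidableRel near] {C : ℝ} (T : Finset ℕ)
    (hind : ∀ m ∈ T, ∀ n ∈ T, ¬ near m n → P.real (F m ∩ F n) ≤ P.real (F m) * P.real (F n))
    (hC : ∀ n ∈ T, ∑ m ∈ T with near m n, w m ≤ C)
    (hpos : 0 < ∑ n ∈ T, w n * P.real (F n)) :
    P.real {ω | ∀ n ∈ T, ω ∉ F n} ≤ C / ∑ n ∈ T, w n * P.real (F n) := by
  set μ : ℝ := ∑ n ∈ T, w n * P.real (F n) with hμ
  set X : Ω → ℝ := fun ω => ∑ n ∈ T, w n * (F n).indicator 1 ω with hX
  have hint : ∀ n, Integrable (fun ω => w n * (F n).indicator (1 : Ω → ℝ) ω) P := fun n =>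
    ((integrable_const (1:ℝ)).indicator (hF n)).const_mul _
  have hi1 : ∀ n, ∫ ω, (F n).indicator (1 : Ω → ℝ) ω ∂P = P.real (F n) := fun n => by
    rw [integral_indicator_one (hF n)]
  have hEX : ∫ ω, X ω ∂P = μ := by
    rw [hX, integral_finset_sum _ fun n _ => hint n]
    refine Finset.sum_congr rfl fun n _ => ?_
    rw [integral_const_mul, hi1]
  have hXX : ∀ ω, X ω ^ 2 = ∑ m ∈ T, ∑ n ∈ T, w m * w n * (F m ∩ F n).indicator 1 ω := by
    intro ω
    rw [hX]
    simp only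
    rw [sq, Finset.sum_mul_sum]
    refine Finset.sum_congr rfl fun m _ => Finset.sum_congr rfl fun n _ => ?_
    have : (F m ∩ F n).indicator (1 : Ω → ℝ) ω = (F m).indicator 1 ω * (F n).indicator 1 ω := by
      by_cases h1 : ω ∈ F m <;> by_cases h2 : ω ∈ F n <;> simp [h1, h2]
    rw [this]
    ring
  have hint2 : ∀ m n, Integrable (fun ω => w m * w n * (F m ∩ F n).indicator (1 : Ω → ℝ) ω) P :=
    fun m n => ((integrable_const (1:ℝ)).indicator ((hF m).inter (hF n))).const_mul _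
  have hEXX : ∫ ω, X ω ^ 2 ∂P = ∑ m ∈ T, ∑ n ∈ T, w m * w n * P.real (F m ∩ F n) := by
    simp_rw [hXX]
    rw [integral_finset_sum _ fun m _ => integrable_finset_sum _ fun n _ => hint2 m n]
    refine Finset.sum_congr rfl fun m _ => ?_
    rw [integral_finset_sum _ fun n _ => hint2 m n]
    refine Finset.sum_congr rfl fun n _ => ?_
    rw [integral_const_mul, integral_indicator_one ((hF m).inter (hF n))]
  have hXint : Integrable X P := integrable_finset_sum _ fun n _ => hint n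
  have hXXint : Integrable (fun ω => X ω ^ 2) P := by
    simp_rw [hXX]
    exact integrable_finset_sum _ fun m _ => integrable_finset_sum _ fun n _ => hint2 m n
  have hbound : ∫ ω, X ω ^ 2 ∂P ≤ μ ^ 2 + C * μ := by
    rw [hEXX]
    have h1 : ∀ m ∈ T, ∀ n ∈ T, w m * w n * P.real (F m ∩ F n) ≤
        w m * w n * (P.real (F m) * P.real (F n)) +
          if near m n then w m * w n * P.real (F n) else 0 := by
      intro m hm n hn
      split_ifs with h
      · have h2 : P.real (F m ∩ F n) ≤ P.real (F n) := measureReal_mono Set.inter_subset_right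
        have h3 : 0 ≤ w m * w n := mul_nonneg (hw m) (hw n)
        have h4 : 0 ≤ w m * w n * (P.real (F m) * P.real (F n)) := by positivity
        have h5 := mul_le_mul_of_nonneg_left h2 h3
        linarith
      · have := mul_le_mul_of_nonneg_left (hind m hm n hn h) (mul_nonneg (hw m) (hw n))
        linarith
    refine (Finset.sum_le_sum fun m hm => Finset.sum_le_sum fun n hn => h1 m hm n hn).trans ?_
    simp only [Finset.sum_add_distrib]
    apply add_le_add
    · rw [sq, hμ, Finset.sum_mul_sum]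
      apply le_of_eq
      refine Finset.sum_congr rfl fun m _ => Finset.sum_congr rfl fun n _ => by ring
    · rw [Finset.sum_comm, hμ, Finset.mul_sum]
      refine Finset.sum_le_sum fun n hn => ?_
      rw [← Finset.sum_filter]
      have h2 : ∑ m ∈ T with near m n, w m * w n * P.real (F n) =
          (∑ m ∈ T with near m n, w m) * (w n * P.real (F n)) := by
        rw [Finset.sum_mul]
        refine Finset.sum_congr rfl fun m _ => by ring
      rw [h2]
      exact mul_le_mul_of_nonneg_right (hC n hn) (mul_nonneg (hw n) measureReal_nonneg)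
  have hmeas : MeasurableSet {ω | ∀ n ∈ T, ω ∉ F n} := by
    have : {ω | ∀ n ∈ T, ω ∉ F n} = ⋂ n ∈ T, (F n)ᶜ := by
      ext ω
      simp
    rw [this]
    exact Finset.measurableSet_biInter _ fun n _ => (hF n).compl
  have hvar : ∫ ω, (X ω - μ) ^ 2 ∂P ≤ C * μ := by
    have h1 : ∫ ω, (X ω - μ) ^ 2 ∂P = ∫ ω, ((X ω ^ 2 - 2 * μ * X ω) + μ ^ 2) ∂P :=
      integral_congr_ae (Eventually.of_forall fun ω => by simp only; ring)
    have h2 : ∫ ω, ((X ω ^ 2 - 2 * μ * X ω) + μ ^ 2) ∂P =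
        ∫ ω, (X ω ^ 2 - 2 * μ * X ω) ∂P + ∫ _ω, μ ^ 2 ∂P :=
      integral_add (hXXint.sub (hXint.const_mul _)) (integrable_const _)
    have h3 : ∫ ω, (X ω ^ 2 - 2 * μ * X ω) ∂P = ∫ ω, X ω ^ 2 ∂P - ∫ ω, 2 * μ * X ω ∂P :=
      integral_sub hXXint (hXint.const_mul _)
    rw [h1, h2, h3, integral_const_mul, hEX]
    simp
    linarith
  have hkey : μ ^ 2 * P.real {ω | ∀ n ∈ T, ω ∉ F n} ≤ ∫ ω, (X ω - μ) ^ 2 ∂P := by
    rw [← integral_indicator_one hmeas, ← integral_const_mul]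
    apply integral_mono
    · exact ((integrable_const (1:ℝ)).indicator hmeas).const_mul _
    · have h1 : ∀ ω, (X ω - μ) ^ 2 = X ω ^ 2 - 2 * μ * X ω + μ ^ 2 := fun ω => by ring
      simp_rw [h1]
      exact (hXXint.sub (hXint.const_mul _)).add (integrable_const _)
    · intro ω
      simp only
      by_cases hω : ω ∈ {ω | ∀ n ∈ T, ω ∉ F n}
      · rw [Set.indicator_of_mem hω]
        have hX0 : X ω = 0 := by
          rw [hX]
          simp only
          refine Finset.sum_eq_zero fun n hn => ?_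
          rw [Set.indicator_of_notMem (hω n hn), mul_zero]
        rw [hX0]
        simp
      · rw [Set.indicator_of_notMem hω, mul_zero]
        exact sq_nonneg _
  rw [le_div_iff₀ hpos]
  have h3 := hkey.trans hvar
  have h4 : μ * (P.real {ω | ∀ n ∈ T, ω ∉ F n} * μ) ≤ μ * C := by nlinarith
  exact le_of_mul_le_mul_left h4 hpos

lemma bc_lower {F : ℕ → Set Ω} (hF : ∀ n, MeasurableSet (F n)) {w : ℕ → ℝ} (hw : ∀ n, 0 ≤ w n)
    (near : ℕ → ℕ → Prop) [DecidableRel near] {C : ℝ} {n₀ : ℕ}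
    (hind : ∀ m, n₀ ≤ m → ∀ n, n₀ ≤ n → ¬ near m n →
      P.real (F m ∩ F n) ≤ P.real (F m) * P.real (F n))
    (hC : ∀ n, n₀ ≤ n → ∀ T : Finset ℕ, (∀ m ∈ T, n₀ ≤ m ∧ near m n) → ∑ m ∈ T, w m ≤ C)
    (hns : ¬ Summable fun n => w n * P.real (F n)) :
    ∀ᵐ ω ∂P, ∃ᶠ n in atTop, ω ∈ F n := by
  have h0 : ∀ M : ℕ, P {ω | ∀ n, M ≤ n → ω ∉ F n} = 0 := by
    intro M
    set M' := max M n₀ with hM'
    have hnn : ∀ n, 0 ≤ w n * P.real (F n) := fun n => mul_nonneg (hw n) measureReal_nonneg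
    have hns2 : ¬ Summable fun n => w (n + M') * P.real (F (n + M')) := fun h =>
      hns ((summable_nat_add_iff M').1 h)
    have ht : Tendsto (fun N => ∑ n ∈ range N, w (n + M') * P.real (F (n + M'))) atTop atTop :=
      (not_summable_iff_tendsto_nat_atTop_of_nonneg fun n => hnn _).1 hns2
    have hle : ∀ᶠ N in atTop, P.real {ω | ∀ n, M ≤ n → ω ∉ F n} ≤
        C / ∑ n ∈ range N, w (n + M') * P.real (F (n + M')) := by
      filter_upwards [ht.eventually_gt_atTop 0] with N hN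
      have hmap : ∑ n ∈ range N, w (n + M') * P.real (F (n + M')) =
          ∑ n ∈ (range N).map (addRightEmbedding M'), w n * P.real (F n) := by
        rw [Finset.sum_map]
        rfl
      have hmemT : ∀ n ∈ (range N).map (addRightEmbedding M'), M' ≤ n := by
        intro n hn
        rw [Finset.mem_map] at hn
        obtain ⟨k, _, rfl⟩ := hn
        simp [addRightEmbedding]
      rw [hmap] at hN ⊢
      refine le_trans (measureReal_mono ?_) (bc_fin hF hw near _ ?_ ?_ hN)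
      · intro ω hω n hn
        exact hω n ((le_max_left _ _).trans (hmemT n hn))
      · intro m hm n hn
        exact hind m ((le_max_right _ _).trans (hmemT m hm)) n
          ((le_max_right _ _).trans (hmemT n hn))
      · intro n hn
        apply hC n ((le_max_right _ _).trans (hmemT n hn))
        intro m hm
        rw [Finset.mem_filter] at hm
        exact ⟨(le_max_right _ _).trans (hmemT m hm.1), hm.2⟩
    have hlim : Tendsto (fun N => C / ∑ n ∈ range N, w (n + M') * P.real (F (n + M'))) atTop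
        (𝓝 0) := ht.const_div_atTop C
    have h1 : P.real {ω | ∀ n, M ≤ n → ω ∉ F n} ≤ 0 := ge_of_tendsto hlim hle
    have h2 : P.real {ω | ∀ n, M ≤ n → ω ∉ F n} = 0 := le_antisymm h1 measureReal_nonneg
    rwa [measureReal_def, ENNReal.toReal_eq_zero_iff, or_iff_left (measure_ne_top P _)] at h2
  have h1 : ∀ᵐ ω ∂P, ∀ M : ℕ, ¬ ∀ n, M ≤ n → ω ∉ F n := by
    rw [ae_all_iff]
    intro M
    rw [ae_iff]
    simp only [not_not]
    exact h0 M
  filter_upwards [h1] with ω hω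
  rw [frequently_atTop]
  intro M
  have := hω M
  push Not at this
  exact this

end Pool.Agent.H34.ND
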