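import Pool.Agent.H34.ND.ShanksProb

/-! # Gluing two cell models at very sparse places -/

set_option autoImplicit false

namespace Pool.Agent.H34.ND

open MeasureTheory Filter Topology Finset

/-- a cell model whose empty windows have the probabilities `exp (-mass / l)`, roughly -/
structure Law (p s : ℕ → ℝ) (lab : ℕ → ℕ) (l : ℝ) : Prop where
  cells : Cells p s lab
  upper : ∀ θ : ℝ, 0 < θ → θ * l < 1 → ∃ C : ℝ, 1 ≤ C ∧ ∀ᶠ n : ℕ in atTop, ∀ b : ℕ, n ≤ b →
    cellP.real (Free (cellE p s lab) n b) ≤ C * Real.exp (-(θ * ∑ m ∈ Ioc n b, p m))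
  lower : ∀ θ : ℝ, 1 < θ * l → ∀ᶠ n : ℕ in atTop, ∀ b : ℕ, n ≤ b →
    Real.exp (-(θ * ∑ m ∈ Ioc n b, p m)) ≤ cellP.real (Free (cellE p s lab) n b)

lemma cell_law_upper {p : ℕ → ℝ} (hp : Dens p) {c : ℝ} (hc : 0 < c) (hc1 : c ≤ 1) {θ : ℝ}
    (hθ1 : 1 - c < Real.exp (-(θ * c))) (hθ0 : 0 < θ) :
    ∃ C : ℝ, 1 ≤ C ∧ ∀ᶠ n : ℕ in atTop, ∀ b : ℕ, n ≤ b →
      cellP.real (Free (cellE p (coff p c) (clab p c)) n b) ≤
      C * Real.exp (-(θ * ∑ m ∈ Ioc n b, p m)) := by
  set u := Real.exp (-(θ * c)) with hu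
  have hu1 : u < 1 := by
    rw [hu, Real.exp_lt_one_iff]
    have : 0 < θ * c := by positivity
    linarith
  set δ : ℝ := min ((u - (1 - c)) / 4) (c / 2) with hδ
  have hδ0 : 0 < δ := lt_min (by linarith) (by linarith)
  have hδ1 : δ ≤ (u - (1 - c)) / 4 := min_le_left _ _
  have hδ2 : δ ≤ c / 2 := min_le_right _ _
  set ρ := 1 - c + 2 * δ with hρ
  have hρ0 : 0 < ρ := by linarith
  have hρu : ρ < u := by linarith
  have hlog : Real.log ρ < -(θ * c) := by
    rw [Real.log_lt_iff_lt_exp hρ0]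
    exact hρu
  have hθc : 0 < θ * c := by positivity
  refine ⟨Real.exp (-2 * Real.log ρ), Real.one_le_exp (by linarith), ?_⟩
  filter_upwards [window_upper hp hc hc1 hδ0 (by linarith)] with n hn b hb
  refine (hn b hb).trans ?_
  rw [← Real.exp_add]
  apply Real.exp_le_exp.2
  have h1 : 0 ≤ ∑ m ∈ Ioc n b, p m := Finset.sum_nonneg fun m _ => hp.p0 m
  have h2 : Real.log ρ * ((∑ m ∈ Ioc n b, p m) / c - 2) =
      -2 * Real.log ρ + Real.log ρ * ((∑ m ∈ Ioc n b, p m) / c) := by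
    ring
  rw [h2]
  have h3 : Real.log ρ * ((∑ m ∈ Ioc n b, p m) / c) ≤ -(θ * c) * ((∑ m ∈ Ioc n b, p m) / c) :=
    mul_le_mul_of_nonneg_right hlog.le (by positivity)
  have h4 : -(θ * c) * ((∑ m ∈ Ioc n b, p m) / c) = -(θ * ∑ m ∈ Ioc n b, p m) := by
    field_simp
  linarith

lemma law_lower {p s : ℕ → ℝ} {lab : ℕ → ℕ} (h : Cells p s lab) {c θ : ℝ} (hc0 : 0 < c)
    (hc1 : c < 1) (hcθ : -Real.log (1 - c) / c ≤ θ) (hs : ∀ᶠ n : ℕ in atTop, s n + p n ≤ c) :
    ∀ᶠ n : ℕ in atTop, ∀ b : ℕ, n ≤ b →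
      Real.exp (-(θ * ∑ m ∈ Ioc n b, p m)) ≤ cellP.real (Free (cellE p s lab) n b) := by
  obtain ⟨N, hN⟩ := eventually_atTop.1 hs
  filter_upwards [eventually_ge_atTop N] with n hn b _
  have h1 := h.free_lower hc0 hc1 (a := n) (b := b) fun m hm => hN m (by
    rw [Finset.mem_Ioc] at hm
    omega)
  refine le_trans (Real.exp_le_exp.2 ?_) h1
  have h2 : 0 ≤ ∑ m ∈ Ioc n b, p m := Finset.sum_nonneg fun m _ => h.p0 m
  have h3 : (∑ m ∈ Ioc n b, p m) * (Real.log (1 - c) / c) =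
      -((∑ m ∈ Ioc n b, p m) * (-Real.log (1 - c) / c)) := by ring
  rw [h3, neg_le_neg_iff, mul_comm θ]
  exact mul_le_mul_of_nonneg_left hcθ h2

/-- cell models for all exponents -/
lemma exists_law {p : ℕ → ℝ} (hp : Dens p) {l : ℝ} (h0 : 0 ≤ l) (h1 : l ≤ 1) :
    ∃ (s : ℕ → ℝ) (lab : ℕ → ℕ), Law p s lab l := by
  rcases h1.eq_or_lt with rfl | h1
  · refine ⟨fun _ => 0, id, cells_id hp, ?_, ?_⟩
    · intro θ hθ0 hθ
      refine ⟨1, le_rfl, Eventually.of_forall fun n b hb => ?_⟩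
      rw [one_mul]
      refine ((cells_id hp).determinantal.negDep.le_exp hb).trans (Real.exp_le_exp.2 ?_)
      simp_rw [(cells_id hp).real_eq]
      have h2 : 0 ≤ ∑ m ∈ Ioc n b, p m := Finset.sum_nonneg fun m _ => hp.p0 m
      nlinarith
    · intro θ hθ
      rw [mul_one] at hθ
      obtain ⟨c, hc0, hc1, hcθ⟩ := exists_param hθ
      apply law_lower (cells_id hp) hc0 hc1 hcθ.le
      filter_upwards [hp.small hc0] with n hn
      rw [zero_add]
      exact hn
  · rcases h0.eq_or_lt with rfl | h0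
    · refine ⟨coff p 1, clab p 1, cells_coff hp one_pos le_rfl, ?_, ?_⟩
      · intro θ hθ0 _
        apply cell_law_upper hp one_pos le_rfl _ hθ0
        rw [sub_self]
        exact Real.exp_pos _
      · intro θ hθ
        rw [mul_zero] at hθ
        linarith
    · have hl1 : 1 < 1 / l := by rw [lt_div_iff₀ h0]; linarith
      obtain ⟨c, hc0, hc1, hcθ⟩ := exists_param hl1
      refine ⟨coff p c, clab p c, cells_coff hp hc0 hc1.le, ?_, ?_⟩
      · intro θ hθ0 hθ
        apply cell_law_upper hp hc0 hc1.le _ hθ0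
        have h2 : θ < 1 / l := by rw [lt_div_iff₀ h0]; exact hθ
        rw [← hcθ, lt_div_iff₀ hc0] at h2
        calc 1 - c = Real.exp (Real.log (1 - c)) := (Real.exp_log (by linarith)).symm
          _ < Real.exp (-(θ * c)) := Real.exp_lt_exp.2 (by linarith)
      · intro θ hθ
        have h2 : 1 / l < θ := by rw [div_lt_iff₀ h0]; exact hθ
        exact law_lower (cells_coff hp hc0 hc1.le) hc0 hc1 (by rw [hcθ]; exact h2.le)
          (coff_ev hp hc0)

/-- relabelling -/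
lemma free_congr {p s s' : ℕ → ℝ} {lab lab' : ℕ → ℕ} (h : Cells p s lab) (h' : Cells p s' lab')
    {φ : ℕ → ℕ} (hφ : Function.Injective φ) {a b : ℕ}
    (hl : ∀ n ∈ Ioc a b, lab' n = φ (lab n)) :
    cellP.real (Free (cellE p s' lab') a b) = cellP.real (Free (cellE p s lab) a b) := by
  rw [h.free, h'.free]
  have h1 : (Ioc a b).image lab' = ((Ioc a b).image lab).image φ := by
    rw [Finset.image_image]
    exact Finset.image_congr fun n hn => hl n hn
  rw [h1, Finset.prod_image fun x _ y _ hxy => hφ hxy]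
  refine Finset.prod_congr rfl fun l _ => ?_
  congr 1
  apply Finset.sum_congr _ fun _ _ => rfl
  ext n
  rw [Finset.mem_filter, Finset.mem_filter]
  constructor
  · rintro ⟨h2, h3⟩
    rw [hl n h2] at h3
    exact ⟨h2, hφ h3⟩
  · rintro ⟨h2, h3⟩
    exact ⟨h2, by rw [hl n h2, h3]⟩

/-! ### The epochs -/

/-- the beginnings of the epochs -/
def ept (i : ℕ) : ℕ := 2 ^ i.factorial

/-- the epochs with even index -/
def Pl (n : ℕ) : Prop := ∃ j, ept (2 * j) ≤ n ∧ n < ept (2 * j + 1)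

lemma ept_mono : Monotone ept := fun _ _ h => Nat.pow_le_pow_right (by norm_num)
  (Nat.factorial_le h)

lemma ept_succ (i : ℕ) : ept (i + 1) = ept i ^ (i + 1) := by
  unfold ept
  rw [← pow_mul, Nat.factorial_succ, mul_comm]

lemma two_le_ept (i : ℕ) : 2 ≤ ept i := by
  unfold ept
  calc 2 = 2 ^ 1 := rfl
    _ ≤ 2 ^ i.factorial := Nat.pow_le_pow_right (by norm_num) (Nat.factorial_pos i)

lemma le_ept (i : ℕ) : i ≤ ept i := by
  unfold ept
  exact (Nat.self_le_factorial i).trans (Nat.lt_pow_self (by norm_num)).le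

lemma ept_sq_le {i : ℕ} (hi : 1 ≤ i) : ept i * ept i ≤ ept (i + 1) := by
  rw [ept_succ, ← pow_two]
  exact Nat.pow_le_pow_right (by have := two_le_ept i; omega) (by omega)

lemma pl_even {j n : ℕ} (h1 : ept (2 * j) ≤ n) (h2 : n < ept (2 * j + 1)) : Pl n := ⟨j, h1, h2⟩

lemma pl_odd {j n : ℕ} (h1 : ept (2 * j + 1) ≤ n) (h2 : n < ept (2 * j + 2)) : ¬ Pl n := by
  rintro ⟨i, h3, h4⟩
  rcases le_or_gt i j with h | h
  · have : ept (2 * i + 1) ≤ ept (2 * j + 1) := ept_mono (by omega)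
    omega
  · have : ept (2 * j + 2) ≤ ept (2 * i) := ept_mono (by omega)
    omega

lemma ept_const (i : ℕ) : (∀ n, ept i ≤ n → n < ept (i + 1) → Pl n) ∨
    (∀ n, ept i ≤ n → n < ept (i + 1) → ¬ Pl n) := by
  rcases Nat.even_or_odd' i with ⟨j, rfl | rfl⟩
  · exact Or.inl fun n h1 h2 => pl_even h1 h2
  · exact Or.inr fun n h1 h2 => pl_odd h1 h2

lemma exists_epoch {n : ℕ} (hn : 2 ≤ n) : ∃ i, ept i ≤ n ∧ n < ept (i + 1) := by
  have h0 : ept 0 ≤ n := by simpa [ept] using hn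
  have hex : ∃ i, n < ept i := ⟨n + 1, lt_of_lt_of_le (Nat.lt_succ_self n) (le_ept (n + 1))⟩
  classical
  have h1 := Nat.find_spec hex
  have h2 : Nat.find hex ≠ 0 := by
    intro h
    rw [h] at h1
    omega
  obtain ⟨i, hi⟩ := Nat.exists_eq_succ_of_ne_zero h2
  refine ⟨i, ?_, ?_⟩
  · have := Nat.find_min hex (m := i) (by omega)
    omega
  · rw [← Nat.succ_eq_add_one, ← hi]
    exact h1

lemma epoch_large {n i K : ℕ} (h : n < ept (i + 1)) (hn : ept K ≤ n) : K ≤ i := by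
  by_contra hcon
  have : ept (i + 1) ≤ ept K := ept_mono (by omega)
  omega

/-! ### The glued model -/

open Classical in
/-- offsets of the glued model -/
noncomputable def glueS (s₁ s₂ : ℕ → ℝ) (n : ℕ) : ℝ := if Pl n then s₁ n else s₂ n

open Classical in
/-- labels of the glued model -/
noncomputable def glueL (lab₁ lab₂ : ℕ → ℕ) (n : ℕ) : ℕ :=
  if Pl n then 2 * lab₁ n else 2 * lab₂ n + 1

section
variable {p s₁ s₂ : ℕ → ℝ} {lab₁ lab₂ : ℕ → ℕ}

lemma glue_cells (h₁ : Cells p s₁ lab₁) (h₂ : Cells p s₂ lab₂) :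
    Cells p (glueS s₁ s₂) (glueL lab₁ lab₂) where
  p0 := h₁.p0
  s0 := by
    intro n
    unfold glueS
    split_ifs
    · exact h₁.s0 n
    · exact h₂.s0 n
  s1 := by
    intro n
    unfold glueS
    split_ifs
    · exact h₁.s1 n
    · exact h₂.s1 n
  disj := by
    classical
    intro m n hmn hl
    unfold glueL at hl
    have hi : ∀ k, ivl p (glueS s₁ s₂) k = if Pl k then ivl p s₁ k else ivl p s₂ k := by
      intro k
      unfold ivl glueS
      split_ifs <;> rfl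
    rw [hi m, hi n]
    split_ifs at hl ⊢ with h1 h2
    · exact h₁.disj m n hmn (by omega)
    · omega
    · omega
    · exact h₂.disj m n hmn (by omega)

lemma glue_free₁ (h₁ : Cells p s₁ lab₁) (h₂ : Cells p s₂ lab₂) {a b : ℕ}
    (h : ∀ n ∈ Ioc a b, Pl n) :
    cellP.real (Free (cellE p (glueS s₁ s₂) (glueL lab₁ lab₂)) a b) =
      cellP.real (Free (cellE p s₁ lab₁) a b) := by
  apply free_congr h₁ (glue_cells h₁ h₂) (φ := fun x => 2 * x)
    (fun x y hxy => by simp only at hxy; omega)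
  intro n hn
  rw [glueL, if_pos (h n hn)]

lemma glue_free₂ (h₁ : Cells p s₁ lab₁) (h₂ : Cells p s₂ lab₂) {a b : ℕ}
    (h : ∀ n ∈ Ioc a b, ¬ Pl n) :
    cellP.real (Free (cellE p (glueS s₁ s₂) (glueL lab₁ lab₂)) a b) =
      cellP.real (Free (cellE p s₂ lab₂) a b) := by
  apply free_congr h₂ (glue_cells h₁ h₂) (φ := fun x => 2 * x + 1)
    (fun x y hxy => by simp only at hxy; omega)
  intro n hn
  rw [glueL, if_neg (h n hn)]

variable {l₁ l₂ : ℝ}

/-- upper bound inside an epoch -/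
lemma glue_upper_epoch (h₁ : Law p s₁ lab₁ l₁) (h₂ : Law p s₂ lab₂ l₂) {θ : ℝ} (hθ0 : 0 < θ)
    (hθ₁ : θ * l₁ < 1) (hθ₂ : θ * l₂ < 1) : ∃ C : ℝ, 1 ≤ C ∧ ∀ᶠ N : ℕ in atTop, ∀ n b i : ℕ,
      N ≤ n → n ≤ b → ept i ≤ n + 1 → b < ept (i + 1) →
      cellP.real (Free (cellE p (glueS s₁ s₂) (glueL lab₁ lab₂)) n b) ≤
        C * Real.exp (-(θ * ∑ m ∈ Ioc n b, p m)) := by
  obtain ⟨C₁, hC₁, hev₁⟩ := h₁.upper θ hθ0 hθ₁
  obtain ⟨C₂, hC₂, hev₂⟩ := h₂.upper θ hθ0 hθ₂
  refine ⟨max C₁ C₂, hC₁.trans (le_max_left _ _), ?_⟩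
  obtain ⟨N₁, hN₁⟩ := eventually_atTop.1 hev₁
  obtain ⟨N₂, hN₂⟩ := eventually_atTop.1 hev₂
  filter_upwards [eventually_ge_atTop (max N₁ N₂)] with N hN n b i hn hb h1 h2
  rcases ept_const i with h | h
  · rw [glue_free₁ h₁.cells h₂.cells fun m hm => h m (by
      rw [Finset.mem_Ioc] at hm; omega) (by rw [Finset.mem_Ioc] at hm; omega)]
    refine (hN₁ n (by have := le_max_left N₁ N₂; omega) b hb).trans ?_
    exact mul_le_mul_of_nonneg_right (le_max_left _ _) (Real.exp_pos _).le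
  · rw [glue_free₂ h₁.cells h₂.cells fun m hm => h m (by
      rw [Finset.mem_Ioc] at hm; omega) (by rw [Finset.mem_Ioc] at hm; omega)]
    refine (hN₂ n (by have := le_max_right N₁ N₂; omega) b hb).trans ?_
    exact mul_le_mul_of_nonneg_right (le_max_right _ _) (Real.exp_pos _).le

/-- upper bound for all windows -/
lemma glue_upper (h₁ : Law p s₁ lab₁ l₁) (h₂ : Law p s₂ lab₂ l₂) {θ : ℝ} (hθ0 : 0 < θ)
    (hθ₁ : θ * l₁ < 1) (hθ₂ : θ * l₂ < 1) : ∃ C : ℝ, 1 ≤ C ∧ ∀ᶠ n : ℕ in atTop, ∀ b : ℕ,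
      n ≤ b → b ≤ 2 * n →
      cellP.real (Free (cellE p (glueS s₁ s₂) (glueL lab₁ lab₂)) n b) ≤
        C * Real.exp (-(θ * ∑ m ∈ Ioc n b, p m)) := by
  obtain ⟨C, hC, hev⟩ := glue_upper_epoch h₁ h₂ hθ0 hθ₁ hθ₂
  refine ⟨C * C, by nlinarith, ?_⟩
  obtain ⟨N, hN⟩ := hev.exists
  filter_upwards [eventually_ge_atTop (max N 4)] with n hn b hnb hb2
  have hnN : N ≤ n := (le_max_left _ _).trans hn
  have hn4 : 4 ≤ n := (le_max_right _ _).trans hn
  obtain ⟨i, hi1, hi2⟩ := exists_epoch (n := n + 1) (by omega)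
  have hexp : 0 ≤ Real.exp (-(θ * ∑ m ∈ Ioc n b, p m)) := (Real.exp_pos _).le
  rcases lt_or_ge b (ept (i + 1)) with h | h
  · refine (hN n b i hnN hnb hi1 h).trans ?_
    exact mul_le_mul_of_nonneg_right (by nlinarith) hexp
  · set x := ept (i + 1) - 1 with hx
    have hi1' : 1 ≤ i + 1 := by omega
    have h3 := ept_sq_le (i := i + 1) hi1'
    have h4 := two_le_ept (i + 1)
    have h5 : 2 * ept (i + 1) ≤ ept (i + 1) * ept (i + 1) := Nat.mul_le_mul_right _ h4
    have hnx : n ≤ x := by omega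
    have hxb : x ≤ b := by omega
    have h6 := hN n x i hnN hnx hi1 (by omega)
    have h7 := hN x b (i + 1) (by omega) hxb (by omega) (by
      show b < ept (i + 1 + 1)
      omega)
    have h8 := (glue_cells h₁.cells h₂.cells).determinantal.negDep.split hnx hxb
    refine h8.trans ((mul_le_mul h6 h7 measureReal_nonneg (by positivity)).trans (le_of_eq ?_))
    rw [← Finset.sum_Ioc_consecutive (fun m => p m) hnx hxb, mul_add, neg_add, Real.exp_add]
    ring

/-- lower bound inside an epoch -/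
lemma glue_lower_epoch (h₁ : Law p s₁ lab₁ l₁) (h₂ : Law p s₂ lab₂ l₂) {θ : ℝ}
    (hθ₁ : 1 < θ * l₁) (hθ₂ : 1 < θ * l₂) : ∀ᶠ N : ℕ in atTop, ∀ n b i : ℕ,
      N ≤ n → n ≤ b → ept i ≤ n + 1 → b < ept (i + 1) →
      Real.exp (-(θ * ∑ m ∈ Ioc n b, p m)) ≤
        cellP.real (Free (cellE p (glueS s₁ s₂) (glueL lab₁ lab₂)) n b) := by
  obtain ⟨N₁, hN₁⟩ := eventually_atTop.1 (h₁.lower θ hθ₁)
  obtain ⟨N₂, hN₂⟩ := eventually_atTop.1 (h₂.lower θ hθ₂)
  filter_upwards [eventually_ge_atTop (max N₁ N₂)] with N hN n b i hn hb h1 h2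
  rcases ept_const i with h | h
  · rw [glue_free₁ h₁.cells h₂.cells fun m hm => h m (by
      rw [Finset.mem_Ioc] at hm; omega) (by rw [Finset.mem_Ioc] at hm; omega)]
    exact hN₁ n (by have := le_max_left N₁ N₂; omega) b hb
  · rw [glue_free₂ h₁.cells h₂.cells fun m hm => h m (by
      rw [Finset.mem_Ioc] at hm; omega) (by rw [Finset.mem_Ioc] at hm; omega)]
    exact hN₂ n (by have := le_max_right N₁ N₂; omega) b hb

/-- lower bound inside an even epoch -/
lemma glue_lower_even (h₁ : Law p s₁ lab₁ l₁) (h₂ : Law p s₂ lab₂ l₂) {θ : ℝ}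
    (hθ₁ : 1 < θ * l₁) : ∀ᶠ N : ℕ in atTop, ∀ n b j : ℕ,
      N ≤ n → n ≤ b → ept (2 * j) ≤ n + 1 → b < ept (2 * j + 1) →
      Real.exp (-(θ * ∑ m ∈ Ioc n b, p m)) ≤
        cellP.real (Free (cellE p (glueS s₁ s₂) (glueL lab₁ lab₂)) n b) := by
  obtain ⟨N₁, hN₁⟩ := eventually_atTop.1 (h₁.lower θ hθ₁)
  filter_upwards [eventually_ge_atTop N₁] with N hN n b j hn hb h1 h2
  rw [glue_free₁ h₁.cells h₂.cells fun m hm => pl_even (j := j) (by
    rw [Finset.mem_Ioc] at hm; omega) (by rw [Finset.mem_Ioc] at hm; omega)]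
  exact hN₁ n (by omega) b hb

/-- upper bound inside an odd epoch -/
lemma glue_upper_odd (h₁ : Law p s₁ lab₁ l₁) (h₂ : Law p s₂ lab₂ l₂) {θ : ℝ} (hθ0 : 0 < θ)
    (hθ₂ : θ * l₂ < 1) : ∃ C : ℝ, 1 ≤ C ∧ ∀ᶠ N : ℕ in atTop, ∀ n b j : ℕ,
      N ≤ n → n ≤ b → ept (2 * j + 1) ≤ n + 1 → b < ept (2 * j + 2) →
      cellP.real (Free (cellE p (glueS s₁ s₂) (glueL lab₁ lab₂)) n b) ≤
        C * Real.exp (-(θ * ∑ m ∈ Ioc n b, p m)) := by
  obtain ⟨C₂, hC₂, hev₂⟩ := h₂.upper θ hθ0 hθ₂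
  refine ⟨C₂, hC₂, ?_⟩
  obtain ⟨N₂, hN₂⟩ := eventually_atTop.1 hev₂
  filter_upwards [eventually_ge_atTop N₂] with N hN n b j hn hb h1 h2
  rw [glue_free₂ h₁.cells h₂.cells fun m hm => pl_odd (j := j) (by
    rw [Finset.mem_Ioc] at hm; omega) (by rw [Finset.mem_Ioc] at hm; omega)]
  exact hN₂ n (by omega) b hb

end

/-! ### The exponents of the glued model -/

section
variable {p s₁ s₂ : ℕ → ℝ} {lab₁ lab₂ : ℕ → ℕ} {l₁ l₂ : ℝ}

lemma glue_density (hd : Tendsto (fun n : ℕ => p n * Real.log n) atTop (𝓝 1))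
    (h : Cells p (glueS s₁ s₂) (glueL lab₁ lab₂)) :
    Tendsto (fun n : ℕ => cellP.real (cellE p (glueS s₁ s₂) (glueL lab₁ lab₂) n) * Real.log n)
      atTop (𝓝 1) := by
  simp_rw [h.real_eq]
  exact hd

theorem glue_critical (hd : Tendsto (fun n : ℕ => p n * Real.log n) atTop (𝓝 1))
    (h₁ : Law p s₁ lab₁ l₁) (h₂ : Law p s₂ lab₂ l₂) (h0 : 0 ≤ l₂) (h21 : l₂ ≤ l₁) :
    critical (emp cellP (cellE p (glueS s₁ s₂) (glueL lab₁ lab₂))) = l₁ := by
  have hc := glue_cells h₁.cells h₂.cells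
  have hnd := hc.determinantal.negDep
  have hdens := glue_density hd hc
  refine le_antisymm ?_ ?_
  · apply csSup_le ⟨0, zero_mem fun n => emp_zero n⟩
    rintro lam ⟨hl, hns⟩
    by_contra hcon
    rw [not_le] at hcon
    apply hns
    have hl1 : 0 ≤ l₁ := h0.trans h21
    have hlam : 0 < lam := lt_of_le_of_lt hl1 hcon
    set θ : ℝ := 2 / (l₁ + lam) with hθ
    have hsum : 0 < l₁ + lam := by linarith
    have hθ0 : 0 < θ := by positivity
    have hθ1 : θ * l₁ < 1 := by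
      rw [hθ, div_mul_eq_mul_div, div_lt_one hsum]
      linarith
    have hθ2 : θ * l₂ < 1 := lt_of_le_of_lt (mul_le_mul_of_nonneg_left h21 hθ0.le) hθ1
    have hθl : 1 < θ * lam := by
      rw [hθ, div_mul_eq_mul_div, lt_div_iff₀ hsum]
      linarith
    obtain ⟨C, hC, hev⟩ := glue_upper h₁ h₂ hθ0 hθ1 hθ2
    set κ : ℝ := (1 + 1 / (θ * lam)) / 2 with hκ
    have hκ1 : κ < 1 := by
      have : 1 / (θ * lam) < 1 := by rw [div_lt_one (by linarith)]; exact hθl
      linarith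
    have hκθ : 1 < κ * (θ * lam) := by
      rw [hκ]
      have : (1 + 1 / (θ * lam)) / 2 * (θ * lam) = (θ * lam + 1) / 2 := by field_simp
      rw [this]
      linarith
    refine summable_of_ev (fun n => emp_nonneg lam n) ((summable_exp hκθ).mul_left C) ?_
    filter_upwards [hev, ev_floor_le lam, mass_lower hd hκ1 hlam] with n hn hfl hm
    refine (hn (win lam n) (le_win _ _) (by unfold win; omega)).trans ?_
    apply mul_le_mul_of_nonneg_left _ (by linarith)
    apply Real.exp_le_exp.2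
    have h3 := hm n le_rfl (by omega)
    have h4 : κ * lam * Real.log n ≤ ∑ m ∈ Ioc n (win lam n), p m := h3
    have h5 := mul_le_mul_of_nonneg_left h4 hθ0.le
    linarith
  · have hbdd := bdd_of_spread (fun n => measureReal_nonneg) (spread_of_density hdens)
      (e := emp cellP (cellE p (glueS s₁ s₂) (glueL lab₁ lab₂)))
      (fun lam n => emp_nonneg lam n) (fun lam n => hnd.emp_le_exp lam n)
    apply le_critical hbdd
    intro lam hl0 hl1 hs
    have hl1pos : 0 < l₁ := by linarith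
    set θ : ℝ := 2 / (l₁ + lam) with hθ
    have hsum : 0 < l₁ + lam := by linarith
    have hθ0 : 0 < θ := by positivity
    have hθ1 : 1 < θ * l₁ := by
      rw [hθ, div_mul_eq_mul_div, lt_div_iff₀ hsum]
      linarith
    have hθl : θ * lam < 1 := by
      rw [hθ, div_mul_eq_mul_div, div_lt_one hsum]
      linarith
    have hθlam : 0 < θ * lam := by positivity
    set κ : ℝ := 1 / (θ * lam) with hκ
    have hκ1 : 1 < κ := by rw [hκ, lt_div_iff₀ hθlam]; linarith
    have hκθ : κ * (θ * lam) = 1 := by rw [hκ]; field_simp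
    -- lower bound of the probabilities in the even epochs
    have hlow : ∀ᶠ n : ℕ in atTop, ∀ j : ℕ, ept (2 * j) ≤ n → 4 * n ≤ ept (2 * j + 1) →
        Real.exp (-(1 * Real.log n)) ≤
          emp cellP (cellE p (glueS s₁ s₂) (glueL lab₁ lab₂)) lam n := by
      obtain ⟨N, hN⟩ := (glue_lower_even h₁ h₂ hθ1).exists
      filter_upwards [eventually_ge_atTop (max N 1), ev_floor_le lam, mass_upper hd hκ1 hl0.le]
        with n hn hfl hm j hj1 hj2
      have hn1 : 1 ≤ n := (le_max_right _ _).trans hn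
      have h3 := hN n (win lam n) j ((le_max_left _ _).trans hn) (le_win _ _) (by omega) (by
        unfold win
        omega)
      refine le_trans (Real.exp_le_exp.2 ?_) h3
      have h4 := hm n le_rfl
      have h5 : ∑ m ∈ Ioc n (win lam n), p m ≤ κ * lam * Real.log n := h4
      have h6 := mul_le_mul_of_nonneg_left h5 hθ0.le
      have h7 : θ * (κ * lam * Real.log n) = 1 * Real.log n := by
        rw [← hκθ]
        ring
      linarith
    -- the tails of the series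
    rw [summable_iff_vanishing_norm] at hs
    obtain ⟨F, hF⟩ := hs (1 / 4) (by norm_num)
    obtain ⟨N, hN⟩ := eventually_atTop.1 hlow
    set j : ℕ := max N (F.sup id + 1) + 3 with hj
    set T := ept (2 * j) with hT
    have hTj : 2 * j ≤ T := le_ept _
    have hT1 : N ≤ T := by
      have := le_max_left N (F.sup id + 1)
      omega
    have hT8 : 8 * T ≤ ept (2 * j + 1) := by
      have h3 := ept_sq_le (i := 2 * j) (by omega)
      have h4 : 8 ≤ T := by
        have : 4 ≤ 2 * j := by omega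
        have h5 : ept 4 ≤ T := ept_mono this
        have h6 : ept 4 = 2 ^ 24 := by simp [ept, Nat.factorial]
        rw [h6] at h5
        omega
      have h5 : 8 * T ≤ T * T := Nat.mul_le_mul_right _ h4
      rw [← hT] at h3
      omega
    have hdisj : Disjoint (Ico T (2 * T)) F := by
      rw [Finset.disjoint_left]
      intro m hm hmF
      rw [Finset.mem_Ico] at hm
      have h3 : m ≤ F.sup id := Finset.le_sup (f := id) hmF
      have := le_max_right N (F.sup id + 1)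
      omega
    have h3 := hF _ hdisj
    rw [Real.norm_eq_abs] at h3
    have h4 : ∑ n ∈ Ico T (2 * T), (1 / (2 * (T:ℝ))) ≤
        ∑ n ∈ Ico T (2 * T), emp cellP (cellE p (glueS s₁ s₂) (glueL lab₁ lab₂)) lam n := by
      refine Finset.sum_le_sum fun n hn => ?_
      rw [Finset.mem_Ico] at hn
      refine le_trans ?_ (hN n (by omega) j hn.1 (by omega))
      have hT0 : 0 < T := by
        have := two_le_ept (2 * j)
        omega
      have hn0 : (0:ℝ) < n := by
        have : 0 < n := by omega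
        exact_mod_cast this
      rw [one_mul, Real.exp_neg, Real.exp_log hn0, inv_eq_one_div]
      apply one_div_le_one_div_of_le hn0
      have : n ≤ 2 * T := hn.2.le
      exact_mod_cast this
    rw [Finset.sum_const, Nat.card_Ico, nsmul_eq_mul] at h4
    have h5 : ((2 * T - T : ℕ) : ℝ) = T := by
      have : 2 * T - T = T := by omega
      rw [this]
    rw [h5] at h4
    have hT0 : (0:ℝ) < T := by
      have := two_le_ept (2 * j)
      have : 0 < T := by omega
      exact_mod_cast this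
    have h6 : (T:ℝ) * (1 / (2 * (T:ℝ))) = 1 / 2 := by field_simp
    rw [h6] at h4
    have h7 := le_abs_self
      (∑ n ∈ Ico T (2 * T), emp cellP (cellE p (glueS s₁ s₂) (glueL lab₁ lab₂)) lam n)
    linarith

end

end Pool.Agent.H34.ND
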