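import Pool.Agent.H34.ND.Glue

/-! # The lower exponent of the glued model -/

set_option autoImplicit false

namespace Pool.Agent.H34.ND

open MeasureTheory Filter Topology Finset

lemma ev_floor_le_eighth (c : ℝ) : ∀ᶠ n : ℕ in atTop, 8 * ⌊c * Real.log n ^ 2⌋₊ ≤ n := by
  filter_upwards [ev_log_sq_le c (show (0:ℝ) < 1 / 8 by norm_num)] with n hn
  rcases le_or_gt 0 (c * Real.log n ^ 2) with h0 | h0
  · have h1 := Nat.floor_le h0
    have h2 : (8 * (⌊c * Real.log n ^ 2⌋₊ : ℕ) : ℝ) ≤ n := by linarith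
    exact_mod_cast h2
  · rw [Nat.floor_of_nonpos h0.le]
    simp

lemma tendsto_div_four : Tendsto (fun X : ℕ => X / 4) atTop atTop := by
  refine tendsto_atTop.2 fun b => ?_
  filter_upwards [eventually_ge_atTop (4 * b)] with X hX
  omega

variable {p s₁ s₂ : ℕ → ℝ} {lab₁ lab₂ : ℕ → ℕ} {l₁ l₂ : ℝ}

lemma glue_low_mem (hd : Tendsto (fun n : ℕ => p n * Real.log n) atTop (𝓝 1))
    (h₁ : Law p s₁ lab₁ l₁) (h₂ : Law p s₂ lab₂ l₂) (h21 : l₂ ≤ l₁) {lam : ℝ} (hl0 : 0 < lam)
    (hl : lam < l₂) : lam ∈ lowSet cellP (cellE p (glueS s₁ s₂) (glueL lab₁ lab₂)) := by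
  refine ⟨hl0.le, fun ε hε => ?_⟩
  have hsum : 0 < l₂ + lam := by linarith
  set θ : ℝ := 2 / (l₂ + lam) with hθ
  have hθ0 : 0 < θ := by positivity
  have hθ2 : 1 < θ * l₂ := by
    rw [hθ, div_mul_eq_mul_div, lt_div_iff₀ hsum]
    linarith
  have hθ1 : 1 < θ * l₁ := lt_of_lt_of_le hθ2 (mul_le_mul_of_nonneg_left h21 hθ0.le)
  have hθl : θ * lam < 1 := by
    rw [hθ, div_mul_eq_mul_div, div_lt_one hsum]
    linarith
  have hθlam : 0 < θ * lam := by positivity
  set t : ℝ := (1 + θ * lam) / 2 with ht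
  have ht1 : t < 1 := by linarith
  have ht2 : θ * lam < t := by linarith
  set ρ : ℝ := √(t / (θ * lam)) with hρ
  have hq : 1 < t / (θ * lam) := by rw [lt_div_iff₀ hθlam]; linarith
  have hρ1 : 1 < ρ := by
    rw [hρ, Real.lt_sqrt (by norm_num)]
    linarith
  have hρ2 : ρ * ρ = t / (θ * lam) := Real.mul_self_sqrt (by linarith)
  have hρs : 1 < √ρ := by
    rw [Real.lt_sqrt (by norm_num)]
    linarith
  have hρs2 : √ρ * √ρ = ρ := Real.mul_self_sqrt (by linarith)
  set η : ℝ := lam * ρ with hη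
  have hη0 : 0 < η := by positivity
  have hκη : θ * (ρ * η) = t := by
    rw [hη]
    have : θ * (ρ * (lam * ρ)) = θ * lam * (ρ * ρ) := by ring
    rw [this, hρ2]
    field_simp
  obtain ⟨N₀, hN₀⟩ := (glue_lower_epoch h₁ h₂ hθ1 hθ2).exists
  have h4 := tendsto_div_four
  filter_upwards [h4.eventually (mass_upper hd hρ1 hη0.le),
    h4.eventually (ev_log_mul (Real.log 8) hρs), ev_floor_le_eighth lam,
    eventually_ge_atTop (4 * N₀), eventually_ge_atTop (ept 4),
    tendsto_log_nat.eventually_ge_atTop (Real.log 16 / (1 - t)), eventually_ge_atTop 64] with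
    X hmass hlog8 hH hXN hX4 hXt hX64
  set H := ⌊lam * Real.log X ^ 2⌋₊ with hHdef
  have hXpos : (0:ℝ) < X := by
    have : 0 < X := by omega
    exact_mod_cast this
  have hn₀pos : (0:ℝ) < ((X / 4 : ℕ) : ℝ) := by
    have : 0 < X / 4 := by omega
    exact_mod_cast this
  have hL : 0 ≤ Real.log X := Real.log_natCast_nonneg _
  have hL4 : 0 ≤ Real.log ((X / 4 : ℕ) : ℝ) := Real.log_natCast_nonneg _
  have hlogX : Real.log X ≤ √ρ * Real.log ((X / 4 : ℕ) : ℝ) := by
    refine le_trans ?_ hlog8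
    rw [← Real.log_mul hn₀pos.ne' (by norm_num)]
    apply Real.log_le_log hXpos
    have : X ≤ X / 4 * 8 := by omega
    exact_mod_cast this
  have hHle : H ≤ ⌊η * Real.log ((X / 4 : ℕ) : ℝ) ^ 2⌋₊ := by
    apply Nat.floor_mono
    calc lam * Real.log X ^ 2 ≤ lam * (√ρ * Real.log ((X / 4 : ℕ) : ℝ)) ^ 2 := by gcongr
      _ = η * Real.log ((X / 4 : ℕ) : ℝ) ^ 2 := by
        rw [hη, mul_pow, sq (√ρ), hρs2]
        ring
  -- the probability of a window inside an epoch
  have hwin : ∀ n i : ℕ, X / 4 ≤ n → ept i ≤ n + 1 → n + H < ept (i + 1) →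
      Real.exp (-(t * Real.log X)) ≤
        cellP.real (Free (cellE p (glueS s₁ s₂) (glueL lab₁ lab₂)) n (n + H)) := by
    intro n i hn hi1 hi2
    refine le_trans (Real.exp_le_exp.2 ?_) (hN₀ n (n + H) i (by omega) (Nat.le_add_right _ _) hi1 hi2)
    have h5 := hmass n hn
    have h6 : ∑ m ∈ Ioc n (n + H), p m ≤
        ∑ m ∈ Ioc n (n + ⌊η * Real.log ((X / 4 : ℕ) : ℝ) ^ 2⌋₊), p m :=
      Finset.sum_le_sum_of_subset_of_nonneg (Finset.Ioc_subset_Ioc_right (by omega))
        fun m _ _ => h₁.cells.p0 m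
    have h7 : Real.log ((X / 4 : ℕ) : ℝ) ≤ Real.log X := by
      apply Real.log_le_log hn₀pos
      have : X / 4 ≤ X := Nat.div_le_self _ _
      exact_mod_cast this
    have h8 : ρ * η * Real.log ((X / 4 : ℕ) : ℝ) ≤ ρ * η * Real.log X :=
      mul_le_mul_of_nonneg_left h7 (by positivity)
    have h9 : θ * (∑ m ∈ Ioc n (n + H), p m) ≤ θ * (ρ * η * Real.log X) :=
      mul_le_mul_of_nonneg_left (by linarith) hθ0.le
    have h10 : θ * (ρ * η * Real.log X) = t * Real.log X := by
      rw [← hκη]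
      ring
    linarith
  -- the range of the windows
  obtain ⟨A, hA1, hA2, hA3⟩ : ∃ A : ℕ, X / 4 ≤ A ∧ A + X / 8 ≤ X ∧ ∀ n ∈ Ico A (A + X / 8),
      Real.exp (-(t * Real.log X)) ≤
        cellP.real (Free (cellE p (glueS s₁ s₂) (glueL lab₁ lab₂)) n (n + H)) := by
    obtain ⟨i, hi1, hi2⟩ := exists_epoch (n := X) (by omega)
    have hi4 : 4 ≤ i := epoch_large hi2 hX4
    rcases le_or_gt (ept i) (X / 2) with hcase | hcase
    · refine ⟨X / 2, by omega, by omega, fun n hn => ?_⟩
      rw [Finset.mem_Ico] at hn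
      exact hwin n i (by omega) (by omega) (by omega)
    · refine ⟨X / 4, le_rfl, by omega, fun n hn => ?_⟩
      rw [Finset.mem_Ico] at hn
      obtain ⟨i', rfl⟩ : ∃ i', i = i' + 1 := ⟨i - 1, by omega⟩
      have h5 := ept_sq_le (i := i') (by omega)
      have h6 : 8 ≤ ept i' := by
        have h7 : ept 3 ≤ ept i' := ept_mono (by omega)
        have h8 : ept 3 = 64 := by simp [ept, Nat.factorial]
        omega
      have h7 : 8 * ept i' ≤ ept i' * ept i' := Nat.mul_le_mul_right _ h6
      exact hwin n i' (by omega) (by omega) (by omega)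
  have hcard : (X:ℝ) / 16 ≤ ((X / 8 : ℕ) : ℝ) := by
    have h5 : X ≤ 16 * (X / 8) := by omega
    have h6 : (X:ℝ) ≤ 16 * ((X / 8 : ℕ) : ℝ) := by exact_mod_cast h5
    linarith
  have hS : ((X / 8 : ℕ) : ℝ) * Real.exp (-(t * Real.log X)) ≤
      empSum cellP (cellE p (glueS s₁ s₂) (glueL lab₁ lab₂)) lam X := by
    have h5 := Finset.card_nsmul_le_sum _ _ _ hA3
    rw [Nat.card_Ico, nsmul_eq_mul] at h5
    have h6 : A + X / 8 - A = X / 8 := by omega
    rw [h6] at h5
    refine h5.trans ?_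
    unfold empSum
    apply Finset.sum_le_sum_of_subset_of_nonneg
    · intro m hm
      rw [Finset.mem_Ico] at hm
      rw [Finset.mem_range]
      omega
    · intro _ _ _
      exact measureReal_nonneg
  have h1t : 0 < 1 - t := by linarith
  rw [div_le_iff₀ h1t] at hXt
  have hbig : (1:ℝ) ≤ (X:ℝ) / 16 * Real.exp (-(t * Real.log X)) := by
    have h5 : (X:ℝ) / 16 * Real.exp (-(t * Real.log X)) =
        Real.exp ((1 - t) * Real.log X - Real.log 16) := by
      rw [sub_mul, one_mul, sub_sub, sub_eq_add_neg, Real.exp_add, Real.exp_log hXpos, neg_add,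
        Real.exp_add, Real.exp_neg (Real.log 16), Real.exp_log (by norm_num)]
      ring
    rw [h5]
    apply Real.one_le_exp
    linarith
  have h1 : Real.exp (-(ε * Real.log X)) ≤ 1 := by
    rw [Real.exp_le_one_iff]
    have : 0 ≤ ε * Real.log X := mul_nonneg hε.le hL
    linarith
  have h2 : (X:ℝ) / 16 * Real.exp (-(t * Real.log X)) ≤
      ((X / 8 : ℕ) : ℝ) * Real.exp (-(t * Real.log X)) :=
    mul_le_mul_of_nonneg_right hcard (Real.exp_pos _).le
  linarith

lemma ept_half_tendsto : Tendsto (fun j : ℕ => ept (2 * j + 2) / 2) atTop atTop := by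
  refine tendsto_atTop.2 fun b => ?_
  filter_upwards [eventually_ge_atTop b] with j hj
  have := le_ept (2 * j + 2)
  omega

lemma glue_low_not_mem (hd : Tendsto (fun n : ℕ => p n * Real.log n) atTop (𝓝 1))
    (h₁ : Law p s₁ lab₁ l₁) (h₂ : Law p s₂ lab₂ l₂) (h0 : 0 ≤ l₂) {lam : ℝ}
    (hl : l₂ < lam) : lam ∉ lowSet cellP (cellE p (glueS s₁ s₂) (glueL lab₁ lab₂)) := by
  intro hmem
  have hc := glue_cells h₁.cells h₂.cells
  have hnd := hc.determinantal.negDep
  have hlam : 0 < lam := lt_of_le_of_lt h0 hl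
  have hsum : 0 < l₂ + lam := by linarith
  set θ : ℝ := 2 / (l₂ + lam) with hθ
  have hθ0 : 0 < θ := by positivity
  have hθ2 : θ * l₂ < 1 := by
    rw [hθ, div_mul_eq_mul_div, div_lt_one hsum]
    linarith
  have hθl : 1 < θ * lam := by
    rw [hθ, div_mul_eq_mul_div, lt_div_iff₀ hsum]
    linarith
  set κ : ℝ := (1 + 1 / (θ * lam)) / 2 with hκ
  have hκ1 : κ < 1 := by
    have : 1 / (θ * lam) < 1 := by rw [div_lt_one (by linarith)]; exact hθl
    linarith
  have hκ0 : 0 < κ := by
    have : 0 < 1 / (θ * lam) := by positivity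
    linarith
  have hκθ : 1 < κ * (θ * lam) := by
    rw [hκ]
    have : (1 + 1 / (θ * lam)) / 2 * (θ * lam) = (θ * lam + 1) / 2 := by field_simp
    rw [this]
    linarith
  set e₁ : ℝ := (κ * (θ * lam) - 1) / 2 with he₁
  have he₁0 : 0 < e₁ := by linarith
  set ε : ℝ := min e₁ (κ * lam / 4) with hε
  have hκl : 0 < κ * lam := by positivity
  have hε0 : 0 < ε := lt_min he₁0 (by linarith)
  have hε1 : ε ≤ e₁ := min_le_left _ _
  have hε2 : ε ≤ κ * lam / 4 := min_le_right _ _
  obtain ⟨C, hC, hev⟩ := glue_upper_odd h₁ h₂ hθ0 hθ2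
  obtain ⟨N, hN⟩ := hev.exists
  have hX := ept_half_tendsto
  obtain ⟨j, ⟨hj1, hj2⟩, ⟨hj3, hj4⟩, ⟨hj5, hj6⟩, hj7, hj8⟩ :=
    (((hX.eventually (hmem.2 ε hε0)).and (hX.eventually (mass_X h₁.cells.p0 hd hκ1 hlam))).and
    (((hX.eventually (ev_floor_le_eighth lam)).and
      (hX.eventually (tendsto_log_nat.eventually_gt_atTop (Real.log (4 * C) / e₁)))).and
    (((hX.eventually (tendsto_log_nat.eventually_gt_atTop (2 * Real.log 2 / (κ * lam)))).and
      (eventually_ge_atTop (N + 1))).and
      ((eventually_ge_atTop ⌈4 / (κ * lam)⌉₊).and (eventually_ge_atTop 1))))).exists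
  set X := ept (2 * j + 2) / 2 with hXdef
  set H := ⌊lam * Real.log X ^ 2⌋₊ with hHdef
  have hept : 2 * X ≤ ept (2 * j + 2) := by omega
  have hept' : ept (2 * j + 2) = 2 * X := by
    have h3 : ept (2 * j + 2) = 2 * 2 ^ ((2 * j + 2).factorial - 1) := by
      unfold ept
      rw [← pow_succ']
      congr 1
      have := Nat.factorial_pos (2 * j + 2)
      omega
    omega
  have hXj : j ≤ X := by
    have := le_ept (2 * j + 2)
    omega
  have hXpos : (0:ℝ) < X := by
    have : 0 < X := by omega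
    exact_mod_cast this
  have hX1 : (1:ℝ) ≤ X := by
    have : 1 ≤ X := by omega
    exact_mod_cast this
  have hL : 0 ≤ Real.log X := Real.log_natCast_nonneg _
  -- the two parts of the sum
  have hpart : empSum cellP (cellE p (glueS s₁ s₂) (glueL lab₁ lab₂)) lam X ≤
      (ept (2 * j + 1) : ℝ) * Real.exp (-(κ * lam * Real.log X)) +
        ((X:ℝ) + 1) * (C * Real.exp (-(κ * (θ * lam) * Real.log X))) := by
    unfold empSum
    have hterm : ∀ n ∈ range (X + 1),
        cellP.real (Free (cellE p (glueS s₁ s₂) (glueL lab₁ lab₂)) n (n + H)) ≤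
          (if n < ept (2 * j + 1) then Real.exp (-(κ * lam * Real.log X)) else 0) +
            C * Real.exp (-(κ * (θ * lam) * Real.log X)) := by
      intro n hn
      rw [Finset.mem_range] at hn
      have hm := hj2 n (by omega)
      have hm' : κ * lam * Real.log X ≤ ∑ m ∈ Ioc n (n + H), p m := hm
      split_ifs with hlt
      · have h3 := hnd.le_exp (Nat.le_add_right n H)
        simp_rw [hc.real_eq] at h3
        have h4 : Real.exp (-∑ m ∈ Ioc n (n + H), p m) ≤ Real.exp (-(κ * lam * Real.log X)) :=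
          Real.exp_le_exp.2 (by linarith)
        have h5 : 0 ≤ C * Real.exp (-(κ * (θ * lam) * Real.log X)) :=
          mul_nonneg (by linarith) (Real.exp_pos _).le
        linarith
      · rw [zero_add]
        have hjj := le_ept (2 * j + 1)
        refine (hN n (n + H) j (by omega) (Nat.le_add_right _ _) (by omega) (by omega)).trans ?_
        apply mul_le_mul_of_nonneg_left _ (by linarith)
        apply Real.exp_le_exp.2
        have h5 := mul_le_mul_of_nonneg_left hm' hθ0.le
        linarith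
    refine (Finset.sum_le_sum hterm).trans ?_
    rw [Finset.sum_add_distrib]
    apply add_le_add
    · rw [← Finset.sum_filter, Finset.sum_const, nsmul_eq_mul]
      apply mul_le_mul_of_nonneg_right _ (Real.exp_pos _).le
      have h3 : (range (X + 1)).filter (fun n => n < ept (2 * j + 1)) ⊆ range (ept (2 * j + 1)) := by
        intro n hn
        rw [Finset.mem_filter] at hn
        exact Finset.mem_range.2 hn.2
      have h4 := Finset.card_le_card h3
      rw [Finset.card_range] at h4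
      exact_mod_cast h4
    · rw [Finset.sum_const, Finset.card_range, nsmul_eq_mul]
      push_cast
      exact le_rfl
  -- first part
  have hP1 : (ept (2 * j + 1) : ℝ) * Real.exp (-(κ * lam * Real.log X)) <
      1 / 2 * Real.exp (-(ε * Real.log X)) := by
    set ell := Real.log (ept (2 * j + 1)) with hell
    have he0 : (0:ℝ) < ept (2 * j + 1) := by
      have := two_le_ept (2 * j + 1)
      have : 0 < ept (2 * j + 1) := by omega
      exact_mod_cast this
    have hell0 : Real.log 2 ≤ ell := by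
      apply Real.log_le_log (by norm_num)
      exact_mod_cast two_le_ept (2 * j + 1)
    have h3 : Real.log (ept (2 * j + 2)) = (2 * j + 2 : ℕ) * ell := by
      rw [show 2 * j + 2 = (2 * j + 1) + 1 by ring, ept_succ]
      push_cast
      rw [Real.log_pow]
      push_cast
      rfl
    have h4 : Real.log (ept (2 * j + 2)) = Real.log 2 + Real.log X := by
      rw [hept']
      push_cast
      rw [Real.log_mul (by norm_num) hXpos.ne']
    have h5 : (2 * (j:ℝ) + 1) * ell ≤ Real.log X := by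
      push_cast at h3
      rw [h4] at h3
      linarith
    have h6 : 4 / (κ * lam) ≤ j := (Nat.le_ceil _).trans (by exact_mod_cast hj7)
    rw [div_le_iff₀ hκl] at h6
    have hl2 : 0 < Real.log 2 := Real.log_pos (by norm_num)
    have hell1 : 0 < ell := lt_of_lt_of_le hl2 hell0
    have h7 : ell ≤ κ * lam / 4 * Real.log X := by
      have h8 : (κ * lam / 4) * ((2 * (j:ℝ) + 1) * ell) ≤ κ * lam / 4 * Real.log X :=
        mul_le_mul_of_nonneg_left h5 (by positivity)
      have h9 : ell ≤ (κ * lam / 4) * ((2 * (j:ℝ) + 1) * ell) := by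
        have h10 : 1 ≤ κ * lam / 4 * (2 * (j:ℝ) + 1) := by nlinarith
        nlinarith
      linarith
    have h8 : (ept (2 * j + 1) : ℝ) = Real.exp ell := (Real.exp_log he0).symm
    have h9 : (1:ℝ) / 2 = Real.exp (-Real.log 2) := by
      rw [Real.exp_neg, Real.exp_log (by norm_num)]
      norm_num
    rw [h8, h9, ← Real.exp_add, ← Real.exp_add]
    apply Real.exp_lt_exp.2
    rw [div_lt_iff₀ hκl] at hj5
    have h10 : ε * Real.log X ≤ κ * lam / 4 * Real.log X := mul_le_mul_of_nonneg_right hε2 hL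
    linarith
  -- second part
  have hP2 : ((X:ℝ) + 1) * (C * Real.exp (-(κ * (θ * lam) * Real.log X))) <
      1 / 2 * Real.exp (-(ε * Real.log X)) := by
    have h3 : ((X:ℝ) + 1) * (C * Real.exp (-(κ * (θ * lam) * Real.log X))) ≤
        2 * X * (C * Real.exp (-(κ * (θ * lam) * Real.log X))) := by
      apply mul_le_mul_of_nonneg_right (by linarith)
      exact mul_nonneg (by linarith) (Real.exp_pos _).le
    refine lt_of_le_of_lt h3 ?_
    have hC0 : 0 < C := by linarith
    have h4 : 2 * (X:ℝ) * (C * Real.exp (-(κ * (θ * lam) * Real.log X))) =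
        1 / 2 * Real.exp (Real.log (4 * C) + Real.log X - κ * (θ * lam) * Real.log X) := by
      rw [sub_eq_add_neg, Real.exp_add, Real.exp_add, Real.exp_log (by positivity),
        Real.exp_log hXpos]
      ring
    rw [h4]
    apply mul_lt_mul_of_pos_left _ (by norm_num)
    apply Real.exp_lt_exp.2
    rw [div_lt_iff₀ he₁0] at hj4
    have h5 : κ * (θ * lam) * Real.log X = (2 * e₁ + 1) * Real.log X := by
      rw [he₁]
      ring
    rw [h5]
    have h6 : ε * Real.log X ≤ e₁ * Real.log X := mul_le_mul_of_nonneg_right hε1 hL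
    linarith
  linarith

theorem glue_lowExp (hd : Tendsto (fun n : ℕ => p n * Real.log n) atTop (𝓝 1))
    (h₁ : Law p s₁ lab₁ l₁) (h₂ : Law p s₂ lab₂ l₂) (h0 : 0 ≤ l₂) (h21 : l₂ ≤ l₁) :
    lowExp cellP (cellE p (glueS s₁ s₂) (glueL lab₁ lab₂)) = l₂ := by
  have hc := glue_cells h₁.cells h₂.cells
  have hnd := hc.determinantal.negDep
  have hdens := glue_density hd hc
  refine le_antisymm ?_ ?_
  · apply csSup_le ⟨0, lowSet_zero⟩
    intro lam hlam
    by_contra hcon
    rw [not_le] at hcon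
    exact glue_low_not_mem hd h₁ h₂ h0 hcon hlam
  · by_contra hcon
    rw [not_le] at hcon
    have h1 : 0 ≤ lowExp cellP (cellE p (glueS s₁ s₂) (glueL lab₁ lab₂)) := lowExp_nonneg
    have h2 := glue_low_mem hd h₁ h₂ h21
      (lam := (lowExp cellP (cellE p (glueS s₁ s₂) (glueL lab₁ lab₂)) + l₂) / 2)
      (by linarith) (by linarith)
    have h3 := le_csSup (hnd.lowSet_bdd hdens) h2
    change _ ≤ lowExp cellP (cellE p (glueS s₁ s₂) (glueL lab₁ lab₂)) at h3
    linarith

end Pool.Agent.H34.ND
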