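import Pool.Agent.H34.ND.Gaps

/-! # The Cramér constant of a negatively dependent random set -/

set_option autoImplicit false

namespace Pool.Agent.H34.ND

open MeasureTheory Filter Topology Finset

lemma tendsto_log_nat : Tendsto (fun n : ℕ => Real.log n) atTop atTop :=
  Real.tendsto_log_atTop.comp tendsto_natCast_atTop_atTop

lemma ev_log_sq_le (c : ℝ) {ε : ℝ} (hε : 0 < ε) :
    ∀ᶠ n : ℕ in atTop, c * Real.log n ^ 2 ≤ ε * n := by
  have h1 : (fun x : ℝ => Real.log x ^ 2) =o[atTop] fun x : ℝ => x :=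
    Real.isLittleO_pow_log_id_atTop
  have h2 := (h1.const_mul_left c).def hε
  have h3 := tendsto_natCast_atTop_atTop.eventually h2
  filter_upwards [h3] with n hn
  rw [Real.norm_eq_abs, Real.norm_eq_abs, abs_of_nonneg (Nat.cast_nonneg (α := ℝ) n)] at hn
  exact (le_abs_self _).trans hn

lemma ev_floor_le (c : ℝ) : ∀ᶠ n : ℕ in atTop, ⌊c * Real.log n ^ 2⌋₊ ≤ n := by
  filter_upwards [ev_log_sq_le c one_pos] with n hn
  apply Nat.floor_le_of_le
  linarith

lemma ev_floor_le_half (c : ℝ) : ∀ᶠ n : ℕ in atTop, 2 * ⌊c * Real.log n ^ 2⌋₊ ≤ n := by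
  filter_upwards [ev_log_sq_le c (show (0:ℝ) < 1 / 2 by norm_num)] with n hn
  rcases le_or_gt 0 (c * Real.log n ^ 2) with h0 | h0
  · have h1 := Nat.floor_le h0
    have h2 : (2 * (⌊c * Real.log n ^ 2⌋₊ : ℕ) : ℝ) ≤ n := by linarith
    exact_mod_cast h2
  · rw [Nat.floor_of_nonpos h0.le]
    simp

lemma win_mono {a b : ℝ} (hab : a ≤ b) (n : ℕ) : win a n ≤ win b n := by
  unfold win
  have : ⌊a * Real.log n ^ 2⌋₊ ≤ ⌊b * Real.log n ^ 2⌋₊ := Nat.floor_mono (by gcongr)
  omega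

lemma le_win (a : ℝ) (n : ℕ) : n ≤ win a n := Nat.le_add_right _ _

section
variable {Ω : Type*} [MeasurableSpace Ω] {P : Measure Ω} [IsProbabilityMeasure P] {E : ℕ → Set Ω}

lemma emp_nonneg (lam : ℝ) (n : ℕ) : 0 ≤ emp P E lam n := measureReal_nonneg

lemma emp_anti {a b : ℝ} (hab : a ≤ b) (n : ℕ) : emp P E b n ≤ emp P E a n :=
  measureReal_mono (free_mono le_rfl (win_mono hab n))

lemma emp_zero (n : ℕ) : emp P E 0 n = 1 := by
  unfold emp win
  have : Free E n (n + ⌊(0:ℝ) * Real.log n ^ 2⌋₊) = Set.univ := by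
    ext ω
    simp only [Set.mem_univ, iff_true]
    intro m h1 h2
    simp at h2
    omega
  rw [this]
  simp

end

lemma zero_mem {e : ℝ → ℕ → ℝ} (h0 : ∀ n, e 0 n = 1) : (0:ℝ) ∈ {lam : ℝ | 0 ≤ lam ∧ ¬ Summable (e lam)} := by
  refine ⟨le_rfl, fun h => ?_⟩
  have h1 : (e 0) = fun _ => (1:ℝ) := funext h0
  rw [h1] at h
  simpa using h.tendsto_atTop_zero

lemma summable_of_ev {f g : ℕ → ℝ} (hf : ∀ n, 0 ≤ f n) (hg : Summable g)
    (h : ∀ᶠ n in atTop, f n ≤ g n) : Summable f := by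
  refine summable_of_isBigO_nat hg (Asymptotics.IsBigO.of_bound 1 ?_)
  filter_upwards [h] with n hn
  rw [Real.norm_eq_abs, Real.norm_eq_abs, abs_of_nonneg (hf n), one_mul]
  exact hn.trans (le_abs_self _)

lemma exp_log_eq {n : ℕ} (hn : 0 < n) (c : ℝ) : Real.exp (-(c * Real.log n)) = ((n:ℝ) ^ c)⁻¹ := by
  rw [Real.exp_neg, Real.rpow_def_of_pos (by exact_mod_cast hn), mul_comm]

lemma summable_exp {c : ℝ} (hc : 1 < c) : Summable fun n : ℕ => Real.exp (-(c * Real.log n)) := by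
  apply summable_of_ev (fun n => (Real.exp_pos _).le) (Real.summable_nat_rpow_inv.2 hc)
  filter_upwards [eventually_gt_atTop 0] with n hn
  rw [exp_log_eq hn]

/-- iterating `Spread` -/
lemma Spread.two {p : ℕ → ℝ} (hp : ∀ n, 0 ≤ p n) (h : Spread p) : ∃ K : ℝ, 0 ≤ K ∧
    ∀ᶠ n : ℕ in atTop, 2 * Real.log n ≤ ∑ m ∈ Ioc n (win K n), p m := by
  obtain ⟨δ, hδ, hev⟩ := h 1 one_pos
  obtain ⟨K, hK⟩ := exists_nat_ge (2 / δ)
  refine ⟨K, Nat.cast_nonneg K, ?_⟩
  filter_upwards [hev, ev_floor_le (K:ℝ), eventually_ge_atTop 1] with n hn hKn hn1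
  have hL : 0 ≤ Real.log n := Real.log_natCast_nonneg n
  have hfl : K * ⌊(1:ℝ) * Real.log n ^ 2⌋₊ ≤ ⌊(K:ℝ) * Real.log n ^ 2⌋₊ := by
    apply Nat.le_floor
    push_cast
    have := Nat.floor_le (show 0 ≤ (1:ℝ) * Real.log n ^ 2 by positivity)
    have h2 : (K:ℝ) * ⌊(1:ℝ) * Real.log n ^ 2⌋₊ ≤ K * (1 * Real.log n ^ 2) := by gcongr
    linarith
  set f := ⌊(1:ℝ) * Real.log n ^ 2⌋₊ with hf
  have key : ∀ k : ℕ, k ≤ K → k * (δ * Real.log n) ≤ ∑ m ∈ Ioc n (n + k * f), p m := by
    intro k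
    induction k with
    | zero => intro _; simp
    | succ k ih =>
      intro hk
      have h1 := ih (by omega)
      have h2 := hn (n + k * f) (by omega) (by
        have : k * f ≤ K * f := Nat.mul_le_mul_right _ (by omega)
        omega)
      have h3 : n + (k + 1) * f = n + k * f + f := by ring
      rw [h3, ← Finset.sum_Ioc_consecutive (fun m => p m) (show n ≤ n + k * f by omega)
        (show n + k * f ≤ n + k * f + f by omega)]
      push_cast
      linarith
  have h1 := key K le_rfl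
  have h2 : 2 * Real.log n ≤ K * (δ * Real.log n) := by
    rw [div_le_iff₀ hδ] at hK
    nlinarith
  refine h2.trans (h1.trans ?_)
  apply Finset.sum_le_sum_of_subset_of_nonneg
  · apply Finset.Ioc_subset_Ioc_right
    unfold win
    omega
  · intro i _ _
    exact hp i

/-- the critical exponent is finite -/
lemma bdd_of_spread {p : ℕ → ℝ} (hp : ∀ n, 0 ≤ p n) (h : Spread p) {e : ℝ → ℕ → ℝ}
    (he0 : ∀ lam n, 0 ≤ e lam n)
    (he : ∀ lam n, e lam n ≤ Real.exp (-∑ m ∈ Ioc n (win lam n), p m)) :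
    BddAbove {lam : ℝ | 0 ≤ lam ∧ ¬ Summable (e lam)} := by
  obtain ⟨K, hK0, hK⟩ := h.two hp
  refine ⟨K, fun lam hlam => ?_⟩
  by_contra hcon
  rw [not_le] at hcon
  apply hlam.2
  apply summable_of_ev (he0 lam) (summable_exp (c := 2) (by norm_num))
  filter_upwards [hK] with n hn
  refine (he lam n).trans (Real.exp_le_exp.2 ?_)
  have : ∑ m ∈ Ioc n (win K n), p m ≤ ∑ m ∈ Ioc n (win lam n), p m :=
    Finset.sum_le_sum_of_subset_of_nonneg (Finset.Ioc_subset_Ioc_right (win_mono hcon.le n))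
      fun i _ _ => hp i
  linarith

lemma critical_nonneg {e : ℝ → ℕ → ℝ} : 0 ≤ critical e := Real.sSup_nonneg fun _ h => h.1

lemma summable_of_critical_lt {e : ℝ → ℕ → ℝ}
    (hb : BddAbove {lam : ℝ | 0 ≤ lam ∧ ¬ Summable (e lam)}) {lam : ℝ}
    (h : critical e < lam) : Summable (e lam) := by
  by_contra hcon
  exact absurd (le_csSup hb ⟨critical_nonneg.trans h.le, hcon⟩) (not_le.2 h)

lemma exists_of_lt_critical {e : ℝ → ℕ → ℝ} (h0 : ∀ n, e 0 n = 1) {lam : ℝ}
    (h : lam < critical e) : ∃ μ : ℝ, lam < μ ∧ ¬ Summable (e μ) := by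
  obtain ⟨μ, hμ, hlt⟩ := exists_lt_of_lt_csSup ⟨0, zero_mem h0⟩ h
  exact ⟨μ, hlt, hμ.2⟩

lemma sq_le_exp {δ : ℝ} (hδ : 0 < δ) : ∀ᶠ n : ℕ in atTop,
    Real.exp (-(δ * Real.log n)) ≤ (Real.log n ^ 2)⁻¹ := by
  filter_upwards [tendsto_log_nat.eventually_ge_atTop (6 / δ ^ 3),
    tendsto_log_nat.eventually_gt_atTop 0] with n hn h0
  have h1 := Real.pow_div_factorial_le_exp (δ * Real.log n) (by positivity) 3
  rw [Real.exp_neg]
  apply inv_anti₀ (by positivity)
  refine le_trans ?_ h1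
  rw [div_le_iff₀ (by positivity)] at hn
  have : (Nat.factorial 3 : ℝ) = 6 := by norm_num [Nat.factorial]
  rw [this, le_div_iff₀ (by norm_num)]
  have h2 : 0 < Real.log n ^ 2 := by positivity
  calc Real.log n ^ 2 * 6 ≤ Real.log n ^ 2 * (Real.log n * δ ^ 3) := by gcongr
    _ = (δ * Real.log n) ^ 3 := by ring

section
variable {Ω : Type*} [MeasurableSpace Ω] {P : Measure Ω} [IsProbabilityMeasure P] {E : ℕ → Set Ω}

lemma NegDep.emp_le_exp (h : NegDep P E) (lam : ℝ) (n : ℕ) :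
    emp P E lam n ≤ Real.exp (-∑ m ∈ Ioc n (win lam n), P.real (E m)) := h.le_exp (le_win _ _)

lemma NegDep.frequently (h : NegDep P E) (hD : Spread fun n => P.real (E n)) {lam μ : ℝ}
    (h0 : 0 ≤ lam) (hlt : lam < μ) (hμ : ¬ Summable (emp P E μ)) :
    ∀ᵐ ω ∂P, ∃ᶠ n : ℕ in atTop, ω ∈ Free E n (win lam n) := by
  classical
  obtain ⟨δ, hδ, hev⟩ := hD (μ - lam) (by linarith)
  -- the comparison of the windows
  have hcmp : ∀ᶠ n : ℕ in atTop, emp P E μ n ≤ (Real.log n ^ 2)⁻¹ * emp P E lam n := by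
    filter_upwards [hev, ev_floor_le lam, sq_le_exp hδ] with n hn hfl hex
    have h1 := hn (win lam n) (le_win _ _) (by unfold win; omega)
    have h2 : win lam n + ⌊(μ - lam) * Real.log n ^ 2⌋₊ ≤ win μ n := by
      unfold win
      have h3 : ⌊lam * Real.log n ^ 2⌋₊ + ⌊(μ - lam) * Real.log n ^ 2⌋₊ ≤
          ⌊μ * Real.log n ^ 2⌋₊ := by
        apply Nat.le_floor
        push_cast
        have h4 := Nat.floor_le (show 0 ≤ lam * Real.log n ^ 2 by positivity)
        have h5 := Nat.floor_le (show 0 ≤ (μ - lam) * Real.log n ^ 2 by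
          have : 0 ≤ μ - lam := by linarith
          positivity)
        nlinarith
      omega
    have h3 : emp P E μ n ≤ P.real (Free E n (win lam n)) *
        P.real (Free E (win lam n) (win lam n + ⌊(μ - lam) * Real.log n ^ 2⌋₊)) := by
      refine le_trans (measureReal_mono (free_mono le_rfl h2)) ?_
      exact h.split (le_win _ _) (Nat.le_add_right _ _)
    have h4 : P.real (Free E (win lam n) (win lam n + ⌊(μ - lam) * Real.log n ^ 2⌋₊)) ≤
        (Real.log n ^ 2)⁻¹ := by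
      refine (h.le_exp (Nat.le_add_right _ _)).trans (le_trans (Real.exp_le_exp.2 ?_) hex)
      linarith
    calc emp P E μ n ≤ _ := h3
      _ ≤ P.real (Free E n (win lam n)) * (Real.log n ^ 2)⁻¹ :=
        mul_le_mul_of_nonneg_left h4 measureReal_nonneg
      _ = _ := by rw [mul_comm]; rfl
  have hw : ∀ n : ℕ, 0 ≤ (Real.log n ^ 2)⁻¹ := fun n => by positivity
  have hns : ¬ Summable fun n : ℕ => (Real.log n ^ 2)⁻¹ * P.real (Free E n (win lam n)) := fun hs =>
    hμ (summable_of_ev (fun n => emp_nonneg μ n) hs hcmp)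
  -- the threshold
  obtain ⟨n₁, hn₁⟩ := eventually_atTop.1 ((ev_floor_le_half lam).and
    ((tendsto_log_nat.eventually_ge_atTop 2).and (eventually_ge_atTop 4)))
  refine bc_lower (C := 4 * (2 * lam + 1)) (n₀ := n₁)
    (fun n => free_meas h.meas _ _) hw
    (fun m n => n < win lam m ∧ m < win lam n) ?_ ?_ hns
  · intro m _ n _ hnn
    rw [not_and_or, not_lt, not_lt] at hnn
    rcases hnn with hnn | hnn
    · exact h.neg _ _ _ _ (le_win _ _) hnn (le_win _ _)
    · rw [Set.inter_comm, mul_comm]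
      exact h.neg _ _ _ _ (le_win _ _) hnn (le_win _ _)
  · intro n hn T hT
    obtain ⟨hf, hL, h4⟩ := hn₁ n hn
    have hLpos : 0 < Real.log n := by linarith
    have hsub : T ⊆ Icc (n - ⌊lam * Real.log n ^ 2⌋₊) (n + ⌊lam * Real.log n ^ 2⌋₊) := by
      intro m hm
      obtain ⟨hm1, hm2, hm3⟩ := hT m hm
      unfold win at hm2 hm3
      rw [Finset.mem_Icc]
      refine ⟨?_, hm3.le⟩
      rcases le_or_gt n m with h5 | h5
      · omega
      · have hm0 : 0 < m := by have := (hn₁ m hm1).2.2; omega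
        have h6 : ⌊lam * Real.log m ^ 2⌋₊ ≤ ⌊lam * Real.log n ^ 2⌋₊ := by
          apply Nat.floor_mono
          have h7 : Real.log m ≤ Real.log n :=
            Real.log_le_log (by exact_mod_cast hm0) (by exact_mod_cast h5.le)
          have h8 : 0 ≤ Real.log m := Real.log_natCast_nonneg m
          gcongr
        omega
    have hterm : ∀ m ∈ T, (Real.log m ^ 2)⁻¹ ≤ 4 * (Real.log n ^ 2)⁻¹ := by
      intro m hm
      have h5 := Finset.mem_Icc.1 (hsub hm)
      have h6 : n ≤ 2 * m := by omega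
      have h7 : Real.log n ≤ Real.log 2 + Real.log m := by
        have hm0 : (0:ℝ) < m := by
          have : 0 < m := by omega
          exact_mod_cast this
        rw [← Real.log_mul (by norm_num) hm0.ne']
        apply Real.log_le_log
        · have : 0 < n := by omega
          exact_mod_cast this
        · exact_mod_cast h6
      have h8 : Real.log 2 < 1 := by
        have := Real.log_two_lt_d9
        linarith
      have h9 : Real.log n / 2 ≤ Real.log m := by linarith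
      have h10 : (Real.log m ^ 2)⁻¹ ≤ ((Real.log n / 2) ^ 2)⁻¹ := by
        apply inv_anti₀ (by positivity)
        gcongr
      refine h10.trans (le_of_eq ?_)
      field_simp
      norm_num
    have hcard : (T.card : ℝ) ≤ 2 * (lam * Real.log n ^ 2) + 1 := by
      have h5 := Finset.card_le_card hsub
      rw [Nat.card_Icc] at h5
      have h6 : T.card ≤ 2 * ⌊lam * Real.log n ^ 2⌋₊ + 1 := by omega
      have h7 : (T.card : ℝ) ≤ 2 * (⌊lam * Real.log n ^ 2⌋₊ : ℝ) + 1 := by exact_mod_cast h6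
      have h8 := Nat.floor_le (show 0 ≤ lam * Real.log n ^ 2 by positivity)
      linarith
    calc ∑ m ∈ T, (Real.log m ^ 2)⁻¹ ≤ ∑ m ∈ T, 4 * (Real.log n ^ 2)⁻¹ := Finset.sum_le_sum hterm
      _ = T.card * (4 * (Real.log n ^ 2)⁻¹) := by rw [Finset.sum_const, nsmul_eq_mul]
      _ ≤ (2 * (lam * Real.log n ^ 2) + 1) * (4 * (Real.log n ^ 2)⁻¹) := by gcongr
      _ = 4 * (2 * lam + (Real.log n ^ 2)⁻¹) := by field_simp
      _ ≤ 4 * (2 * lam + 1) := by
        have : (Real.log n ^ 2)⁻¹ ≤ 1 := by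
          apply inv_le_one_of_one_le₀
          nlinarith
        linarith

/-- **The Cramér constant of a negatively dependent random set.** -/
theorem NegDep.cramer (h : NegDep P E) (hD : Spread fun n => P.real (E n)) :
    ∀ᵐ ω ∂P, {n | ω ∈ E n}.Infinite ∧
      cramerConst {n | ω ∈ E n} = ((critical (emp P E) : ℝ) : EReal) := by
  have hbdd := bdd_of_spread (fun n => measureReal_nonneg) hD (e := emp P E)
    (fun lam n => emp_nonneg lam n) (fun lam n => h.emp_le_exp lam n)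
  set Λ := critical (emp P E) with hΛ
  have hup : ∀ᵐ ω ∂P, ∀ k : ℕ, ∀ᶠ n in atTop, ω ∉ Free E n (win (Λ + 1 / ((k:ℝ) + 1)) n) := by
    rw [ae_all_iff]
    intro k
    apply bc_upper
    exact summable_of_critical_lt hbdd (e := emp P E) (by
      have : 0 < 1 / ((k:ℝ) + 1) := by positivity
      linarith)
  have hlo : ∀ᵐ ω ∂P, ∀ k : ℕ, 0 ≤ Λ - 1 / ((k:ℝ) + 1) →
      ∃ᶠ n : ℕ in atTop, ω ∈ Free E n (win (Λ - 1 / ((k:ℝ) + 1)) n) := by
    rw [ae_all_iff]
    intro k
    by_cases hk : 0 ≤ Λ - 1 / ((k:ℝ) + 1)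
    · obtain ⟨μ, hμ1, hμ2⟩ := exists_of_lt_critical (e := emp P E) (fun n => emp_zero n)
        (lam := Λ - 1 / ((k:ℝ) + 1)) (by
          have : 0 < 1 / ((k:ℝ) + 1) := by positivity
          linarith)
      filter_upwards [h.frequently hD hk hμ1 hμ2] with ω hω _
      exact hω
    · exact Eventually.of_forall fun ω h => absurd h hk
  filter_upwards [hup, hlo] with ω h1 h2
  have h3 : ∀ k : ℕ, ∀ᶠ x : ℕ in atTop, ∃ n : ℕ, x < n ∧
      (n:ℝ) ≤ x + (Λ + 1 / ((k:ℝ) + 1)) * Real.log x ^ 2 ∧ n ∈ {n | ω ∈ E n} := by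
    intro k
    filter_upwards [h1 k] with x hx
    unfold Free at hx
    simp only [Set.mem_setOf_eq, not_forall, not_not] at hx
    obtain ⟨n, hn1, hn2, hn3⟩ := hx
    refine ⟨n, hn1, ?_, hn3⟩
    unfold win at hn2
    have h4 : (n:ℝ) ≤ x + (⌊(Λ + 1 / ((k:ℝ) + 1)) * Real.log x ^ 2⌋₊ : ℝ) := by exact_mod_cast hn2
    have hΛ0 : 0 ≤ Λ := critical_nonneg
    have h5 := Nat.floor_le (show 0 ≤ (Λ + 1 / ((k:ℝ) + 1)) * Real.log x ^ 2 by positivity)
    linarith
  have hinf := inf_of_upper (h3 0)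
  refine ⟨hinf, le_antisymm ?_ ?_⟩
  · by_contra hcon
    rw [not_le] at hcon
    obtain ⟨r, hr1, hr2⟩ := EReal.lt_iff_exists_real_btwn.1 hcon
    have hr3 : Λ < r := EReal.coe_lt_coe_iff.1 hr1
    obtain ⟨k, hk⟩ := exists_nat_one_div_lt (show 0 < r - Λ by linarith)
    have h4 := cramer_le (h3 k)
    have h5 : ((Λ + 1 / ((k:ℝ) + 1) : ℝ) : EReal) ≤ (r : EReal) :=
      EReal.coe_le_coe_iff.2 (by linarith)
    exact absurd (h4.trans h5) (not_le.2 hr2)
  · by_contra hcon
    rw [not_le] at hcon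
    obtain ⟨r, hr1, hr2⟩ := EReal.lt_iff_exists_real_btwn.1 hcon
    have hr3 : r < Λ := EReal.coe_lt_coe_iff.1 hr2
    obtain ⟨k, hk⟩ := exists_nat_one_div_lt (show 0 < Λ - r by linarith)
    by_cases hk0 : 0 ≤ Λ - 1 / ((k:ℝ) + 1)
    · have h4 := le_cramer hinf hk0 (by
        refine (h2 k hk0).mono fun x hx n hn1 hn2 => ?_
        apply hx n hn1
        unfold win
        have h6 : ((n - x : ℕ) : ℝ) ≤ (Λ - 1 / ((k:ℝ) + 1)) * Real.log x ^ 2 := by
          rw [Nat.cast_sub hn1.le]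
          linarith
        have := Nat.le_floor h6
        omega)
      have h5 : (r : EReal) ≤ ((Λ - 1 / ((k:ℝ) + 1) : ℝ) : EReal) :=
        EReal.coe_le_coe_iff.2 (by linarith)
      exact absurd (h5.trans h4) (not_le.2 hr1)
    · have h4 := le_cramer hinf (le_refl (0:ℝ)) (by
        refine Frequently.of_forall fun x n hn1 hn2 => ?_
        exfalso
        have : (n:ℝ) ≤ x := by linarith
        have : n ≤ x := by exact_mod_cast this
        omega)
      have h5 : (r : EReal) ≤ ((0 : ℝ) : EReal) := EReal.coe_le_coe_iff.2 (by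
        push Not at hk0
        linarith)
      exact absurd (h5.trans h4) (not_le.2 hr1)

/-- **Independence maximises the Cramér constant.** -/
theorem NegDep.critical_le (h : NegDep P E) (hD : Spread fun n => P.real (E n)) :
    critical (emp P E) ≤ indConst fun n => P.real (E n) := by
  have h1 : ∀ m, P.real (E m) ≤ 1 := fun m => measureReal_le_one
  have hbdd := bdd_of_spread (fun n => measureReal_nonneg) hD
    (e := fun lam n => ∏ m ∈ Ioc n (win lam n), (1 - P.real (E m)))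
    (fun lam n => Finset.prod_nonneg fun m _ => by linarith [h1 m])
    (fun lam n => by
      rw [← Finset.sum_neg_distrib, Real.exp_sum]
      refine Finset.prod_le_prod (fun n _ => by linarith [h1 n]) fun n _ => ?_
      have := Real.add_one_le_exp (-P.real (E n))
      linarith)
  apply csSup_le_csSup hbdd ⟨0, zero_mem fun n => emp_zero n⟩
  rintro lam ⟨h0, hns⟩
  refine ⟨h0, fun hs => hns ?_⟩
  exact summable_of_ev (fun n => emp_nonneg lam n) hs
    (Eventually.of_forall fun n => h.le_prod (le_win _ _))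

end

end Pool.Agent.H34.ND
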