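import Pool.Agent.H34.ND.Det

/-! # Cell models: at most one element in each cell -/

set_option autoImplicit false

namespace Pool.Agent.H34.ND

open MeasureTheory Filter Topology Finset

/-- the uniform measure on `[0, 1)` -/
noncomputable def unif : Measure ℝ := volume.restrict (Set.Ico 0 1)

instance : IsProbabilityMeasure unif := ⟨by simp [unif]⟩

/-- the probability space of a sequence of independent uniform variables -/
noncomputable def cellP : Measure (ℕ → ℝ) := Measure.infinitePi fun _ => unif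

instance : IsProbabilityMeasure cellP := by unfold cellP; infer_instance

/-- the interval which belongs to `n` -/
def ivl (p s : ℕ → ℝ) (n : ℕ) : Set ℝ := Set.Ico (s n) (s n + p n)

/-- `n` is an element of the random set if the uniform variable of its cell is in `ivl p s n` -/
def cellE (p s : ℕ → ℝ) (lab : ℕ → ℕ) (n : ℕ) : Set (ℕ → ℝ) := {ω | ω (lab n) ∈ ivl p s n}

/-- the kernel of the cell model -/
noncomputable def cellK (p : ℕ → ℝ) (lab : ℕ → ℕ) (i j : ℕ) : ℂ :=
  if lab i = lab j then ((√(p i) * √(p j) : ℝ) : ℂ) else 0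

/-- the conditions on a cell model -/
structure Cells (p s : ℕ → ℝ) (lab : ℕ → ℕ) : Prop where
  p0 : ∀ n, 0 ≤ p n
  s0 : ∀ n, 0 ≤ s n
  s1 : ∀ n, s n + p n ≤ 1
  disj : ∀ m n, m ≠ n → lab m = lab n → Disjoint (ivl p s m) (ivl p s n)

lemma ivl_meas (p s : ℕ → ℝ) (n : ℕ) : MeasurableSet (ivl p s n) := measurableSet_Ico

lemma unif_ivl {p s : ℕ → ℝ} {lab : ℕ → ℕ} (h : Cells p s lab) (n : ℕ) :
    unif.real (ivl p s n) = p n := by
  have h1 : ivl p s n ∩ Set.Ico 0 1 = Set.Ico (s n) (s n + p n) := by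
    apply Set.inter_eq_left.2
    intro x hx
    exact ⟨(h.s0 n).trans hx.1, lt_of_lt_of_le hx.2 (h.s1 n)⟩
  rw [measureReal_def, unif, Measure.restrict_apply (ivl_meas p s n), h1, Real.volume_Ico]
  rw [ENNReal.toReal_ofReal (by linarith [h.p0 n])]
  ring

lemma unif_Ico {c : ℝ} (h0 : 0 ≤ c) (h1 : c ≤ 1) : unif.real (Set.Ico 0 c) = c := by
  have h2 : Set.Ico (0:ℝ) c ∩ Set.Ico 0 1 = Set.Ico 0 c := by
    apply Set.inter_eq_left.2
    intro x hx
    exact ⟨hx.1, lt_of_lt_of_le hx.2 h1⟩
  rw [measureReal_def, unif, Measure.restrict_apply measurableSet_Ico, h2, Real.volume_Ico]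
  rw [ENNReal.toReal_ofReal (by linarith)]
  ring

lemma cellP_pi (L : Finset ℕ) {t : ℕ → Set ℝ} (ht : ∀ l, MeasurableSet (t l)) :
    cellP.real {ω | ∀ l ∈ L, ω l ∈ t l} = ∏ l ∈ L, unif.real (t l) := by
  have h1 : {ω : ℕ → ℝ | ∀ l ∈ L, ω l ∈ t l} = Set.pi (L : Set ℕ) t := by
    ext ω
    simp [Set.mem_pi]
  rw [h1, measureReal_def, cellP, Measure.infinitePi_pi _ fun l _ => ht l, ENNReal.toReal_prod]
  rfl

lemma cellE_meas (p s : ℕ → ℝ) (lab : ℕ → ℕ) (n : ℕ) : MeasurableSet (cellE p s lab n) := by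
  have : cellE p s lab n = (fun ω : ℕ → ℝ => ω (lab n)) ⁻¹' (ivl p s n) := rfl
  rw [this]
  exact (measurable_pi_apply _) measurableSet_Ico

/-- **Cell models are determinantal.** -/
theorem Cells.determinantal {p s : ℕ → ℝ} {lab : ℕ → ℕ} (h : Cells p s lab) :
    Determinantal cellP (cellE p s lab) (cellK p lab) where
  meas := cellE_meas p s lab
  herm := by
    intro i j
    unfold cellK
    by_cases hij : lab i = lab j
    · rw [if_pos hij, if_pos hij.symm, mul_comm]
      simp
    · rw [if_neg hij, if_neg (Ne.symm hij)]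
      simp
  corr := by
    intro S
    by_cases hinj : ∀ i ∈ S, ∀ j ∈ S, lab i = lab j → i = j
    · -- different cells
      have h1 : (⋂ n ∈ S, cellE p s lab n) =
          {ω : ℕ → ℝ | ∀ l ∈ S.image lab, ω l ∈ ⋂ n ∈ S.filter (fun n => lab n = l), ivl p s n} := by
        ext ω
        simp only [Set.mem_iInter, cellE, Set.mem_ofPred_eq, Finset.mem_image, Finset.mem_filter]
        constructor
        · rintro h2 l ⟨n, hn, rfl⟩ m ⟨hm, hml⟩
          rw [← hml]
          exact h2 m hm
        · intro h2 n hn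
          exact h2 (lab n) ⟨n, hn, rfl⟩ n ⟨hn, rfl⟩
      have h2 : cellP.real (⋂ n ∈ S, cellE p s lab n) = ∏ n ∈ S, p n := by
        rw [h1, cellP_pi _ fun l => Finset.measurableSet_biInter _ fun n _ => ivl_meas p s n,
          Finset.prod_image hinj]
        refine Finset.prod_congr rfl fun n hn => ?_
        have h3 : S.filter (fun m => lab m = lab n) = {n} := by
          ext m
          rw [Finset.mem_filter, Finset.mem_singleton]
          exact ⟨fun hm => hinj m hm.1 n hn hm.2, fun hm => by rw [hm]; exact ⟨hn, rfl⟩⟩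
        rw [h3]
        simp [unif_ivl h]
      rw [h2]
      have h3 : (Matrix.of fun i j : S => cellK p lab i j) =
          Matrix.diagonal (fun i : S => ((p i : ℝ) : ℂ)) := by
        ext i j
        rw [Matrix.of_apply, Matrix.diagonal_apply]
        unfold cellK
        by_cases hij : i = j
        · subst hij
          rw [if_pos rfl, if_pos rfl, Real.mul_self_sqrt (h.p0 _)]
        · rw [if_neg hij, if_neg]
          intro hl
          exact hij (Subtype.ext (hinj i i.2 j j.2 hl))
      rw [h3, Matrix.det_diagonal, Finset.prod_coe_sort S (fun i => ((p i : ℝ) : ℂ))]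
      push_cast
      rfl
    · -- two elements in the same cell
      push Not at hinj
      obtain ⟨i, hi, j, hj, hl, hij⟩ := hinj
      have h1 : (⋂ n ∈ S, cellE p s lab n) = ∅ := by
        apply Set.eq_empty_of_forall_notMem
        intro ω hω
        rw [Set.mem_iInter₂] at hω
        have h2 : ω (lab i) ∈ ivl p s i := hω i hi
        have h3 : ω (lab j) ∈ ivl p s j := hω j hj
        rw [← hl] at h3
        exact Set.disjoint_left.1 (h.disj i j hij hl) h2 h3
      rw [h1, measureReal_empty]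
      symm
      push_cast
      by_cases hpi : p i = 0
      · apply Matrix.det_eq_zero_of_row_eq_zero ⟨i, hi⟩
        intro k
        simp [cellK, hpi]
      · rw [← Matrix.exists_vecMul_eq_zero_iff]
        refine ⟨fun k => (if k = ⟨i, hi⟩ then ((√(p j) : ℝ) : ℂ) else 0) -
          (if k = ⟨j, hj⟩ then ((√(p i) : ℝ) : ℂ) else 0), ?_, ?_⟩
        · intro h2
          have h3 := congrFun h2 ⟨j, hj⟩
          have h4 : (⟨j, hj⟩ : S) ≠ ⟨i, hi⟩ := fun h5 => hij (Subtype.ext_iff.1 h5).symm
          simp only [if_neg h4, if_true, Pi.zero_apply, zero_sub, neg_eq_zero,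
            Complex.ofReal_eq_zero] at h3
          rw [Real.sqrt_eq_zero (h.p0 i)] at h3
          exact hpi h3
        · funext k
          simp only [Matrix.vecMul, dotProduct, sub_mul, Finset.sum_sub_distrib, ite_mul, zero_mul,
            Finset.sum_ite_eq', Finset.mem_univ, if_true, Matrix.of_apply, Pi.zero_apply, cellK]
          rw [hl]
          split_ifs
          · push_cast
            ring
          · simp

/-- the probability that no element of the window is chosen -/
lemma Cells.free {p s : ℕ → ℝ} {lab : ℕ → ℕ} (h : Cells p s lab) (a b : ℕ) :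
    cellP.real (Free (cellE p s lab) a b) =
      ∏ l ∈ (Ioc a b).image lab, (1 - ∑ n ∈ (Ioc a b).filter (fun n => lab n = l), p n) := by
  have h1 : Free (cellE p s lab) a b = {ω : ℕ → ℝ | ∀ l ∈ (Ioc a b).image lab,
      ω l ∈ (⋃ n ∈ (Ioc a b).filter (fun n => lab n = l), ivl p s n)ᶜ} := by
    ext ω
    simp only [Free, cellE, Set.mem_ofPred_eq, Finset.mem_image, Finset.mem_filter, Set.mem_compl_iff,
      Set.mem_iUnion, not_exists, Finset.mem_Ioc]
    constructor
    · rintro h2 l ⟨n, _, rfl⟩ m ⟨hm, hml⟩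
      rw [← hml]
      exact h2 m hm.1 hm.2
    · intro h2 n hn1 hn2
      exact h2 (lab n) ⟨n, ⟨hn1, hn2⟩, rfl⟩ n ⟨⟨hn1, hn2⟩, rfl⟩
  have hm : ∀ l, MeasurableSet (⋃ n ∈ (Ioc a b).filter (fun n => lab n = l), ivl p s n) := fun l =>
    Finset.measurableSet_biUnion _ fun n _ => ivl_meas p s n
  rw [h1, cellP_pi _ fun l => (hm l).compl]
  refine Finset.prod_congr rfl fun l _ => ?_
  rw [probReal_compl_eq_one_sub (hm l), measureReal_biUnion_finset]
  · congr 1
    exact Finset.sum_congr rfl fun n _ => unif_ivl h n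
  · intro m hm' n hn' hmn
    rw [Finset.mem_coe, Finset.mem_filter] at hm' hn'
    exact h.disj m n hmn (hm'.2.trans hn'.2.symm)
  · exact fun n _ => ivl_meas p s n

/-- a cell which is contained in `[0, c)` has mass at most `c` -/
lemma Cells.mass_le {p s : ℕ → ℝ} {lab : ℕ → ℕ} (h : Cells p s lab) {c : ℝ} (hc0 : 0 ≤ c)
    (hc1 : c ≤ 1) {T : Finset ℕ} (hT : ∀ n ∈ T, s n + p n ≤ c) (l : ℕ) :
    ∑ n ∈ T.filter (fun n => lab n = l), p n ≤ c := by
  have h1 : unif.real (⋃ n ∈ T.filter (fun n => lab n = l), ivl p s n) =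
      ∑ n ∈ T.filter (fun n => lab n = l), p n := by
    rw [measureReal_biUnion_finset]
    · exact Finset.sum_congr rfl fun n _ => unif_ivl h n
    · intro m hm' n hn' hmn
      rw [Finset.mem_coe, Finset.mem_filter] at hm' hn'
      exact h.disj m n hmn (hm'.2.trans hn'.2.symm)
    · exact fun n _ => ivl_meas p s n
  have h2 : (⋃ n ∈ T.filter (fun n => lab n = l), ivl p s n) ⊆ Set.Ico 0 c := by
    intro x hx
    rw [Set.mem_iUnion₂] at hx
    obtain ⟨n, hn, hx⟩ := hx
    rw [Finset.mem_filter] at hn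
    exact ⟨(h.s0 n).trans hx.1, lt_of_lt_of_le hx.2 (hT n hn.1)⟩
  have h3 : unif.real (⋃ n ∈ T.filter (fun n => lab n = l), ivl p s n) ≤
      unif.real (Set.Ico 0 c) := measureReal_mono h2
  rwa [h1, unif_Ico hc0 hc1] at h3

lemma chord {c x : ℝ} (hc0 : 0 < c) (hc1 : c < 1) (hx0 : 0 ≤ x) (hx : x ≤ c) :
    Real.exp (x * (Real.log (1 - c) / c)) ≤ 1 - x := by
  -- convexity of `exp` at `x = (1 - x / c) * 0 + (x / c) * c`
  have h0 : 0 ≤ x / c := by positivity
  have h1 : x / c ≤ 1 := by rw [div_le_one hc0]; exact hx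
  have h2 := convexOn_exp.2 (Set.mem_univ (0:ℝ)) (Set.mem_univ (Real.log (1 - c)))
    (show 0 ≤ 1 - x / c by linarith) h0 (by ring)
  simp only [smul_eq_mul, mul_zero, zero_add, Real.exp_zero, mul_one] at h2
  rw [Real.exp_log (by linarith)] at h2
  have h3 : x * (Real.log (1 - c) / c) = x / c * Real.log (1 - c) := by ring
  rw [h3]
  have h4 : 1 - x / c + x / c * (1 - c) = 1 - x := by
    field_simp
    ring
  linarith

/-- lower bound for the probability of an empty window -/
lemma Cells.free_lower {p s : ℕ → ℝ} {lab : ℕ → ℕ} (h : Cells p s lab) {c : ℝ} (hc0 : 0 < c)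
    (hc1 : c < 1) {a b : ℕ} (hT : ∀ n ∈ Ioc a b, s n + p n ≤ c) :
    Real.exp ((∑ n ∈ Ioc a b, p n) * (Real.log (1 - c) / c)) ≤
      cellP.real (Free (cellE p s lab) a b) := by
  rw [h.free]
  have h1 : ∑ n ∈ Ioc a b, p n =
      ∑ l ∈ (Ioc a b).image lab, ∑ n ∈ (Ioc a b).filter (fun n => lab n = l), p n :=
    (Finset.sum_fiberwise_of_maps_to (fun n hn => Finset.mem_image_of_mem lab hn) _).symm
  rw [h1, Finset.sum_mul, Real.exp_sum]
  refine Finset.prod_le_prod (fun l _ => (Real.exp_pos _).le) fun l _ => ?_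
  exact chord hc0 hc1 (Finset.sum_nonneg fun n _ => h.p0 n) (h.mass_le hc0.le hc1.le hT l)

/-- upper bound for the probability that a part of a cell is empty -/
lemma Cells.free_upper {p s : ℕ → ℝ} {lab : ℕ → ℕ} (h : Cells p s lab) {a b : ℕ} {l : ℕ}
    (hl : ∀ n ∈ Ioc a b, lab n = l) :
    cellP.real (Free (cellE p s lab) a b) ≤ 1 - ∑ n ∈ Ioc a b, p n := by
  rw [h.free]
  rcases (Ioc a b).eq_empty_or_nonempty with h0 | h0
  · rw [h0]
    simp
  · have h1 : (Ioc a b).image lab = {l} := by
      ext k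
      rw [Finset.mem_image, Finset.mem_singleton]
      constructor
      · rintro ⟨n, hn, rfl⟩
        exact hl n hn
      · rintro rfl
        obtain ⟨n, hn⟩ := h0
        exact ⟨n, hn, hl n hn⟩
    have h2 : (Ioc a b).filter (fun n => lab n = l) = Ioc a b := Finset.filter_true_of_mem hl
    rw [h1, Finset.prod_singleton, h2]

end Pool.Agent.H34.ND
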