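import Pool.Agent.H34.ND.Ind

/-! # First occurrences of gaps: deterministic lemmas -/

set_option autoImplicit false

namespace Pool.Agent.H34.ND

open Filter Topology Finset

/-- the ratio of Shanks -/
noncomputable def ratio (A : Set ℕ) (g : ℕ) : EReal :=
  ((Real.log (firstAfter A g) / √(g : ℝ) : ℝ) : EReal)

/-- `1 / √u`, with the value `∞` for `u = 0` -/
noncomputable def rs (u : ℝ) : EReal := if u = 0 then ⊤ else ((1 / √u : ℝ) : EReal)

variable {A : Set ℕ}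

lemma firstAfter_le {g k : ℕ} (h : Nat.nth (· ∈ A) k + g < Nat.nth (· ∈ A) (k + 1)) :
    firstAfter A g ≤ Nat.nth (· ∈ A) (k + 1) := Nat.sInf_le ⟨k, rfl, h⟩

lemma firstAfter_spec {g : ℕ}
    (h : ∃ k, Nat.nth (· ∈ A) k + g < Nat.nth (· ∈ A) (k + 1)) :
    ∃ k, firstAfter A g = Nat.nth (· ∈ A) (k + 1) ∧
      Nat.nth (· ∈ A) k + g < Nat.nth (· ∈ A) (k + 1) := by
  obtain ⟨k, hk⟩ := h
  have := Nat.sInf_mem (s := {a | ∃ k : ℕ, a = Nat.nth (· ∈ A) (k + 1) ∧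
    Nat.nth (· ∈ A) k + g < Nat.nth (· ∈ A) (k + 1)}) ⟨_, k, rfl, hk⟩
  exact this

lemma nth_mono (hinf : A.Infinite) : StrictMono (Nat.nth (· ∈ A)) := Nat.nth_strictMono hinf

lemma exists_between (hinf : A.Infinite) {n : ℕ} (hn : Nat.nth (· ∈ A) 0 ≤ n) :
    ∃ k, Nat.nth (· ∈ A) k ≤ n ∧ n < Nat.nth (· ∈ A) (k + 1) := by
  classical
  have hcount : 1 ≤ Nat.count (· ∈ A) (n + 1) := by
    have h1 : Nat.count (· ∈ A) (Nat.nth (· ∈ A) 0 + 1) = 0 + 1 :=
      Nat.count_nth_succ_of_infinite hinf 0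
    rw [zero_add] at h1
    rw [← h1]
    exact Nat.count_monotone _ (by omega)
  obtain ⟨k, hk⟩ : ∃ k, Nat.count (· ∈ A) (n + 1) = k + 1 :=
    ⟨Nat.count (· ∈ A) (n + 1) - 1, by omega⟩
  have hak : Nat.nth (· ∈ A) k < n + 1 := Nat.nth_lt_of_lt_count (by omega)
  have hak1 : n + 1 ≤ Nat.nth (· ∈ A) (k + 1) := by
    rw [← hk]
    exact Nat.le_nth_count hinf (n + 1)
  exact ⟨k, by omega, by omega⟩

lemma free_of_gap (hinf : A.Infinite) {k g m : ℕ}
    (h : Nat.nth (· ∈ A) k + g < Nat.nth (· ∈ A) (k + 1)) (h1 : Nat.nth (· ∈ A) k < m)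
    (h2 : m ≤ Nat.nth (· ∈ A) k + g) : m ∉ A := by
  classical
  intro hm
  have h3 : Nat.nth (· ∈ A) (Nat.count (· ∈ A) m) = m := Nat.nth_count (p := (· ∈ A)) hm
  have h4 := (nth_mono hinf).lt_iff_lt.1 (show Nat.nth (· ∈ A) k <
    Nat.nth (· ∈ A) (Nat.count (· ∈ A) m) by rw [h3]; exact h1)
  have h5 := (nth_mono hinf).lt_iff_lt.1 (show Nat.nth (· ∈ A) (Nat.count (· ∈ A) m) <
    Nat.nth (· ∈ A) (k + 1) by rw [h3]; omega)
  omega

/-- an empty window of length `g` at `n` and the gap which contains it -/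
lemma gap_of_free (hinf : A.Infinite) {n g : ℕ} (hg : Nat.nth (· ∈ A) 0 < g)
    (hfree : ∀ m, n < m → m ≤ n + g → m ∉ A) :
    ∃ k, Nat.nth (· ∈ A) k ≤ n ∧ Nat.nth (· ∈ A) k + g < Nat.nth (· ∈ A) (k + 1) := by
  have h0 : Nat.nth (· ∈ A) 0 ≤ n := by
    by_contra hcon
    rw [not_le] at hcon
    exact hfree _ hcon (by omega) (Nat.nth_mem_of_infinite hinf 0)
  obtain ⟨k, hk1, hk2⟩ := exists_between hinf h0
  refine ⟨k, hk1, ?_⟩
  have h1 : ¬ Nat.nth (· ∈ A) (k + 1) ≤ n + g := fun h =>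
    hfree _ hk2 h (Nat.nth_mem_of_infinite hinf (k + 1))
  omega

/-- an upper bound for the gaps -/
lemma gap_bound (hinf : A.Infinite) {lam : ℝ}
    (h : ∀ᶠ x : ℕ in atTop, ∃ n : ℕ, x < n ∧ (n:ℝ) ≤ x + lam * Real.log x ^ 2 ∧ n ∈ A) :
    ∀ᶠ k : ℕ in atTop, (Nat.nth (· ∈ A) (k + 1) : ℝ) ≤
      Nat.nth (· ∈ A) k + lam * Real.log (Nat.nth (· ∈ A) k) ^ 2 := by
  obtain ⟨x₀, hx₀⟩ := eventually_atTop.1 h
  filter_upwards [eventually_ge_atTop x₀] with k hk
  obtain ⟨n, hn1, hn2, hnA⟩ := hx₀ _ (hk.trans ((nth_mono hinf).id_le k))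
  have h1 : Nat.nth (· ∈ A) (k + 1) ≤ n := by
    classical
    have h2 : Nat.nth (· ∈ A) (Nat.count (· ∈ A) n) = n := Nat.nth_count (p := (· ∈ A)) hnA
    rw [← h2] at hn1 ⊢
    exact (nth_mono hinf).monotone ((nth_mono hinf).lt_iff_lt.1 hn1)
  have h2 : (Nat.nth (· ∈ A) (k + 1) : ℝ) ≤ n := by exact_mod_cast h1
  linarith

/-- the index of the gap tends to infinity -/
lemma index_large (hinf : A.Infinite) (k₀ : ℕ) : ∀ᶠ g : ℕ in atTop, ∀ k,
    Nat.nth (· ∈ A) k + g < Nat.nth (· ∈ A) (k + 1) → k₀ ≤ k := by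
  filter_upwards [eventually_ge_atTop (Nat.nth (· ∈ A) k₀)] with g hg k hk
  by_contra hcon
  rw [not_le] at hcon
  have : Nat.nth (· ∈ A) (k + 1) ≤ Nat.nth (· ∈ A) k₀ := (nth_mono hinf).monotone hcon
  omega

/-- L1 -/
lemma liminf_ge (hinf : A.Infinite)
    (hunb : ∀ g : ℕ, ∃ k, Nat.nth (· ∈ A) k + g < Nat.nth (· ∈ A) (k + 1)) {lam : ℝ}
    (hlam : 0 < lam)
    (h : ∀ᶠ x : ℕ in atTop, ∃ n : ℕ, x < n ∧ (n:ℝ) ≤ x + lam * Real.log x ^ 2 ∧ n ∈ A) :
    ((1 / √lam : ℝ) : EReal) ≤ liminf (ratio A) atTop := by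
  apply le_liminf_of_le (by isBoundedDefault)
  obtain ⟨k₀, hk₀⟩ := eventually_atTop.1 (gap_bound hinf h)
  filter_upwards [index_large hinf (max k₀ 1), eventually_ge_atTop 1] with g hg hg1
  obtain ⟨k, hk1, hk2⟩ := firstAfter_spec (hunb g)
  have hk3 := hg k hk2
  have hk4 := hk₀ k ((le_max_left _ _).trans hk3)
  have hk5 : 1 ≤ Nat.nth (· ∈ A) k := ((le_max_right _ _).trans hk3).trans ((nth_mono hinf).id_le k)
  unfold ratio
  rw [EReal.coe_le_coe_iff, hk1, div_le_div_iff₀ (Real.sqrt_pos.2 hlam)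
    (Real.sqrt_pos.2 (by exact_mod_cast hg1)), one_mul]
  have h1 : (g:ℝ) ≤ lam * Real.log (Nat.nth (· ∈ A) k) ^ 2 := by
    have : (Nat.nth (· ∈ A) k : ℝ) + g < Nat.nth (· ∈ A) (k + 1) := by exact_mod_cast hk2
    linarith
  have hL : 0 ≤ Real.log (Nat.nth (· ∈ A) k) := Real.log_natCast_nonneg _
  calc √(g:ℝ) ≤ √(lam * Real.log (Nat.nth (· ∈ A) k) ^ 2) := Real.sqrt_le_sqrt h1
    _ = √lam * Real.log (Nat.nth (· ∈ A) k) := by
      rw [Real.sqrt_mul hlam.le, Real.sqrt_sq hL]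
    _ ≤ √lam * Real.log (Nat.nth (· ∈ A) (k + 1)) := by
      apply mul_le_mul_of_nonneg_left _ (Real.sqrt_nonneg _)
      apply Real.log_le_log
      · exact_mod_cast hk5
      · exact_mod_cast ((nth_mono hinf) (Nat.lt_succ_self k)).le
    _ = Real.log (Nat.nth (· ∈ A) (k + 1)) * √lam := mul_comm _ _

/-- L4 -/
lemma le_limsup (hinf : A.Infinite)
    (hunb : ∀ g : ℕ, ∃ k, Nat.nth (· ∈ A) k + g < Nat.nth (· ∈ A) (k + 1)) {lam : ℝ}
    (hlam : 0 < lam)
    (h : ∃ᶠ X : ℕ in atTop, ∀ n ≤ X, ∃ m, n < m ∧ m ≤ n + ⌊lam * Real.log X ^ 2⌋₊ ∧ m ∈ A) :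
    ((1 / √lam : ℝ) : EReal) ≤ limsup (ratio A) atTop := by
  apply le_limsup_of_frequently_le _ (by isBoundedDefault)
  have ht : Tendsto (fun X : ℕ => ⌊lam * Real.log X ^ 2⌋₊) atTop atTop :=
    tendsto_nat_floor_atTop.comp
      (((tendsto_pow_atTop (two_ne_zero)).comp tendsto_log_nat).const_mul_atTop hlam)
  apply ht.frequently
  refine (h.and_eventually ((ht.eventually_ge_atTop 1).and (eventually_ge_atTop 1))).mono ?_
  rintro X ⟨hX, hg1, hX1⟩
  set g := ⌊lam * Real.log X ^ 2⌋₊ with hg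
  obtain ⟨k, hk1, hk2⟩ := firstAfter_spec (hunb g)
  have hXlt : X < Nat.nth (· ∈ A) (k + 1) := by
    by_contra hcon
    rw [not_lt] at hcon
    have h1 := (nth_mono hinf) (Nat.lt_succ_self k)
    obtain ⟨m, hm1, hm2, hm3⟩ := hX (Nat.nth (· ∈ A) k) (h1.le.trans hcon)
    exact free_of_gap hinf hk2 hm1 hm2 hm3
  unfold ratio
  rw [EReal.coe_le_coe_iff, hk1, div_le_div_iff₀ (Real.sqrt_pos.2 hlam)
    (Real.sqrt_pos.2 (by exact_mod_cast hg1)), one_mul]
  have hL : 0 ≤ Real.log X := Real.log_natCast_nonneg _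
  have h1 : (g:ℝ) ≤ lam * Real.log X ^ 2 := Nat.floor_le (by positivity)
  calc √(g:ℝ) ≤ √(lam * Real.log X ^ 2) := Real.sqrt_le_sqrt h1
    _ = √lam * Real.log X := by rw [Real.sqrt_mul hlam.le, Real.sqrt_sq hL]
    _ ≤ √lam * Real.log (Nat.nth (· ∈ A) (k + 1)) := by
      apply mul_le_mul_of_nonneg_left _ (Real.sqrt_nonneg _)
      apply Real.log_le_log
      · exact_mod_cast hX1
      · exact_mod_cast hXlt.le
    _ = Real.log (Nat.nth (· ∈ A) (k + 1)) * √lam := mul_comm _ _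

/-- a bound for the element after a gap which begins at most at `X` -/
lemma next_le (hinf : A.Infinite) {C : ℝ} (hC : 0 < C)
    (h : ∀ᶠ x : ℕ in atTop, ∃ n : ℕ, x < n ∧ (n:ℝ) ≤ x + C * Real.log x ^ 2 ∧ n ∈ A) :
    ∀ᶠ X : ℕ in atTop, ∀ k, Nat.nth (· ∈ A) k ≤ X →
      Real.log (Nat.nth (· ∈ A) (k + 1)) ≤ Real.log X + Real.log 2 := by
  obtain ⟨k₀, hk₀⟩ := eventually_atTop.1 (gap_bound hinf h)
  filter_upwards [ev_log_sq_le C one_pos, eventually_ge_atTop (Nat.nth (· ∈ A) (k₀ + 1)),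
    eventually_ge_atTop 1] with X hX1 hX2 hX3 k hk
  have hX0 : (0:ℝ) < X := by exact_mod_cast hX3
  have hpos : 0 < Nat.nth (· ∈ A) (k + 1) :=
    lt_of_le_of_lt (Nat.zero_le _) ((nth_mono hinf) (Nat.lt_succ_self k))
  rw [← Real.log_mul hX0.ne' (by norm_num)]
  apply Real.log_le_log (by exact_mod_cast hpos)
  rcases le_or_gt k₀ k with h1 | h1
  · have h2 := hk₀ k h1
    have h3 : (Nat.nth (· ∈ A) k : ℝ) ≤ X := by exact_mod_cast hk
    have h4 : C * Real.log (Nat.nth (· ∈ A) k) ^ 2 ≤ C * Real.log X ^ 2 := by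
      rcases Nat.eq_zero_or_pos (Nat.nth (· ∈ A) k) with h5 | h5
      · rw [h5]
        simp only [Nat.cast_zero, Real.log_zero, ne_eq, OfNat.ofNat_ne_zero, not_false_eq_true,
          zero_pow, mul_zero]
        positivity
      · have h6 : Real.log (Nat.nth (· ∈ A) k) ≤ Real.log X :=
          Real.log_le_log (by exact_mod_cast h5) h3
        have h7 : 0 ≤ Real.log (Nat.nth (· ∈ A) k) := Real.log_natCast_nonneg _
        gcongr
    linarith
  · have h2 : Nat.nth (· ∈ A) (k + 1) ≤ X :=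
      ((nth_mono hinf).monotone (by omega)).trans hX2
    have h3 : (Nat.nth (· ∈ A) (k + 1) : ℝ) ≤ X := by exact_mod_cast h2
    linarith

/-- L2 -/
lemma liminf_le' (hinf : A.Infinite) {C : ℝ} (hC : 0 < C)
    (hb : ∀ᶠ x : ℕ in atTop, ∃ n : ℕ, x < n ∧ (n:ℝ) ≤ x + C * Real.log x ^ 2 ∧ n ∈ A)
    {lam : ℝ} (hlam : 0 < lam)
    (h : ∃ᶠ x : ℕ in atTop, ∀ m, x < m → m ≤ win lam x → m ∉ A) :
    liminf (ratio A) atTop ≤ ((1 / √lam : ℝ) : EReal) := by
  have ht : Tendsto (fun X : ℕ => ⌊lam * Real.log X ^ 2⌋₊) atTop atTop :=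
    tendsto_nat_floor_atTop.comp
      (((tendsto_pow_atTop (two_ne_zero)).comp tendsto_log_nat).const_mul_atTop hlam)
  have hsq : 0 < √lam := Real.sqrt_pos.2 hlam
  -- it suffices to have `1 / √lam + ε`
  by_contra hcon
  rw [not_le] at hcon
  obtain ⟨r, hr1, hr2⟩ := EReal.lt_iff_exists_real_btwn.1 hcon
  have hr1' : 1 / √lam < r := EReal.coe_lt_coe_iff.1 hr1
  have hr0 : 0 < r := lt_trans (by positivity) hr1'
  refine absurd hr2 (not_lt.2 ?_)
  apply liminf_le_of_frequently_le _ (by isBoundedDefault)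
  apply ht.frequently
  -- the main inequality
  have hrl : 1 < r * √lam := by
    rwa [div_lt_iff₀ hsq] at hr1'
  set t : ℝ := (1 + r * √lam) / 2 with htdef
  have ht1 : 1 < t := by linarith
  have ht2 : t < r * √lam := by linarith
  have hq : 0 < r * √lam / t := by positivity
  have hq1 : 1 < r * √lam / t := by rw [lt_div_iff₀ (by linarith)]; linarith
  have hev1 : ∀ᶠ X : ℕ in atTop, Real.log X + Real.log 2 ≤ t * Real.log X :=
    ev_log_mul (Real.log 2) ht1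
  have hpow : Tendsto (fun n : ℕ => lam * Real.log n ^ 2) atTop atTop :=
    ((tendsto_pow_atTop (two_ne_zero)).comp tendsto_log_nat).const_mul_atTop hlam
  -- `lam * L ^ 2 / q ^ 2 ≤ floor`
  set q : ℝ := (r * √lam / t) ^ 2 with hqdef
  have hqq : 1 < q := by
    rw [hqdef]
    nlinarith
  have hev2 : ∀ᶠ X : ℕ in atTop, lam * Real.log X ^ 2 / q ≤ (⌊lam * Real.log X ^ 2⌋₊ : ℝ) := by
    filter_upwards [hpow.eventually_ge_atTop (1 / (1 - 1 / q))] with X hX
    have h1 := Nat.lt_floor_add_one (lam * Real.log X ^ 2)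
    have h2 : 0 < 1 - 1 / q := by
      rw [sub_pos, div_lt_one (by linarith)]
      exact hqq
    rw [div_le_iff₀ h2] at hX
    have h3 : lam * Real.log X ^ 2 / q = lam * Real.log X ^ 2 * (1 / q) := by ring
    rw [h3]
    nlinarith
  refine (h.and_eventually (((ht.eventually_gt_atTop (Nat.nth (· ∈ A) 0)).and
    (next_le hinf hC hb)).and (hev1.and hev2))).mono ?_
  rintro X ⟨hX, ⟨hg0, hnext⟩, h1, h2⟩
  set g := ⌊lam * Real.log X ^ 2⌋₊ with hg
  obtain ⟨k, hk1, hk2⟩ := gap_of_free hinf hg0 (n := X) (g := g) hX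
  have hk3 := firstAfter_le hk2
  have hk4 := hnext k hk1
  have hg1 : (0:ℝ) < g := by
    have : 0 < g := by omega
    exact_mod_cast this
  unfold ratio
  rw [EReal.coe_le_coe_iff, div_le_iff₀ (Real.sqrt_pos.2 hg1)]
  have hL : 0 ≤ Real.log X := Real.log_natCast_nonneg _
  have h5 : Real.log (firstAfter A g) ≤ Real.log (Nat.nth (· ∈ A) (k + 1)) := by
    rcases Nat.eq_zero_or_pos (firstAfter A g) with h6 | h6
    · rw [h6]
      simp only [Nat.cast_zero, Real.log_zero]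
      exact Real.log_natCast_nonneg _
    · exact Real.log_le_log (by exact_mod_cast h6) (by exact_mod_cast hk3)
  have h6 : √(lam * Real.log X ^ 2 / q) ≤ √(g:ℝ) := Real.sqrt_le_sqrt h2
  have h7 : √(lam * Real.log X ^ 2 / q) = t / r * Real.log X := by
    have h8 : lam * Real.log X ^ 2 / q = (t / r * Real.log X) ^ 2 := by
      rw [hqdef, div_pow, mul_pow, Real.sq_sqrt hlam.le]
      field_simp
    rw [h8, Real.sqrt_sq (by positivity)]
  rw [h7] at h6
  calc Real.log (firstAfter A g) ≤ t * Real.log X := by linarith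
    _ = r * (t / r * Real.log X) := by field_simp
    _ ≤ r * √(g:ℝ) := mul_le_mul_of_nonneg_left h6 hr0.le

/-- L3 -/
lemma limsup_le' (hinf : A.Infinite) {C : ℝ} (hC : 0 < C)
    (hb : ∀ᶠ x : ℕ in atTop, ∃ n : ℕ, x < n ∧ (n:ℝ) ≤ x + C * Real.log x ^ 2 ∧ n ∈ A)
    {lam : ℝ} (hlam : 0 < lam)
    (h : ∀ᶠ X : ℕ in atTop, ∃ n ≤ X, ∀ m, n < m → m ≤ n + ⌊lam * Real.log X ^ 2⌋₊ → m ∉ A) :
    limsup (ratio A) atTop ≤ ((1 / √lam : ℝ) : EReal) := by
  have hsq : 0 < √lam := Real.sqrt_pos.2 hlam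
  by_contra hcon
  rw [not_le] at hcon
  obtain ⟨r, hr1, hr2⟩ := EReal.lt_iff_exists_real_btwn.1 hcon
  have hr1' : 1 / √lam < r := EReal.coe_lt_coe_iff.1 hr1
  have hr0 : 0 < r := lt_trans (by positivity) hr1'
  refine absurd hr2 (not_lt.2 ?_)
  apply limsup_le_of_le (by isBoundedDefault)
  -- the scale `X` which belongs to `g`
  have hX : Tendsto (fun g : ℕ => ⌈Real.exp (√((g:ℝ) / lam))⌉₊) atTop atTop := by
    apply tendsto_nat_ceil_atTop.comp
    apply Real.tendsto_exp_atTop.comp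
    apply Real.tendsto_sqrt_atTop.comp
    exact tendsto_natCast_atTop_atTop.atTop_div_const hlam
  have hsg : Tendsto (fun g : ℕ => √(g:ℝ)) atTop atTop :=
    Real.tendsto_sqrt_atTop.comp tendsto_natCast_atTop_atTop
  filter_upwards [hX.eventually h, hX.eventually (next_le hinf hC hb),
    eventually_gt_atTop (Nat.nth (· ∈ A) 0),
    hsg.eventually_ge_atTop (2 * Real.log 2 / (r - 1 / √lam))] with g h1 h2 h3 h4
  set X := ⌈Real.exp (√((g:ℝ) / lam))⌉₊ with hXdef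
  have hXe : Real.exp (√((g:ℝ) / lam)) ≤ X := Nat.le_ceil _
  have hlogX : √((g:ℝ) / lam) ≤ Real.log X := by
    rw [← Real.log_exp (√((g:ℝ) / lam))]
    exact Real.log_le_log (Real.exp_pos _) hXe
  have hgX : g ≤ ⌊lam * Real.log X ^ 2⌋₊ := by
    apply Nat.le_floor
    have h5 : √((g:ℝ) / lam) ^ 2 ≤ Real.log X ^ 2 := by
      gcongr
    rw [Real.sq_sqrt (by positivity), div_le_iff₀ hlam] at h5
    linarith
  obtain ⟨n, hn, hfree⟩ := h1
  obtain ⟨k, hk1, hk2⟩ := gap_of_free hinf h3 (n := n) (g := g) fun m hm1 hm2 =>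
    hfree m hm1 (hm2.trans (by omega))
  have hk3 := firstAfter_le hk2
  have hk4 := h2 k (hk1.trans hn)
  have hg1 : (0:ℝ) < g := by
    have : 0 < g := by omega
    exact_mod_cast this
  have h5 : Real.log (firstAfter A g) ≤ Real.log (Nat.nth (· ∈ A) (k + 1)) := by
    rcases Nat.eq_zero_or_pos (firstAfter A g) with h6 | h6
    · rw [h6]
      simp only [Nat.cast_zero, Real.log_zero]
      exact Real.log_natCast_nonneg _
    · exact Real.log_le_log (by exact_mod_cast h6) (by exact_mod_cast hk3)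
  have hX2 : (X:ℝ) ≤ 2 * Real.exp (√((g:ℝ) / lam)) := by
    have h6 : (X:ℝ) < Real.exp (√((g:ℝ) / lam)) + 1 := Nat.ceil_lt_add_one (Real.exp_pos _).le
    have h7 : 1 ≤ Real.exp (√((g:ℝ) / lam)) := Real.one_le_exp (Real.sqrt_nonneg _)
    linarith
  have hlogX2 : Real.log X ≤ Real.log 2 + √((g:ℝ) / lam) := by
    have hXpos : (0:ℝ) < X := lt_of_lt_of_le (Real.exp_pos _) hXe
    have h6 := Real.log_le_log hXpos hX2
    rwa [Real.log_mul (by norm_num) (Real.exp_pos _).ne', Real.log_exp] at h6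
  unfold ratio
  rw [EReal.coe_le_coe_iff, div_le_iff₀ (Real.sqrt_pos.2 hg1)]
  have h8 : √((g:ℝ) / lam) = 1 / √lam * √(g:ℝ) := by
    rw [Real.sqrt_div (by positivity)]
    ring
  have h9 : 0 < r - 1 / √lam := by linarith
  rw [div_le_iff₀ h9] at h4
  nlinarith

/-! ### Assembly -/

lemma rs_zero : rs 0 = ⊤ := by simp [rs]

lemma rs_pos {u : ℝ} (hu : u ≠ 0) : rs u = ((1 / √u : ℝ) : EReal) := by simp [rs, hu]

/-- if `1 / √lam ≤ x` for all `lam > u`, then `rs u ≤ x` -/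
lemma rs_le_of {u : ℝ} (hu : 0 ≤ u) {x : EReal}
    (h : ∀ lam : ℝ, u < lam → ((1 / √lam : ℝ) : EReal) ≤ x) : rs u ≤ x := by
  rcases hu.eq_or_lt with rfl | hu
  · rw [rs_zero, top_le_iff, EReal.eq_top_iff_forall_lt]
    intro y
    set z : ℝ := max y 1 + 1 with hz
    have hz0 : 0 < z := by
      have : (1:ℝ) ≤ max y 1 := le_max_right _ _
      linarith
    have h1 := h ((1 / z) ^ 2) (by positivity)
    rw [Real.sqrt_sq (by positivity), one_div_one_div] at h1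
    refine lt_of_lt_of_le (EReal.coe_lt_coe_iff.2 ?_) h1
    have : y ≤ max y 1 := le_max_left _ _
    linarith
  · rw [rs_pos hu.ne']
    by_contra hcon
    rw [not_le] at hcon
    obtain ⟨r, hr1, hr2⟩ := EReal.lt_iff_exists_real_btwn.1 hcon
    have hr2' : r < 1 / √u := EReal.coe_lt_coe_iff.1 hr2
    have hsu : 0 < √u := Real.sqrt_pos.2 hu
    -- choose `lam > u` with `1 / √lam > r`
    set r' : ℝ := max r (1 / (2 * √u)) with hr'
    have hr'1 : r' < 1 / √u := by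
      apply max_lt hr2'
      apply one_div_lt_one_div_of_lt hsu
      linarith
    have hr'0 : 0 < r' := lt_of_lt_of_le (by positivity) (le_max_right _ _)
    have h1 := h ((1 / r') ^ 2) (by
      have h2 : √u < 1 / r' := by
        rw [lt_div_iff₀ hr'0]
        rw [lt_div_iff₀ hsu] at hr'1
        linarith
      calc u = √u ^ 2 := (Real.sq_sqrt hu.le).symm
        _ < (1 / r') ^ 2 := by gcongr)
    rw [Real.sqrt_sq (by positivity), one_div_one_div] at h1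
    have h2 : ((r:ℝ) : EReal) ≤ ((r' : ℝ) : EReal) := EReal.coe_le_coe_iff.2 (le_max_left _ _)
    exact absurd (h2.trans h1) (not_le.2 hr1)

/-- if `x ≤ 1 / √lam` for all `0 < lam < u`, then `x ≤ rs u` -/
lemma le_rs_of {u : ℝ} (hu : 0 ≤ u) {x : EReal}
    (h : ∀ lam : ℝ, 0 < lam → lam < u → x ≤ ((1 / √lam : ℝ) : EReal)) : x ≤ rs u := by
  rcases hu.eq_or_lt with rfl | hu
  · rw [rs_zero]
    exact le_top
  · rw [rs_pos hu.ne']
    by_contra hcon
    rw [not_le] at hcon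
    obtain ⟨r, hr1, hr2⟩ := EReal.lt_iff_exists_real_btwn.1 hcon
    have hr1' : 1 / √u < r := EReal.coe_lt_coe_iff.1 hr1
    have hsu : 0 < √u := Real.sqrt_pos.2 hu
    have hr0 : 0 < r := lt_trans (by positivity) hr1'
    have h1 := h ((1 / r) ^ 2) (by positivity) (by
      have h2 : 1 / r < √u := by
        rw [div_lt_iff₀ hr0]
        rw [div_lt_iff₀ hsu] at hr1'
        linarith
      calc (1 / r) ^ 2 < √u ^ 2 := by gcongr
        _ = u := Real.sq_sqrt hu.le)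
    rw [Real.sqrt_sq (by positivity), one_div_one_div] at h1
    exact absurd h1 (not_le.2 hr2)

end Pool.Agent.H34.ND
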