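import Pool.Agent.H34.ND.Shanks

/-! # First occurrences of gaps in negatively dependent random sets -/

set_option autoImplicit false

namespace Pool.Agent.H34.ND

open MeasureTheory Filter Topology Finset

/-- the expected number of the `n ≤ X` for which the window `(n, n + lam * (log X) ^ 2]` is empty -/
noncomputable def empSum {Ω : Type*} [MeasurableSpace Ω] (P : Measure Ω) (E : ℕ → Set Ω)
    (lam : ℝ) (X : ℕ) : ℝ :=
  ∑ n ∈ range (X + 1), P.real (Free E n (n + ⌊lam * Real.log X ^ 2⌋₊))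

/-- the `lam` for which `empSum lam X ≥ X ^ (-ε)` for all large `X`, for every `ε > 0` -/
def lowSet {Ω : Type*} [MeasurableSpace Ω] (P : Measure Ω) (E : ℕ → Set Ω) : Set ℝ :=
  {lam | 0 ≤ lam ∧ ∀ ε : ℝ, 0 < ε → ∀ᶠ X : ℕ in atTop,
    Real.exp (-(ε * Real.log X)) ≤ empSum P E lam X}

/-- the lower exponent -/
noncomputable def lowExp {Ω : Type*} [MeasurableSpace Ω] (P : Measure Ω) (E : ℕ → Set Ω) : ℝ :=
  sSup (lowSet P E)

/-- the mass of all windows below `2 X` -/
lemma mass_X {p : ℕ → ℝ} (hp0 : ∀ n, 0 ≤ p n)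
    (hp : Tendsto (fun n : ℕ => p n * Real.log n) atTop (𝓝 1))
    {κ η : ℝ} (hκ : κ < 1) (hη : 0 < η) : ∀ᶠ X : ℕ in atTop, ∀ a : ℕ, a ≤ 2 * X →
      κ * η * Real.log X ≤ ∑ m ∈ Ioc a (a + ⌊η * Real.log X ^ 2⌋₊), p m := by
  set κ₀ : ℝ := max κ (1 / 2) with hκ₀
  have h01 : κ₀ < 1 := max_lt hκ (by norm_num)
  have h02 : 1 / 2 ≤ κ₀ := le_max_right _ _
  set κ₁ : ℝ := (κ₀ + 1) / 2 with hκ₁
  have h11 : κ₁ < 1 := by linarith
  have h12 : κ₀ < κ₁ := by linarith
  set ρ : ℝ := κ₁ / κ₀ with hρ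
  have hρ1 : 1 < ρ := by rw [hρ, lt_div_iff₀ (by linarith)]; linarith
  set σ : ℝ := Real.sqrt ρ with hσ
  have hσ1 : 1 < σ := by
    rw [hσ, Real.lt_sqrt (by norm_num)]
    linarith
  have hσσ : σ * σ = ρ := Real.mul_self_sqrt (by linarith)
  obtain ⟨M₀, hM₀⟩ := eventually_atTop.1 ((hp.eventually_const_lt h11).and (eventually_ge_atTop 2))
  have hpow : Tendsto (fun n : ℕ => η * Real.log n ^ 2) atTop atTop :=
    ((tendsto_pow_atTop (two_ne_zero)).comp tendsto_log_nat).const_mul_atTop hη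
  filter_upwards [ev_floor_le η, ev_log_mul (Real.log 3) hσ1,
    hpow.eventually_ge_atTop ((M₀ + 1) / (1 - 1 / σ)), eventually_ge_atTop 2] with
    X hfl hlog hbig hX2
  intro a ha2
  have hL : 0 < Real.log X := Real.log_pos (by exact_mod_cast hX2)
  have h2 : 0 < 1 - 1 / σ := by
    rw [sub_pos, div_lt_one (by linarith)]
    exact hσ1
  rw [div_le_iff₀ h2] at hbig
  have hcount : η * Real.log X ^ 2 / σ ≤ (⌊η * Real.log X ^ 2⌋₊ : ℝ) - M₀ := by
    have h1 := Nat.lt_floor_add_one (η * Real.log X ^ 2)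
    have h3 : η * Real.log X ^ 2 / σ = η * Real.log X ^ 2 * (1 / σ) := by ring
    rw [h3]
    nlinarith
  have hMf : M₀ ≤ ⌊η * Real.log X ^ 2⌋₊ := by
    have h3 : 0 ≤ η * Real.log X ^ 2 / σ := by positivity
    have h4 : (M₀:ℝ) ≤ (⌊η * Real.log X ^ 2⌋₊ : ℝ) := by linarith
    exact_mod_cast h4
  have hterm : ∀ m ∈ Ioc (a + M₀) (a + ⌊η * Real.log X ^ 2⌋₊), κ₁ / (σ * Real.log X) ≤ p m := by
    intro m hm
    rw [Finset.mem_Ioc] at hm
    have h1 := (hM₀ m (by omega)).1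
    have hm2 := (hM₀ m (by omega)).2
    have hm0 : (1:ℝ) < m := by
      have : 1 < m := by omega
      exact_mod_cast this
    have h2 : 0 < Real.log m := Real.log_pos hm0
    have h3 : Real.log m ≤ σ * Real.log X := by
      refine le_trans ?_ hlog
      rw [← Real.log_mul (by positivity) (by norm_num)]
      apply Real.log_le_log (by linarith)
      have : m ≤ X * 3 := by omega
      exact_mod_cast this
    have h4 : κ₁ / Real.log m ≤ p m := by
      rw [div_le_iff₀ h2]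
      exact h1.le
    refine le_trans ?_ h4
    exact div_le_div_of_nonneg_left (by linarith) h2 h3
  have hsum := Finset.card_nsmul_le_sum _ _ _ hterm
  rw [Nat.card_Ioc, nsmul_eq_mul] at hsum
  have hcard : a + ⌊η * Real.log X ^ 2⌋₊ - (a + M₀) = ⌊η * Real.log X ^ 2⌋₊ - M₀ := by omega
  rw [hcard, Nat.cast_sub hMf] at hsum
  have hsub : ∑ m ∈ Ioc (a + M₀) (a + ⌊η * Real.log X ^ 2⌋₊), p m ≤
      ∑ m ∈ Ioc a (a + ⌊η * Real.log X ^ 2⌋₊), p m :=
    Finset.sum_le_sum_of_subset_of_nonneg (Finset.Ioc_subset_Ioc_left (by omega))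
      fun m _ _ => hp0 m
  refine le_trans ?_ (hsum.trans hsub)
  calc κ * η * Real.log X ≤ κ₀ * η * Real.log X := by
        have : κ ≤ κ₀ := le_max_left _ _
        gcongr
    _ = η * Real.log X ^ 2 / σ * (κ₁ / (σ * Real.log X)) := by
        have : κ₁ = κ₀ * (σ * σ) := by
          rw [hσσ, hρ]
          field_simp
        rw [this]
        field_simp
    _ ≤ ((⌊η * Real.log X ^ 2⌋₊ : ℝ) - M₀) * (κ₁ / (σ * Real.log X)) := by
        apply mul_le_mul_of_nonneg_right hcount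
        have : 0 < κ₁ := by linarith
        positivity

variable {Ω : Type*} [MeasurableSpace Ω] {P : Measure Ω} [IsProbabilityMeasure P] {E : ℕ → Set Ω}

lemma floor_add_le {a b L : ℝ} (ha : 0 ≤ a) (hb : 0 ≤ b) :
    ⌊a * L ^ 2⌋₊ + ⌊b * L ^ 2⌋₊ ≤ ⌊(a + b) * L ^ 2⌋₊ := by
  apply Nat.le_floor
  push_cast
  have h4 := Nat.floor_le (show 0 ≤ a * L ^ 2 by positivity)
  have h5 := Nat.floor_le (show 0 ≤ b * L ^ 2 by positivity)
  nlinarith

/-- comparison of windows -/
lemma NegDep.window_step (h : NegDep P E)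
    (hp : Tendsto (fun n : ℕ => P.real (E n) * Real.log n) atTop (𝓝 1)) {κ a b : ℝ} (hκ : κ < 1)
    (ha : 0 ≤ a) (hb : 0 < b) : ∀ᶠ X : ℕ in atTop, ∀ n ≤ X,
      P.real (Free E n (n + ⌊(a + b) * Real.log X ^ 2⌋₊)) ≤
        P.real (Free E n (n + ⌊a * Real.log X ^ 2⌋₊)) * Real.exp (-(κ * b * Real.log X)) := by
  filter_upwards [mass_X (fun n => measureReal_nonneg) hp hκ hb, ev_floor_le a] with X hX hfl n hn
  have h1 := hX (n + ⌊a * Real.log X ^ 2⌋₊) (by omega)
  have h2 := floor_add_le (L := Real.log X) ha hb.le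
  have h3 : P.real (Free E n (n + ⌊(a + b) * Real.log X ^ 2⌋₊)) ≤
      P.real (Free E n (n + ⌊a * Real.log X ^ 2⌋₊ + ⌊b * Real.log X ^ 2⌋₊)) :=
    measureReal_mono (free_mono le_rfl (by omega))
  refine h3.trans ((h.split (Nat.le_add_right _ _) (Nat.le_add_right _ _)).trans ?_)
  apply mul_le_mul_of_nonneg_left _ measureReal_nonneg
  refine (h.le_exp (Nat.le_add_right _ _)).trans (Real.exp_le_exp.2 ?_)
  linarith

lemma empSum_nonneg (lam : ℝ) (X : ℕ) : 0 ≤ empSum P E lam X :=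
  Finset.sum_nonneg fun _ _ => measureReal_nonneg

lemma NegDep.empSum_step (h : NegDep P E)
    (hp : Tendsto (fun n : ℕ => P.real (E n) * Real.log n) atTop (𝓝 1)) {κ a b : ℝ} (hκ : κ < 1)
    (ha : 0 ≤ a) (hb : 0 < b) : ∀ᶠ X : ℕ in atTop,
      empSum P E (a + b) X ≤ empSum P E a X * Real.exp (-(κ * b * Real.log X)) := by
  filter_upwards [h.window_step hp hκ ha hb] with X hX
  unfold empSum
  rw [Finset.sum_mul]
  refine Finset.sum_le_sum fun n hn => hX n ?_
  rw [Finset.mem_range] at hn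
  omega

lemma free_self (n : ℕ) : Free E n n = Set.univ := by
  ext ω
  simp only [Set.mem_univ, iff_true]
  intro m h1 h2
  omega

lemma empSum_zero (X : ℕ) : empSum P E 0 X = X + 1 := by
  unfold empSum
  simp [free_self]

lemma lowSet_zero : (0:ℝ) ∈ lowSet P E := by
  refine ⟨le_rfl, fun ε hε => ?_⟩
  filter_upwards with X
  rw [empSum_zero]
  have h1 : Real.exp (-(ε * Real.log X)) ≤ 1 := by
    rw [Real.exp_le_one_iff]
    have : 0 ≤ ε * Real.log X := mul_nonneg hε.le (Real.log_natCast_nonneg _)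
    linarith
  have h2 : (0:ℝ) ≤ X := Nat.cast_nonneg X
  linarith

lemma NegDep.lowSet_le_one (h : NegDep P E)
    (hp : Tendsto (fun n : ℕ => P.real (E n) * Real.log n) atTop (𝓝 1)) {lam : ℝ}
    (hlam : lam ∈ lowSet P E) : lam ≤ 1 := by
  by_contra hcon
  rw [not_le] at hcon
  set κ : ℝ := (1 / lam + 1) / 2 with hκ
  have h1 : 1 / lam < 1 := by rw [div_lt_one (by linarith)]; exact hcon
  have hκ1 : κ < 1 := by linarith
  have hκl : 1 < κ * lam := by
    have h2 : 1 / lam < κ := by linarith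
    rwa [div_lt_iff₀ (by linarith)] at h2
  have h2 := h.empSum_step hp hκ1 le_rfl (show 0 < lam by linarith)
  set ε : ℝ := (κ * lam - 1) / 2 with hε
  have hε0 : 0 < ε := by linarith
  obtain ⟨X, ⟨hX1, hX2⟩, hX3, hX4⟩ := ((h2.and (hlam.2 ε hε0)).and
    ((tendsto_log_nat.eventually_gt_atTop (Real.log 2 / ε)).and (eventually_ge_atTop 1))).exists
  rw [zero_add, empSum_zero] at hX1
  have hX0 : (0:ℝ) < X := by exact_mod_cast hX4
  have h3 : (X:ℝ) + 1 ≤ 2 * X := by
    have : (1:ℝ) ≤ X := by exact_mod_cast hX4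
    linarith
  have h4 : Real.exp (-(ε * Real.log X)) ≤ 2 * X * Real.exp (-(κ * lam * Real.log X)) :=
    hX2.trans (hX1.trans (mul_le_mul_of_nonneg_right h3 (Real.exp_pos _).le))
  have h5 : 2 * (X:ℝ) * Real.exp (-(κ * lam * Real.log X)) =
      Real.exp (Real.log 2 + Real.log X - κ * lam * Real.log X) := by
    rw [sub_eq_add_neg, Real.exp_add, Real.exp_add, Real.exp_log (by norm_num), Real.exp_log hX0]
  rw [h5, Real.exp_le_exp] at h4
  rw [div_lt_iff₀ hε0] at hX3
  have h6 : κ * lam * Real.log X = (2 * ε + 1) * Real.log X := by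
    rw [hε]
    ring
  rw [h6] at h4
  linarith

lemma NegDep.lowSet_bdd (h : NegDep P E)
    (hp : Tendsto (fun n : ℕ => P.real (E n) * Real.log n) atTop (𝓝 1)) :
    BddAbove (lowSet P E) := ⟨1, fun _ hlam => h.lowSet_le_one hp hlam⟩

lemma lowExp_nonneg : 0 ≤ lowExp P E := Real.sSup_nonneg fun _ h => h.1

/-- (iii) -/
lemma NegDep.low_a (h : NegDep P E)
    (hp : Tendsto (fun n : ℕ => P.real (E n) * Real.log n) atTop (𝓝 1)) {lam : ℝ} (h0 : 0 < lam)
    (hlt : lam < lowExp P E) : ∀ᵐ ω ∂P, ∀ᶠ X : ℕ in atTop, ∃ n ≤ X,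
      ω ∈ Free E n (n + ⌊lam * Real.log X ^ 2⌋₊) := by
  classical
  obtain ⟨μ, hμ, hlμ⟩ := exists_lt_of_lt_csSup ⟨0, lowSet_zero⟩ hlt
  set l₁ : ℝ := (lam + μ) / 2 with hl₁
  have hl1 : lam < l₁ := by linarith
  have hl2 : 0 < μ - l₁ := by linarith
  set δ : ℝ := 1 / 2 * (μ - l₁) with hδ
  have hδ0 : 0 < δ := by positivity
  have hbig : ∀ᶠ X : ℕ in atTop, Real.exp (δ / 2 * Real.log X) ≤ empSum P E l₁ X := by
    filter_upwards [h.empSum_step hp (show (1/2:ℝ) < 1 by norm_num) (show 0 ≤ l₁ by linarith) hl2,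
      hμ.2 (δ / 2) (by linarith)] with X h1 h2
    have h3 : l₁ + (μ - l₁) = μ := by ring
    rw [h3] at h1
    have h4 := h2.trans h1
    have h5 : Real.exp (δ / 2 * Real.log X) = Real.exp (-(δ / 2 * Real.log X)) *
        Real.exp (δ * Real.log X) := by
      rw [← Real.exp_add]
      congr 1
      ring
    have h6 : empSum P E l₁ X = empSum P E l₁ X * Real.exp (-(1 / 2 * (μ - l₁) * Real.log X)) *
        Real.exp (δ * Real.log X) := by
      rw [mul_assoc, ← Real.exp_add, ← hδ]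
      simp
    rw [h5, h6]
    exact mul_le_mul_of_nonneg_right h4 (Real.exp_pos _).le
  -- the probability that there is no empty window
  have hprob : ∀ᶠ X : ℕ in atTop,
      P.real {ω | ∀ n ∈ range (X + 1), ω ∉ Free E n (n + ⌊l₁ * Real.log X ^ 2⌋₊)} ≤
        Real.exp (-(δ / 4 * Real.log X)) := by
    filter_upwards [hbig, sq_le_exp (show 0 < δ / 8 by linarith),
      tendsto_log_nat.eventually_ge_atTop (8 / δ * Real.log (2 * l₁ + 1)),
      tendsto_log_nat.eventually_ge_atTop 1] with X h1 h2 h3 h4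
    set H := ⌊l₁ * Real.log X ^ 2⌋₊ with hH
    have hpos : 0 < ∑ n ∈ range (X + 1), (1:ℝ) * P.real (Free E n (n + H)) := by
      simp only [one_mul]
      exact lt_of_lt_of_le (Real.exp_pos _) h1
    have h5 := bc_fin (P := P) (F := fun n => Free E n (n + H)) (fun n => free_meas h.meas _ _)
      (w := fun _ => 1) (fun _ => zero_le_one) (fun m n => n < m + H ∧ m < n + H)
      (C := 2 * H + 1) (range (X + 1)) ?_ ?_ hpos
    · refine h5.trans ?_
      simp only [one_mul]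
      change (2 * (H:ℝ) + 1) / empSum P E l₁ X ≤ _
      rw [div_le_iff₀ (lt_of_lt_of_le (Real.exp_pos _) h1)]
      have h6 : (H:ℝ) ≤ l₁ * Real.log X ^ 2 := Nat.floor_le (by
        have : 0 < l₁ := by linarith
        positivity)
      have h7 : (2:ℝ) * H + 1 ≤ (2 * l₁ + 1) * Real.log X ^ 2 := by nlinarith
      have hl0 : 0 < 2 * l₁ + 1 := by linarith
      have h8 : 2 * l₁ + 1 ≤ Real.exp (δ / 8 * Real.log X) := by
        rw [← Real.log_le_iff_le_exp hl0]
        have h9 : 8 / δ * Real.log (2 * l₁ + 1) * (δ / 8) = Real.log (2 * l₁ + 1) := by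
          field_simp
        nlinarith
      have h10 : Real.log X ^ 2 ≤ Real.exp (δ / 8 * Real.log X) := by
        rw [Real.exp_neg] at h2
        exact (inv_le_inv₀ (Real.exp_pos _) (by positivity)).1 h2
      calc (2:ℝ) * H + 1 ≤ (2 * l₁ + 1) * Real.log X ^ 2 := h7
        _ ≤ Real.exp (δ / 8 * Real.log X) * Real.exp (δ / 8 * Real.log X) := by gcongr
        _ = Real.exp (-(δ / 4 * Real.log X)) * Real.exp (δ / 2 * Real.log X) := by
          rw [← Real.exp_add, ← Real.exp_add]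
          congr 1
          ring
        _ ≤ Real.exp (-(δ / 4 * Real.log X)) * empSum P E l₁ X :=
          mul_le_mul_of_nonneg_left h1 (Real.exp_pos _).le
    · intro m _ n _ hnn
      rw [not_and_or, not_lt, not_lt] at hnn
      rcases hnn with hnn | hnn
      · exact h.neg _ _ _ _ (Nat.le_add_right _ _) hnn (Nat.le_add_right _ _)
      · rw [Set.inter_comm, mul_comm]
        exact h.neg _ _ _ _ (Nat.le_add_right _ _) hnn (Nat.le_add_right _ _)
    · intro n _
      rw [Finset.sum_const, nsmul_eq_mul, mul_one]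
      have hsub : (range (X + 1)).filter (fun m => n < m + H ∧ m < n + H) ⊆
          Icc (n - H) (n + H) := by
        intro m hm
        rw [Finset.mem_filter] at hm
        rw [Finset.mem_Icc]
        omega
      have h6 := Finset.card_le_card hsub
      rw [Nat.card_Icc] at h6
      have h7 : ((range (X + 1)).filter (fun m => n < m + H ∧ m < n + H)).card ≤ 2 * H + 1 := by
        omega
      exact_mod_cast h7
  -- the powers of two
  have hpow2 : Tendsto (fun j : ℕ => 2 ^ j) atTop (atTop : Filter ℕ) :=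
    tendsto_pow_atTop_atTop_of_one_lt (by norm_num)
  have hlogpow : ∀ j : ℕ, Real.log ((2 ^ j : ℕ) : ℝ) = j * Real.log 2 := by
    intro j
    push_cast
    rw [Real.log_pow]
  have hl2pos : 0 < Real.log 2 := Real.log_pos (by norm_num)
  have hsum : Summable fun j : ℕ => P.real {ω | ∀ n ∈ range (2 ^ j + 1),
      ω ∉ Free E n (n + ⌊l₁ * Real.log ((2 ^ j : ℕ) : ℝ) ^ 2⌋₊)} := by
    have hgeo : Summable fun j : ℕ => (Real.exp (-(δ / 4 * Real.log 2))) ^ j := by
      apply summable_geometric_of_lt_one (Real.exp_pos _).le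
      rw [Real.exp_lt_one_iff]
      have : 0 < δ / 4 * Real.log 2 := by positivity
      linarith
    refine summable_of_ev (fun j => measureReal_nonneg) hgeo ?_
    filter_upwards [hpow2.eventually hprob] with j hj
    refine hj.trans (le_of_eq ?_)
    rw [hlogpow, ← Real.exp_nat_mul]
    congr 1
    ring
  have hcmp : ∀ᶠ j : ℕ in atTop, lam * ((j + 1 : ℕ) * Real.log 2) ^ 2 ≤
      l₁ * (j * Real.log 2) ^ 2 := by
    -- `(j + 1) / j → 1`
    have h1 : Tendsto (fun j : ℕ => lam * ((1 + 1 / (j:ℝ)) * Real.log 2) ^ 2) atTop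
        (𝓝 (lam * ((1 + 0) * Real.log 2) ^ 2)) := by
      apply Tendsto.const_mul
      apply Tendsto.pow
      apply Tendsto.mul_const
      exact tendsto_const_nhds.add tendsto_one_div_atTop_nhds_zero_nat
    have h2 : lam * ((1 + 0) * Real.log 2) ^ 2 < l₁ * (Real.log 2) ^ 2 := by
      rw [add_zero, one_mul]
      have : 0 < Real.log 2 ^ 2 := by positivity
      nlinarith
    filter_upwards [h1.eventually_lt_const h2, eventually_gt_atTop 0] with j hj hj0
    have hjr : (0:ℝ) < j := by exact_mod_cast hj0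
    have h3 : lam * ((j + 1 : ℕ) * Real.log 2) ^ 2 =
        lam * ((1 + 1 / (j:ℝ)) * Real.log 2) ^ 2 * (j:ℝ) ^ 2 := by
      push_cast
      field_simp
    have h4 : l₁ * (j * Real.log 2) ^ 2 = l₁ * (Real.log 2) ^ 2 * (j:ℝ) ^ 2 := by ring
    rw [h3, h4]
    exact mul_le_mul_of_nonneg_right hj.le (by positivity)
  filter_upwards [bc_upper hsum] with ω hω
  have hlog2 : Tendsto (fun X : ℕ => Nat.log 2 X) atTop atTop := by
    apply tendsto_atTop_mono' atTop (f₁ := fun X : ℕ => Nat.log 2 X) (Eventually.of_forall fun _ => le_rfl)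
    refine tendsto_atTop.2 fun b => ?_
    filter_upwards [eventually_ge_atTop (2 ^ b)] with X hX
    exact Nat.le_log_of_pow_le (by norm_num) hX
  filter_upwards [hlog2.eventually hω, hlog2.eventually hcmp, eventually_ge_atTop 1] with
    X hX1 hX2 hX3
  set j := Nat.log 2 X with hj
  simp only [Set.mem_ofPred_eq, not_forall, not_not] at hX1
  obtain ⟨n, hn1, hn2⟩ := hX1
  have h2j : 2 ^ j ≤ X := Nat.pow_log_le_self 2 (by omega)
  have h2j' : X < 2 ^ (j + 1) := Nat.lt_pow_succ_log_self (by norm_num) X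
  rw [Finset.mem_range] at hn1
  refine ⟨n, by omega, free_mono le_rfl ?_ hn2⟩
  have hfl : ⌊lam * Real.log X ^ 2⌋₊ ≤ ⌊l₁ * Real.log ((2 ^ j : ℕ) : ℝ) ^ 2⌋₊ := by
    apply Nat.floor_mono
    rw [hlogpow]
    refine le_trans ?_ hX2
    have h5 : Real.log X ≤ (j + 1 : ℕ) * Real.log 2 := by
      rw [← hlogpow]
      apply Real.log_le_log (by exact_mod_cast hX3)
      exact_mod_cast h2j'.le
    have h6 : 0 ≤ Real.log X := Real.log_natCast_nonneg _
    gcongr
  omega

/-- (iv) -/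
lemma NegDep.low_b (h : NegDep P E)
    (hp : Tendsto (fun n : ℕ => P.real (E n) * Real.log n) atTop (𝓝 1)) {lam : ℝ}
    (hlt : lowExp P E < lam) : ∀ᵐ ω ∂P, ∃ᶠ X : ℕ in atTop, ∀ n ≤ X,
      ω ∉ Free E n (n + ⌊lam * Real.log X ^ 2⌋₊) := by
  have h0 : 0 < lam := lt_of_le_of_lt lowExp_nonneg hlt
  have hnot : lam ∉ lowSet P E := fun hmem =>
    absurd (le_csSup (h.lowSet_bdd hp) hmem) (not_le.2 hlt)
  have hex : ∃ ε : ℝ, 0 < ε ∧ ∃ᶠ X : ℕ in atTop,
      empSum P E lam X < Real.exp (-(ε * Real.log X)) := by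
    by_contra hcon
    push Not at hcon
    apply hnot
    refine ⟨h0.le, fun ε hε => ?_⟩
    exact hcon ε hε
  obtain ⟨ε, hε, hfreq⟩ := hex
  have hsmall : ∀ k : ℕ, ∀ᶠ X : ℕ in atTop,
      Real.exp (-(ε * Real.log X)) ≤ 1 / ((k:ℝ) + 1) ^ 2 := by
    intro k
    have h1 : Tendsto (fun X : ℕ => Real.exp (-(ε * Real.log X))) atTop (𝓝 0) := by
      apply Real.tendsto_exp_neg_atTop_nhds_zero.comp
      exact tendsto_log_nat.const_mul_atTop hε
    have h2 : (0:ℝ) < 1 / ((k:ℝ) + 1) ^ 2 := by positivity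
    exact (h1.eventually_lt_const h2).mono fun _ h => h.le
  have hsel : ∀ k : ℕ, ∃ X : ℕ, k ≤ X ∧ empSum P E lam X ≤ 1 / ((k:ℝ) + 1) ^ 2 := by
    intro k
    obtain ⟨X, hX1, hX2, hX3⟩ :=
      (hfreq.and_eventually ((hsmall k).and (eventually_ge_atTop k))).exists
    exact ⟨X, hX3, hX1.le.trans hX2⟩
  choose X hXk hXs using hsel
  have hsum : Summable fun k : ℕ => P.real (⋃ n ∈ range (X k + 1),
      Free E n (n + ⌊lam * Real.log (X k) ^ 2⌋₊)) := by
    have h1 : Summable fun k : ℕ => 1 / ((k:ℝ) + 1) ^ 2 := by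
      have h2 := (summable_nat_add_iff 1).2 (Real.summable_one_div_nat_pow.2 (show 1 < 2 by norm_num))
      simpa using h2
    refine summable_of_ev (fun k => measureReal_nonneg) h1 (Eventually.of_forall fun k => ?_)
    exact (measureReal_biUnion_finset_le _ _).trans (hXs k)
  filter_upwards [bc_upper hsum] with ω hω
  rw [frequently_atTop]
  intro N
  obtain ⟨k, hk1, hk2⟩ := (hω.and (eventually_ge_atTop N)).exists
  refine ⟨X k, hk2.trans (hXk k), fun n hn hmem => hk1 ?_⟩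
  rw [Set.mem_iUnion₂]
  exact ⟨n, Finset.mem_range.2 (by omega), hmem⟩

/-- the gaps are unbounded -/
lemma gaps_unbounded (hm : ∀ n, MeasurableSet (E n))
    (hlim : Tendsto (fun n => P.real (E n)) atTop (𝓝 0)) :
    ∀ᵐ ω ∂P, ∀ g : ℕ, ∃ᶠ n in atTop, ω ∈ Free E n (n + g) := by
  rw [ae_all_iff]
  intro g
  have h0 : ∀ M : ℕ, P {ω | ∀ n, M ≤ n → ω ∉ Free E n (n + g)} = 0 := by
    intro M
    have hle : ∀ᶠ n : ℕ in atTop, P.real {ω | ∀ n, M ≤ n → ω ∉ Free E n (n + g)} ≤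
        ∑ i ∈ range g, P.real (E (n + (i + 1))) := by
      filter_upwards [eventually_ge_atTop M] with n hn
      have hsub : {ω | ∀ n, M ≤ n → ω ∉ Free E n (n + g)} ⊆ ⋃ i ∈ range g, E (n + (i + 1)) := by
        intro ω hω
        have h1 := hω n hn
        unfold Free at h1
        simp only [Set.mem_ofPred_eq, not_forall, not_not] at h1
        obtain ⟨m, hm1, hm2, hm3⟩ := h1
        rw [Set.mem_iUnion₂]
        refine ⟨m - n - 1, Finset.mem_range.2 (by omega), ?_⟩
        have : n + (m - n - 1 + 1) = m := by omega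
        rw [this]
        exact hm3
      exact (measureReal_mono hsub (measure_ne_top _ _)).trans
        (measureReal_biUnion_finset_le _ _)
    have hlim2 : Tendsto (fun n : ℕ => ∑ i ∈ range g, P.real (E (n + (i + 1)))) atTop (𝓝 0) := by
      have : Tendsto (fun n : ℕ => ∑ i ∈ range g, P.real (E (n + (i + 1)))) atTop
          (𝓝 (∑ i ∈ range g, (0:ℝ))) := by
        apply tendsto_finset_sum
        intro i _
        exact hlim.comp (tendsto_add_atTop_nat (i + 1))
      simpa using this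
    have h1 : P.real {ω | ∀ n, M ≤ n → ω ∉ Free E n (n + g)} ≤ 0 := ge_of_tendsto hlim2 hle
    have h2 := le_antisymm h1 measureReal_nonneg
    rwa [measureReal_def, ENNReal.toReal_eq_zero_iff, or_iff_left (measure_ne_top P _)] at h2
  have h1 : ∀ᵐ ω ∂P, ∀ M : ℕ, ¬ ∀ n, M ≤ n → ω ∉ Free E n (n + g) := by
    rw [ae_all_iff]
    intro M
    rw [ae_iff]
    simp only [not_not]
    exact h0 M
  filter_upwards [h1] with ω hω
  rw [frequently_atTop]
  intro M
  have := hω M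
  push Not at this
  exact this

/-- **The law of the first occurrences in negatively dependent models.** -/
theorem NegDep.shanks (h : NegDep P E)
    (hp : Tendsto (fun n : ℕ => P.real (E n) * Real.log n) atTop (𝓝 1)) :
    ∀ᵐ ω ∂P, {n | ω ∈ E n}.Infinite ∧
      (∀ g : ℕ, ∃ k, Nat.nth (· ∈ {n | ω ∈ E n}) k + g < Nat.nth (· ∈ {n | ω ∈ E n}) (k + 1)) ∧
      liminf (ratio {n | ω ∈ E n}) atTop = rs (critical (emp P E)) ∧
      limsup (ratio {n | ω ∈ E n}) atTop = rs (lowExp P E) := by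
  have hD := spread_of_density hp
  have hbdd := bdd_of_spread (fun n => measureReal_nonneg) hD (e := emp P E)
    (fun lam n => emp_nonneg lam n) (fun lam n => h.emp_le_exp lam n)
  have hlim := tendsto_zero_of_density hp
  set u := critical (emp P E) with hu
  set v := lowExp P E with hv
  have hu0 : 0 ≤ u := critical_nonneg
  have hv0 : 0 ≤ v := lowExp_nonneg
  have h1 : ∀ᵐ ω ∂P, ∀ q : ℚ, u < q → ∀ᶠ n in atTop, ω ∉ Free E n (win q n) := by
    rw [ae_all_iff]
    intro q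
    by_cases hq : u < q
    · filter_upwards [bc_upper (F := fun n => Free E n (win q n))
        (summable_of_critical_lt hbdd (e := emp P E) hq)] with ω hω _
      exact hω
    · exact Eventually.of_forall fun ω h' => absurd h' hq
  have h2 : ∀ᵐ ω ∂P, ∀ q : ℚ, (0:ℝ) < q → (q:ℝ) < u → ∃ᶠ n : ℕ in atTop,
      ω ∈ Free E n (win q n) := by
    rw [ae_all_iff]
    intro q
    by_cases hq : (0:ℝ) < q ∧ (q:ℝ) < u
    · obtain ⟨μ, hμ1, hμ2⟩ := exists_of_lt_critical (e := emp P E) (fun n => emp_zero n) hq.2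
      filter_upwards [h.frequently hD hq.1.le hμ1 hμ2] with ω hω _ _
      exact hω
    · exact Eventually.of_forall fun ω h' h'' => absurd ⟨h', h''⟩ hq
  have h3 : ∀ᵐ ω ∂P, ∀ q : ℚ, (0:ℝ) < q → (q:ℝ) < v → ∀ᶠ X : ℕ in atTop, ∃ n ≤ X,
      ω ∈ Free E n (n + ⌊(q:ℝ) * Real.log X ^ 2⌋₊) := by
    rw [ae_all_iff]
    intro q
    by_cases hq : (0:ℝ) < q ∧ (q:ℝ) < v
    · filter_upwards [h.low_a hp hq.1 hq.2] with ω hω _ _
      exact hω
    · exact Eventually.of_forall fun ω h' h'' => absurd ⟨h', h''⟩ hq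
  have h4 : ∀ᵐ ω ∂P, ∀ q : ℚ, v < q → ∃ᶠ X : ℕ in atTop, ∀ n ≤ X,
      ω ∉ Free E n (n + ⌊(q:ℝ) * Real.log X ^ 2⌋₊) := by
    rw [ae_all_iff]
    intro q
    by_cases hq : v < q
    · filter_upwards [h.low_b hp hq] with ω hω _
      exact hω
    · exact Eventually.of_forall fun ω h' => absurd h' hq
  filter_upwards [h1, h2, h3, h4, gaps_unbounded h.meas hlim] with ω w1 w2 w3 w4 w5
  -- translation of the first family
  have hup : ∀ lam : ℝ, u < lam → ∀ᶠ x : ℕ in atTop, ∃ n : ℕ, x < n ∧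
      (n:ℝ) ≤ x + lam * Real.log x ^ 2 ∧ n ∈ {n | ω ∈ E n} := by
    intro lam hlam
    obtain ⟨q, hq1, hq2⟩ := exists_rat_btwn hlam
    filter_upwards [w1 q hq1] with x hx
    unfold Free at hx
    simp only [Set.mem_ofPred_eq, not_forall, not_not] at hx
    obtain ⟨n, hn1, hn2, hn3⟩ := hx
    refine ⟨n, hn1, ?_, hn3⟩
    unfold win at hn2
    have h4 : (n:ℝ) ≤ x + (⌊(q:ℝ) * Real.log x ^ 2⌋₊ : ℝ) := by exact_mod_cast hn2
    have hq0 : (0:ℝ) < q := lt_of_le_of_lt hu0 hq1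
    have h5 := Nat.floor_le (show 0 ≤ (q:ℝ) * Real.log x ^ 2 by positivity)
    have h6 : (q:ℝ) * Real.log x ^ 2 ≤ lam * Real.log x ^ 2 := by gcongr
    linarith
  have hC : ∀ᶠ x : ℕ in atTop, ∃ n : ℕ, x < n ∧
      (n:ℝ) ≤ x + (u + 1) * Real.log x ^ 2 ∧ n ∈ {n | ω ∈ E n} := hup (u + 1) (by linarith)
  have hinf := inf_of_upper hC
  have hunb : ∀ g : ℕ, ∃ k, Nat.nth (· ∈ {n | ω ∈ E n}) k + g <
      Nat.nth (· ∈ {n | ω ∈ E n}) (k + 1) := by
    intro g
    set g' := max g (Nat.nth (· ∈ {n | ω ∈ E n}) 0 + 1) with hg'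
    obtain ⟨n, hn⟩ := (w5 g').exists
    obtain ⟨k, _, hk⟩ := gap_of_free hinf (n := n) (g := g') (by
      have := le_max_right g (Nat.nth (· ∈ {n | ω ∈ E n}) 0 + 1)
      omega) (fun m hm1 hm2 => hn m hm1 hm2)
    have := le_max_left g (Nat.nth (· ∈ {n | ω ∈ E n}) 0 + 1)
    exact ⟨k, by omega⟩
  refine ⟨hinf, hunb, le_antisymm ?_ ?_, le_antisymm ?_ ?_⟩
  · -- liminf ≤ rs u
    apply le_rs_of hu0
    intro lam hl0 hlu
    have hu1 : 0 < u + 1 := by linarith
    -- use rational numbers which increase to `lam`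
    obtain ⟨q, hq1, hq2⟩ := exists_rat_btwn hlu
    have hq0 : (0:ℝ) < q := hl0.trans hq1
    have h5 := liminf_le' hinf hu1 hC hq0 ((w2 q hq0 hq2).mono fun x hx m hm1 hm2 => hx m hm1 hm2)
    refine h5.trans (EReal.coe_le_coe_iff.2 ?_)
    apply one_div_le_one_div_of_le (Real.sqrt_pos.2 hl0)
    exact Real.sqrt_le_sqrt hq1.le
  · -- rs u ≤ liminf
    apply rs_le_of hu0
    intro lam hlu
    exact liminf_ge hinf hunb (lt_of_le_of_lt hu0 hlu) (hup lam hlu)
  · -- limsup ≤ rs v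
    apply le_rs_of hv0
    intro lam hl0 hlv
    have hu1 : 0 < u + 1 := by linarith
    obtain ⟨q, hq1, hq2⟩ := exists_rat_btwn hlv
    have hq0 : (0:ℝ) < q := hl0.trans hq1
    have h5 := limsup_le' hinf hu1 hC hq0 ((w3 q hq0 hq2).mono fun X hX => by
      obtain ⟨n, hn1, hn2⟩ := hX
      exact ⟨n, hn1, fun m hm1 hm2 => hn2 m hm1 hm2⟩)
    refine h5.trans (EReal.coe_le_coe_iff.2 ?_)
    apply one_div_le_one_div_of_le (Real.sqrt_pos.2 hl0)
    exact Real.sqrt_le_sqrt hq1.le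
  · -- rs v ≤ limsup
    apply rs_le_of hv0
    intro lam hlv
    obtain ⟨q, hq1, hq2⟩ := exists_rat_btwn hlv
    have hq0 : (0:ℝ) < q := lt_of_le_of_lt hv0 hq1
    have h5 := le_limsup hinf hunb hq0 ((w4 q hq1).mono fun X hX n hn => by
      have h6 := hX n hn
      unfold Free at h6
      simp only [Set.mem_ofPred_eq, not_forall, not_not] at h6
      obtain ⟨m, hm1, hm2, hm3⟩ := h6
      exact ⟨m, hm1, hm2, hm3⟩)
    refine le_trans (EReal.coe_le_coe_iff.2 ?_) h5
    apply one_div_le_one_div_of_le (Real.sqrt_pos.2 hq0)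
    exact Real.sqrt_le_sqrt hq2.le

end Pool.Agent.H34.ND
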