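import Mathlib

/-! # Spectral estimates for `det (1 - M)` -/

set_option autoImplicit false

namespace Pool.Agent.H34.ND

open Matrix Finset
open scoped ComplexOrder MatrixOrder

variable {n : Type*} [Fintype n] [DecidableEq n] {M : Matrix n n ℂ}

lemma det_one_sub_eig (hM : M.IsHermitian) :
    (1 - M).det = ((∏ i, (1 - hM.eigenvalues i) : ℝ) : ℂ) := by
  have h1 := Matrix.eval_charpoly M 1
  rw [hM.charpoly_eq, Polynomial.eval_prod] at h1
  have h2 : (Matrix.scalar n (1:ℂ)) = 1 := map_one _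
  rw [h2] at h1
  rw [← h1]
  push_cast
  refine Finset.prod_congr rfl fun i _ => ?_
  simp

lemma trace_eig (hM : M.IsHermitian) :
    (∑ i, (M i i).re) = ∑ i, hM.eigenvalues i := by
  have h1 := hM.trace_eq_sum_eigenvalues
  have h2 := congrArg Complex.re h1
  simpa [Matrix.trace] using h2

lemma mul_self_diag (hM : M.IsHermitian) (i : n) :
    ((M * M) i i) = ((∑ j, ‖M i j‖ ^ 2 : ℝ) : ℂ) := by
  rw [Matrix.mul_apply]
  push_cast
  refine Finset.sum_congr rfl fun j _ => ?_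
  have h1 : M j i = star (M i j) := by
    have := hM.apply j i
    rw [← this]
  rw [h1]
  have := Complex.mul_conj (M i j)
  rw [Complex.normSq_eq_norm_sq] at this
  simpa using this

lemma trace_sq_eig (hM : M.IsHermitian) :
    (∑ i, ∑ j, ‖M i j‖ ^ 2) = ∑ i, hM.eigenvalues i ^ 2 := by
  have h1 : (M * M).trace = ((∑ i, ∑ j, ‖M i j‖ ^ 2 : ℝ) : ℂ) := by
    rw [Matrix.trace]
    push_cast
    refine Finset.sum_congr rfl fun i _ => ?_
    rw [Matrix.diag_apply, mul_self_diag hM]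
    push_cast
    rfl
  have h2 : (M * M).trace = ((∑ i, hM.eigenvalues i ^ 2 : ℝ) : ℂ) := by
    set D : Matrix n n ℂ := Matrix.diagonal (RCLike.ofReal ∘ hM.eigenvalues) with hD
    have h3 : M * M = (hM.eigenvectorUnitary : Matrix n n ℂ) * (D * D) *
        star (hM.eigenvectorUnitary : Matrix n n ℂ) := by
      conv_lhs => rw [hM.spectral_theorem, ← map_mul, Unitary.conjStarAlgAut_apply]
    rw [h3, Matrix.trace_mul_cycle, ← mul_assoc]
    have h4 : star (hM.eigenvectorUnitary : Matrix n n ℂ) *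
        (hM.eigenvectorUnitary : Matrix n n ℂ) = 1 := Unitary.coe_star_mul_self _
    rw [h4, one_mul, hD, Matrix.diagonal_mul_diagonal, Matrix.trace_diagonal]
    push_cast
    refine Finset.sum_congr rfl fun i _ => ?_
    simp [sq]
  rw [h1] at h2
  exact_mod_cast h2

lemma eig_le (hM : M.IsHermitian) {r : ℝ}
    (h : ((r:ℂ) • (1 : Matrix n n ℂ) - M).PosSemidef) (i : n) : hM.eigenvalues i ≤ r := by
  have h1 := h.re_dotProduct_nonneg (⇑(hM.eigenvectorBasis i) : n → ℂ)
  rw [Matrix.sub_mulVec, hM.mulVec_eigenvectorBasis, Matrix.smul_mulVec, Matrix.one_mulVec,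
    dotProduct_sub, dotProduct_smul, dotProduct_smul] at h1
  have h2 : star (⇑(hM.eigenvectorBasis i) : n → ℂ) ⬝ᵥ (⇑(hM.eigenvectorBasis i) : n → ℂ) = 1 := by
    rw [dotProduct_comm, ← EuclideanSpace.inner_eq_star_dotProduct]
    simp
  rw [h2] at h1
  simp at h1
  linarith

lemma row_le (hM : M.PosSemidef) (hM1 : (1 - M).PosSemidef) (i : n) :
    ∑ j, ‖M i j‖ ^ 2 ≤ (M i i).re := by
  have h1 : (M - M * M).PosSemidef := by
    have h2 := hM1.conjTranspose_mul_mul_same M
    have h3 := hM.conjTranspose_mul_mul_same (1 - M)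
    rw [hM.1.eq] at h2
    rw [hM1.1.eq] at h3
    have h4 : M - M * M = M * (1 - M) * M + (1 - M) * M * (1 - M) := by noncomm_ring
    rw [h4]
    exact h2.add h3
  have h2 := h1.diag_nonneg (i := i)
  rw [Matrix.sub_apply, mul_self_diag hM.1] at h2
  have h3 := (Complex.le_def.1 h2).1
  simp only [Complex.zero_re, Complex.sub_re, Complex.ofReal_re] at h3
  linarith

/-- lower bound for the determinant -/
lemma det_lower (hM : M.PosSemidef) {c : ℝ} (hc : 0 < c)
    (h : (((1 - c : ℝ) : ℂ) • (1 : Matrix n n ℂ) - M).PosSemidef) {x : ℝ}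
    (hx : (x : ℂ) = (1 - M).det) :
    Real.exp (-(∑ i, (M i i).re + (∑ i, ∑ j, ‖M i j‖ ^ 2) / c)) ≤ x := by
  rw [det_one_sub_eig hM.1] at hx
  have hx' : x = ∏ i, (1 - hM.1.eigenvalues i) := by exact_mod_cast hx
  rw [hx', trace_eig hM.1, trace_sq_eig hM.1, Finset.sum_div, ← Finset.sum_add_distrib,
    ← Finset.sum_neg_distrib, Real.exp_sum]
  refine Finset.prod_le_prod (fun i _ => (Real.exp_pos _).le) fun i _ => ?_
  set y := hM.1.eigenvalues i with hy
  have h0 : 0 ≤ y := hM.eigenvalues_nonneg i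
  have h1 : y ≤ 1 - c := eig_le hM.1 h i
  have h2 : 0 < 1 - y := by linarith
  have h3 := Real.one_sub_inv_le_log_of_pos h2
  have h4 : -(y + y ^ 2 / c) ≤ 1 - (1 - y)⁻¹ := by
    have h5 : 1 - (1 - y)⁻¹ = -(y + y ^ 2 / (1 - y)) := by
      field_simp
      ring
    rw [h5, neg_le_neg_iff]
    have h6 : y ^ 2 / (1 - y) ≤ y ^ 2 / c :=
      div_le_div_of_nonneg_left (sq_nonneg y) hc (by linarith)
    linarith
  calc Real.exp (-(y + y ^ 2 / c)) ≤ Real.exp (Real.log (1 - y)) :=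
        Real.exp_le_exp.2 (h4.trans h3)
    _ = 1 - y := Real.exp_log h2

lemma one_sub_le_exp {y : ℝ} (h0 : 0 ≤ y) : 1 - y ≤ Real.exp (-(y + y ^ 2 / 2)) := by
  rcases lt_or_ge y 1 with h1 | h1
  · -- `exp (y + y ^ 2 / 2) ≤ 1 / (1 - y)`
    have h2 : 0 < 1 - y := by linarith
    rw [← Real.log_le_iff_le_exp h2]
    have h3 : HasSum (fun n : ℕ => y ^ (n + 1) / ((n:ℝ) + 1)) (-Real.log (1 - y)) :=
      Real.hasSum_pow_div_log_of_abs_lt_one (by rw [abs_of_nonneg h0]; exact h1)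
    have h4 : ∑ n ∈ range 2, y ^ (n + 1) / ((n:ℝ) + 1) ≤ -Real.log (1 - y) :=
      sum_le_hasSum _ (fun n _ => by positivity) h3
    simp [Finset.sum_range_succ] at h4
    norm_num at h4
    linarith
  · have := Real.exp_pos (-(y + y ^ 2 / 2))
    linarith

/-- upper bound for the determinant -/
lemma det_upper (hM : M.PosSemidef) (hM1 : (1 - M).PosSemidef) {x : ℝ}
    (hx : (x : ℂ) = (1 - M).det) :
    x ≤ Real.exp (-(∑ i, (M i i).re + (∑ i, ∑ j, ‖M i j‖ ^ 2) / 2)) := by
  rw [det_one_sub_eig hM.1] at hx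
  have hx' : x = ∏ i, (1 - hM.1.eigenvalues i) := by exact_mod_cast hx
  rw [hx', trace_eig hM.1, trace_sq_eig hM.1, Finset.sum_div, ← Finset.sum_add_distrib,
    ← Finset.sum_neg_distrib, Real.exp_sum]
  refine Finset.prod_le_prod (fun i _ => ?_) fun i _ => one_sub_le_exp (hM.eigenvalues_nonneg i)
  have h1 := eig_le hM.1 (r := 1) (by simpa using hM1) i
  linarith

end Pool.Agent.H34.ND
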