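import Pool.Agent.H34.ND.Glue2

/-! # The values of the lower and upper limits -/

set_option autoImplicit false

namespace Pool.Agent.H34.ND

open MeasureTheory Filter Topology Finset

lemma one_le_rs {u : ℝ} (h0 : 0 ≤ u) (h1 : u ≤ 1) : 1 ≤ rs u := by
  rcases h0.eq_or_lt with rfl | h0
  · rw [rs_zero]
    exact le_top
  · rw [rs_pos h0.ne']
    have h2 : 0 < √u := Real.sqrt_pos.2 h0
    have h3 : (1:ℝ) ≤ 1 / √u := by
      rw [le_div_iff₀ h2, one_mul, ← Real.sqrt_one]
      exact Real.sqrt_le_sqrt h1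
    exact_mod_cast h3

/-- the exponent which belongs to a value -/
noncomputable def invsq (a : EReal) : ℝ := if a = ⊤ then 0 else (1 / a.toReal) ^ 2

lemma invsq_nonneg (a : EReal) : 0 ≤ invsq a := by
  unfold invsq
  split_ifs
  · exact le_rfl
  · positivity

lemma real_of_one_le {a : EReal} (ha : 1 ≤ a) (ht : a ≠ ⊤) : ∃ x : ℝ, a = (x : EReal) ∧ 1 ≤ x := by
  have hb : a ≠ ⊥ := by
    rintro rfl
    exact EReal.coe_ne_bot 1 (by exact_mod_cast le_bot_iff.1 ha)
  refine ⟨a.toReal, (EReal.coe_toReal ht hb).symm, ?_⟩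
  have h1 : ((1:ℝ) : EReal) ≤ ((a.toReal : ℝ) : EReal) := by
    rw [EReal.coe_toReal ht hb]
    exact_mod_cast ha
  exact EReal.coe_le_coe_iff.1 h1

lemma invsq_le_one {a : EReal} (ha : 1 ≤ a) : invsq a ≤ 1 := by
  unfold invsq
  split_ifs with h
  · exact zero_le_one
  · obtain ⟨x, rfl, hx⟩ := real_of_one_le ha h
    rw [EReal.toReal_coe]
    have h2 : 1 / x ≤ 1 := by rw [div_le_one (by linarith)]; exact hx
    have h3 : 0 ≤ 1 / x := by positivity
    nlinarith

lemma rs_invsq {a : EReal} (ha : 1 ≤ a) : rs (invsq a) = a := by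
  by_cases h : a = ⊤
  · rw [invsq, if_pos h, rs_zero, h]
  · obtain ⟨x, rfl, hx⟩ := real_of_one_le ha h
    rw [invsq, if_neg h, EReal.toReal_coe]
    have hx0 : 0 < x := by linarith
    have h2 : (1 / x) ^ 2 ≠ 0 := by positivity
    rw [rs_pos h2, Real.sqrt_sq (by positivity), one_div_one_div]

lemma invsq_anti {a b : EReal} (ha : 1 ≤ a) (hab : a ≤ b) : invsq b ≤ invsq a := by
  by_cases hb : b = ⊤
  · rw [invsq, if_pos hb]
    exact invsq_nonneg a
  · have hat : a ≠ ⊤ := by
      rintro rfl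
      exact hb (top_le_iff.1 hab)
    obtain ⟨x, rfl, hx⟩ := real_of_one_le ha hat
    obtain ⟨y, rfl, hy⟩ := real_of_one_le (ha.trans hab) hb
    have hxy : x ≤ y := EReal.coe_le_coe_iff.1 hab
    rw [invsq, invsq, if_neg hat, if_neg hb, EReal.toReal_coe, EReal.toReal_coe]
    have hx0 : 0 < x := by linarith
    have h2 : 1 / y ≤ 1 / x := one_div_le_one_div_of_le hx0 hxy
    have h3 : 0 ≤ 1 / y := by positivity
    gcongr

/-- the probabilities of Cramér's model -/
noncomputable def cp (n : ℕ) : ℝ := if 3 ≤ n then 1 / Real.log n else 0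

lemma one_lt_log {n : ℕ} (h : 3 ≤ n) : 1 < Real.log n := by
  rw [Real.lt_log_iff_exp_lt (by positivity)]
  have h1 := Real.exp_one_lt_d9
  have h2 : (3:ℝ) ≤ n := by exact_mod_cast h
  linarith

lemma cp_nonneg (n : ℕ) : 0 ≤ cp n := by
  unfold cp
  split_ifs with h
  · have := one_lt_log h
    positivity
  · exact le_rfl

lemma cp_le_one (n : ℕ) : cp n ≤ 1 := by
  unfold cp
  split_ifs with h
  · have := one_lt_log h
    rw [div_le_one (by linarith)]
    linarith
  · exact zero_le_one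

lemma cp_density : Tendsto (fun n : ℕ => cp n * Real.log n) atTop (𝓝 1) := by
  apply tendsto_const_nhds.congr'
  filter_upwards [eventually_ge_atTop 3] with n hn
  have := one_lt_log hn
  rw [cp, if_pos hn]
  field_simp

/-- models for all pairs of values -/
theorem exists_model {a b : EReal} (ha : 1 ≤ a) (hab : a ≤ b) :
    ∃ (s : ℕ → ℝ) (lab : ℕ → ℕ), Cells cp s lab ∧
      rs (critical (emp cellP (cellE cp s lab))) = a ∧ rs (lowExp cellP (cellE cp s lab)) = b := by
  have hp : Dens cp := dens_of_density cp_nonneg cp_le_one cp_density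
  obtain ⟨s₁, lab₁, h₁⟩ := exists_law hp (invsq_nonneg a) (invsq_le_one ha)
  obtain ⟨s₂, lab₂, h₂⟩ := exists_law hp (invsq_nonneg b) (invsq_le_one (ha.trans hab))
  refine ⟨glueS s₁ s₂, glueL lab₁ lab₂, glue_cells h₁.cells h₂.cells, ?_, ?_⟩
  · rw [glue_critical cp_density h₁ h₂ (invsq_nonneg b) (invsq_anti ha hab), rs_invsq ha]
  · rw [glue_lowExp cp_density h₁ h₂ (invsq_nonneg b) (invsq_anti ha hab),
      rs_invsq (ha.trans hab)]

end Pool.Agent.H34.ND
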